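import Pool.Agent.Lib.MP_9177b7_ag.CM.Defs

/-!
Lattice sums against the modular forms `E₄`, `E₆`, `Δ`, and the basic properties of `j`.
-/

open UpperHalfPlane Pointwise Filter Topology ModularForm EisensteinSeries
open scoped MatrixGroups

noncomputable section

namespace Pool.Agent.Lib.MP_9177b7_ag.CM

namespace Eis

/-- the lattice point with coordinates `v` -/
def pt (τ : ℍ) (v : Fin 2 → ℤ) : sp τ 1 :=
  ⟨v 0 * τ + v 1, Submodule.mem_span_pair.2 ⟨v 0, v 1, by simp⟩⟩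

lemma pt_bij (τ : ℍ) : Function.Bijective (pt τ) := by
  refine ⟨fun v w h => ?_, fun ⟨x, hx⟩ => ?_⟩
  · have e : (v 0 : ℂ) * τ + v 1 = w 0 * τ + w 1 := congrArg Subtype.val h
    have e1 := congrArg Complex.im e
    simp only [Complex.add_im, Complex.mul_im, Complex.intCast_re, Complex.intCast_im, zero_mul,
      add_zero, coe_im] at e1
    have h0 : v 0 = w 0 := by exact_mod_cast mul_right_cancel₀ τ.im_pos.ne' e1
    rw [h0, add_right_inj] at e
    ext i
    fin_cases i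
    exacts [h0, by exact_mod_cast e]
  · obtain ⟨a, b, rfl⟩ := Submodule.mem_span_pair.1 hx
    exact ⟨![a, b], Subtype.ext (by simp [pt])⟩

lemma Gs_eq {k : ℕ} (hk : 3 ≤ k) (τ : ℍ) : Gs (sp τ 1) k = 2 * riemannZeta k * E hk τ := by
  have h1 : Gs (sp τ 1) k = ∑' v : Fin 2 → ℤ, eisSummand k v τ := by
    rw [Gs, ← (Equiv.ofBijective _ (pt_bij τ)).tsum_eq]
    simp [eisSummand, pt]
  have h2 : E hk τ = (1 / 2 : ℂ) * eisensteinSeries (N := 1) 0 k τ := rfl
  rw [h1, tsum_eisSummand_eq_riemannZeta_mul_eisensteinSeries hk, h2]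
  ring

lemma zeta_six : riemannZeta 6 = (Real.pi : ℂ) ^ 6 / 945 := by
  have h := riemannZeta_two_mul_nat (k := 3) (by norm_num)
  have b : bernoulli 6 = 1 / 42 := by decide +kernel
  norm_num [b, Nat.factorial] at h
  rw [h]
  ring

lemma g2_eq (τ : ℍ) : g2 (sp τ 1) = 4 * (Real.pi : ℂ) ^ 4 / 3 * E₄ τ := by
  rw [g2, Gs_eq (by norm_num : 3 ≤ 4), Nat.cast_ofNat, riemannZeta_four]
  ring

lemma g3_eq (τ : ℍ) : g3 (sp τ 1) = 8 * (Real.pi : ℂ) ^ 6 / 27 * E₆ τ := by
  rw [g3, Gs_eq (by norm_num : 3 ≤ 6), Nat.cast_ofNat, zeta_six]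
  ring

lemma dis_eq (τ : ℍ) : dis (sp τ 1) = (2 * (Real.pi : ℂ)) ^ 12 * discriminant τ := by
  rw [dis, g2_eq, g3_eq, discriminant_eq_E₄_cube_sub_E₆_sq]
  ring

lemma jL_eq (τ : ℍ) : jL (sp τ 1) = jH τ := by
  have hπ : (Real.pi : ℂ) ≠ 0 := Complex.ofReal_ne_zero.2 Real.pi_ne_zero
  have := discriminant_ne_zero τ
  rw [jL, dis_eq, g2_eq, jH]
  field_simp
  ring

lemma jH_smul (γ : SL(2, ℤ)) (τ : ℍ) : jH (γ • τ) = jH τ := by
  have hγ : (γ : GL (Fin 2) ℝ) ∈ 𝒮ℒ := ⟨γ, rfl⟩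
  have h1 : E₄ (γ • τ) = _ := SlashInvariantForm.slash_action_eqn'' E₄ hγ τ
  have h2 : discriminant (γ • τ) = _ :=
    SlashInvariantForm.slash_action_eqn'' CuspForm.discriminant hγ τ
  have h3 := denom_ne_zero (γ : GL (Fin 2) ℝ) τ
  have := discriminant_ne_zero τ
  rw [jH, jH, h1, h2, CuspForm.coe_discriminant]
  generalize denom (γ : GL (Fin 2) ℝ) τ = d at h3 ⊢
  rw [zpow_ofNat, zpow_ofNat]
  field_simp

lemma continuous_jH : Continuous jH :=
  ((E₄.holo'.continuous).pow 3).div CuspForm.discriminant.holo'.continuous discriminant_ne_zero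

lemma tendsto_E₄ : Tendsto E₄ atImInfty (𝓝 1) := by
  have hanal := ModularFormClass.analyticAt_cuspFunction_zero E₄ one_pos one_mem_strictPeriods_SL
  have h0 : cuspFunction 1 E₄ 0 = 1 := by
    simpa [qExpansion_coeff] using E_qExpansion_coeff_zero (by norm_num : 3 ≤ 4) ⟨2, rfl⟩
  rw [← h0]
  exact (hanal.continuousAt.tendsto.comp (qParam_tendsto_atImInfty one_pos)).congr
    fun τ => SlashInvariantFormClass.eq_cuspFunction E₄ τ one_mem_strictPeriods_SL one_ne_zero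

lemma tendsto_jH : Tendsto (fun τ => ‖jH τ‖) atImInfty atTop := by
  have h1 : Tendsto (fun τ => ‖E₄ τ ^ 3‖) atImInfty (𝓝 1) := by
    simpa using (tendsto_E₄.pow 3).norm
  have h2 : Tendsto (fun τ => ‖discriminant τ‖) atImInfty (𝓝[>] 0) :=
    tendsto_nhdsWithin_iff.2 ⟨by simpa using Tendsto.norm discriminant_isZeroAtImInfty,
      Eventually.of_forall fun τ => norm_pos_iff.2 (discriminant_ne_zero τ)⟩
  refine (h1.pos_mul_atTop one_pos (tendsto_inv_nhdsGT_zero.comp h2)).congr fun τ => ?_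
  simp [jH, div_eq_mul_inv]

lemma surj_jH : Function.Surjective jH := fun c => by
  by_contra hc
  have hne : ∀ τ, jH τ - c ≠ 0 := fun τ h => hc ⟨τ, sub_eq_zero.1 h⟩
  have hs : ∀ γ : SL(2, ℤ), (fun τ => (jH τ - c)⁻¹) ∣[(0 : ℤ)] γ = fun τ => (jH τ - c)⁻¹ :=
    fun γ => by
      ext τ
      rw [SL_slash_apply, jH_smul]
      simp
  have hz : Tendsto (fun τ => (jH τ - c)⁻¹) atImInfty (𝓝 0) := by
    refine tendsto_inv₀_cobounded.comp ?_
    rw [← tendsto_norm_atTop_iff_cobounded]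
    refine tendsto_atTop_mono (fun τ => norm_sub_norm_le (jH τ) c) ?_
    exact tendsto_atTop_add_const_right _ (-‖c‖) tendsto_jH
  let f : ModularForm 𝒮ℒ 0 :=
    { toFun := fun τ => (jH τ - c)⁻¹
      slash_action_eq' := fun _ ⟨γ, hγ⟩ => hγ ▸ hs γ
      holo' := by
        have h1 := ((E₄.holo'.pow 3).div CuspForm.discriminant.holo' discriminant_ne_zero).sub
          (mdifferentiable_const (c := c))
        have h2 := (mdifferentiable_const (c := (1 : ℂ))).div h1 hne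
        exact fun τ => (h2 τ).congr_of_eventuallyEq
          (Eventually.of_forall fun z => (one_div (jH z - c)).symm)
      bdd_at_cusps' := fun {x} hx => by
        rw [Subgroup.IsArithmetic.isCusp_iff_isCusp_SL2Z] at hx
        rw [OnePoint.isBoundedAt_iff_forall_SL2Z hx]
        intro γ _
        rw [hs γ]
        exact ZeroAtFilter.boundedAtFilter hz }
  obtain ⟨a, ha⟩ := ModularFormClass.levelOne_weight_zero_const f
  have ha' : (fun τ => (jH τ - c)⁻¹) = fun _ => a := ha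
  rw [ha'] at hz
  have h0 : a = 0 := tendsto_nhds_unique tendsto_const_nhds hz
  exact inv_ne_zero (hne I) ((congrFun ha' I).trans h0)

end Eis

theorem eis : EisStmt :=
  ⟨Eis.g2_eq, Eis.g3_eq, Eis.dis_eq, Eis.jL_eq, Eis.jH_smul, Eis.continuous_jH, Eis.tendsto_jH,
    Eis.surj_jH⟩

end Pool.Agent.Lib.MP_9177b7_ag.CM
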