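import Pool.Agent.Lib.MP_9177b7_ag.CM.Defs

/-!
Extension of embeddings to automorphisms of `ℂ`, and Frobenius automorphisms.
-/

open Cardinal NumberField

namespace Pool.Agent.Lib.MP_9177b7_ag.CM

namespace Frob

theorem exists_equiv {R K L : Type} [CommRing R] [Field K] [Field L] [Algebra R K] [Algebra R L]
    [IsAlgClosed K] [IsAlgClosed L] (hK' : Function.Injective (algebraMap R K))
    (hL' : Function.Injective (algebraMap R L)) (hR : #R ≤ ℵ₀) (hK : ℵ₀ < #K) (hKL : #K = #L) :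
    ∃ σ : K ≃+* L, ∀ x, σ (algebraMap R K x) = algebraMap R L x := by
  have : Nontrivial R := RingHom.domain_nontrivial (algebraMap R K)
  have := (faithfulSMul_iff_algebraMap_injective R K).2 hK'
  have := (faithfulSMul_iff_algebraMap_injective R L).2 hL'
  obtain ⟨s, hs⟩ := exists_isTranscendenceBasis R K
  obtain ⟨t, ht⟩ := exists_isTranscendenceBasis R L
  have h1 := IsAlgClosed.cardinal_eq_cardinal_transcendence_basis_of_aleph0_lt' _ hs hR hK
  have h2 := IsAlgClosed.cardinal_eq_cardinal_transcendence_basis_of_aleph0_lt' _ ht hR (hKL ▸ hK)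
  obtain ⟨e⟩ := Cardinal.eq.1 (h1.symm.trans (hKL.trans h2))
  have := IsAlgClosed.isAlgClosure_of_transcendence_basis _ hs
  have := IsAlgClosed.isAlgClosure_of_transcendence_basis _ ht
  let e' : Algebra.adjoin R (Set.range ((↑) : s → K)) ≃ₐ[R]
      Algebra.adjoin R (Set.range ((↑) : t → L)) :=
    hs.1.aevalEquiv.symm.trans ((MvPolynomial.renameEquiv R e).trans ht.1.aevalEquiv)
  refine ⟨IsAlgClosure.equivOfEquiv K L e'.toRingEquiv, fun x => ?_⟩
  have h3 := IsAlgClosure.equivOfEquiv_algebraMap K L e'.toRingEquiv (algebraMap R _ x)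
  have h4 : e'.toRingEquiv (algebraMap R _ x) = algebraMap R _ x := e'.commutes x
  rw [h4, ← IsScalarTower.algebraMap_apply, ← IsScalarTower.algebraMap_apply] at h3
  exact h3

/-- Localisation of a ring embedded in `ℂ` away from an integer, with a prime ideal. -/
theorem core {O : Type} [CommRing O] (ι : O →+* ℂ) (hι : Function.Injective ι) (Q : Ideal O)
    (hQ : Q.IsPrime) (N : ℕ) (hN : (N : O) ∉ Q) :
    ∃ (A : Subring ℂ) (P : AddSubgroup ℂ), (∀ a ∈ A, ∀ x ∈ P, a * x ∈ P) ∧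
      (∀ a ∈ A, ∀ b ∈ A, a * b ∈ P → a ∈ P ∨ b ∈ P) ∧
      (∀ (x : ℂ) (k : ℕ) (y : O), (N : ℂ) ^ k * x = ι y → x ∈ A) ∧
      (∀ (x : ℂ) (k : ℕ) (y : O), y ∈ Q → (N : ℂ) ^ k * x = ι y → x ∈ P) ∧ (1 : ℂ) ∉ P := by
  let A : Subring ℂ :=
    { carrier := {x | ∃ (k : ℕ) (y : O), (N : ℂ) ^ k * x = ι y}
      mul_mem' := by
        rintro a b ⟨k, y, h⟩ ⟨k', y', h'⟩
        refine ⟨k + k', y * y', ?_⟩
        rw [map_mul, ← h, ← h']; ring
      one_mem' := ⟨0, 1, by simp⟩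
      add_mem' := by
        rintro a b ⟨k, y, h⟩ ⟨k', y', h'⟩
        refine ⟨k + k', (N : O) ^ k' * y + (N : O) ^ k * y', ?_⟩
        simp only [map_add, map_mul, map_pow, map_natCast]
        rw [← h, ← h']; ring
      zero_mem' := ⟨0, 0, by simp⟩
      neg_mem' := by
        rintro a ⟨k, y, h⟩
        refine ⟨k, -y, ?_⟩
        rw [map_neg, ← h]; ring }
  let P : AddSubgroup ℂ :=
    { carrier := {x | ∃ (k : ℕ) (y : O), y ∈ Q ∧ (N : ℂ) ^ k * x = ι y}
      add_mem' := by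
        rintro a b ⟨k, y, hy, h⟩ ⟨k', y', hy', h'⟩
        refine ⟨k + k', (N : O) ^ k' * y + (N : O) ^ k * y',
          Q.add_mem (Q.mul_mem_left _ hy) (Q.mul_mem_left _ hy'), ?_⟩
        simp only [map_add, map_mul, map_pow, map_natCast]
        rw [← h, ← h']; ring
      zero_mem' := ⟨0, 0, Q.zero_mem, by simp⟩
      neg_mem' := by
        rintro a ⟨k, y, hy, h⟩
        refine ⟨k, -y, Q.neg_mem hy, ?_⟩
        rw [map_neg, ← h]; ring }
  have hNk : ∀ k : ℕ, (N : O) ^ k ∉ Q := fun k h => hN (hQ.mem_of_pow_mem k h)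
  refine ⟨A, P, ?_, ?_, fun x k y h => ⟨k, y, h⟩, fun x k y hy h => ⟨k, y, hy, h⟩, ?_⟩
  · rintro a ⟨k, y, h⟩ b ⟨k', y', hy', h'⟩
    refine ⟨k + k', y * y', Q.mul_mem_left _ hy', ?_⟩
    rw [map_mul, ← h, ← h']; ring
  · rintro a ⟨k, y, h⟩ b ⟨k', y', h'⟩ ⟨m, z, hz, e⟩
    have h1 : (N : O) ^ m * (y * y') = (N : O) ^ (k + k') * z := by
      apply hι
      simp only [map_mul, map_pow, map_natCast]
      rw [← h, ← h', ← e]; ring
    have h2 : (N : O) ^ m * (y * y') ∈ Q := h1 ▸ Q.mul_mem_left _ hz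
    rcases hQ.mem_or_mem ((hQ.mem_or_mem h2).resolve_left (hNk m)) with h3 | h3
    · exact Or.inl ⟨k, y, h3, h⟩
    · exact Or.inr ⟨k', y', h3, h'⟩
  · rintro ⟨k, y, hy, h⟩
    have h1 : (N : O) ^ k = y := by
      apply hι
      simpa using h
    exact hNk k (h1 ▸ hy)

theorem one_mem_of_coprime {R : Type} [CommRing R] {P : Ideal R} {a b : ℕ} (h : a.Coprime b)
    (ha : (a : R) ∈ P) (hb : (b : R) ∈ P) : (1 : R) ∈ P := by
  obtain ⟨u, v, e⟩ := Nat.isCoprime_iff_coprime.2 h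
  have : (1 : R) = u * a + v * b := by
    have := congrArg (Int.cast : ℤ → R) e
    simpa using this.symm
  rw [this]
  exact P.add_mem (P.mul_mem_left _ ha) (P.mul_mem_left _ hb)

/-- A Frobenius element of a Galois number field. -/
theorem exists_frob (K : Type) [Field K] [NumberField K] [IsGalois ℚ K] {p : ℕ} (hp : p.Prime) :
    ∃ (σ : K ≃ₐ[ℚ] K) (Q : Ideal (𝓞 K)), Q.IsPrime ∧ (p : 𝓞 K) ∈ Q ∧
      ∀ x : 𝓞 K, σ • x - x ^ p ∈ Q := by
  have : Fact p.Prime := ⟨hp⟩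
  obtain ⟨P, hP, hPp⟩ := Ideal.exists_ideal_over_maximal_of_isIntegral (S := 𝓞 K)
    (Ideal.span {(p : ℤ)}) (by
      rw [(RingHom.injective_iff_ker_eq_bot _).1 (algebraMap ℤ (𝓞 K)).injective_int]
      exact bot_le)
  have hp' : (p : 𝓞 K) ∈ P := by
    have : (p : ℤ) ∈ P.comap (algebraMap ℤ (𝓞 K)) := hPp ▸ Ideal.mem_span_singleton_self _
    simpa using this
  have hP0 : P ≠ ⊥ := by
    rintro rfl
    exact hp.ne_zero (by simpa using hp')
  have : Finite (𝓞 K ⧸ P) := Ideal.finiteQuotientOfFreeOfNeBot _ hP0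
  obtain ⟨σ, hσ⟩ := IsArithFrobAt.exists_of_isInvariant ℤ (K ≃ₐ[ℚ] K) P
  refine ⟨σ, P, hP.isPrime, hp', fun x => ?_⟩
  have h1 := hσ x
  have h2 : P.under ℤ = Ideal.span {(p : ℤ)} := hPp
  rwa [h2, Int.card_ideal_quot] at h1

/-- A finite set of algebraic numbers lies in a Galois number field. -/
theorem exists_field (S : Set ℂ) (hS : S.Finite) (ha : ∀ x ∈ S, IsAlgebraic ℚ x) :
    ∃ (K : Type) (_ : Field K) (_ : NumberField K) (_ : IsGalois ℚ K) (j : K →+* ℂ),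
      ∀ x ∈ S, ∃ y, j y = x := by
  classical
  let p : Polynomial ℚ := ∏ x ∈ hS.toFinset, minpoly ℚ x
  have hp : p ≠ 0 := Finset.prod_ne_zero_iff.2 fun x hx =>
    minpoly.ne_zero (ha x (hS.mem_toFinset.1 hx)).isIntegral
  let F := IntermediateField.adjoin ℚ (p.rootSet ℂ)
  have h1 : p.IsSplittingField ℚ F :=
    IntermediateField.adjoin_rootSet_isSplittingField (IsAlgClosed.splits _)
  have h2 : FiniteDimensional ℚ F := Polynomial.IsSplittingField.finiteDimensional F p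
  have h3 : Normal ℚ F := Normal.of_isSplittingField p
  have h4 : NumberField F := { to_finiteDimensional := h2 }
  have h5 : IsGalois ℚ F := { }
  refine ⟨F, inferInstance, h4, h5, F.val.toRingHom, fun x hx => ⟨⟨x, ?_⟩, rfl⟩⟩
  apply IntermediateField.subset_adjoin
  rw [Polynomial.mem_rootSet]
  refine ⟨hp, ?_⟩
  simp only [p, map_prod]
  exact Finset.prod_eq_zero (hS.mem_toFinset.2 hx) (minpoly.aeval ℚ x)

/-- A common denominator of a finite set of algebraic numbers. -/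
theorem exists_den (S : Set ℂ) (hS : S.Finite) (ha : ∀ x ∈ S, IsAlgebraic ℚ x) :
    ∃ N : ℕ, N ≠ 0 ∧ ∀ x ∈ S, IsIntegral ℤ ((N : ℂ) * x) := by
  induction S, hS using Set.Finite.induction_on with
  | empty => exact ⟨1, one_ne_zero, by simp⟩
  | @insert a s _ _ ih =>
    obtain ⟨N, hN, h⟩ := ih fun x hx => ha x (Set.mem_insert_of_mem _ hx)
    have h1 : IsAlgebraic ℤ a :=
      (IsFractionRing.isAlgebraic_iff ℤ ℚ ℂ).2 (ha a (Set.mem_insert _ _))
    obtain ⟨y, hy, h2⟩ := h1.exists_integral_multiple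
    refine ⟨y.natAbs * N, Nat.mul_ne_zero (Int.natAbs_ne_zero.2 hy) hN, ?_⟩
    have h3 : ∀ n : ℕ, IsIntegral ℤ (n : ℂ) := fun n => by
      simpa using isIntegral_algebraMap (R := ℤ) (A := ℂ) (x := (n : ℤ))
    rintro x (rfl | hx)
    · have h4 : IsIntegral ℤ ((y.natAbs : ℂ) * x) := by
        rcases Int.natAbs_eq y with e | e
        · rw [e] at h2
          simpa using h2
        · rw [e] at h2
          simpa using h2.neg
      have := (h3 N).mul h4
      rwa [Nat.cast_mul, mul_comm (y.natAbs : ℂ), mul_assoc]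
    · have := (h3 y.natAbs).mul (h x hx)
      rwa [Nat.cast_mul, mul_assoc]

end Frob

open Frob

theorem ext : ExtStmt := by
  intro R _ _ f g hf hg
  exact @exists_equiv R ℂ ℂ _ _ _ f.toAlgebra g.toAlgebra _ _ hf hg Cardinal.mk_le_aleph0
    (by rw [Cardinal.mk_complex]; exact Cardinal.aleph0_lt_continuum) rfl

theorem frob : FrobStmt := by
  intro J hJ ha
  obtain ⟨N, hN0, hN⟩ := exists_den (insert (6 : ℂ)⁻¹ (J ∪ Set.image2 (fun x y => (x - y)⁻¹) J J))
    ((hJ.union (hJ.image2 _ hJ)).insert _) (by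
      rintro x (rfl | hx | ⟨a, h1, b, h2, rfl⟩)
      · exact (isAlgebraic_natCast 6).inv
      · exact ha x hx
      · exact ((ha a h1).sub (ha b h2)).inv)
  refine ⟨N, hN0, fun l hl hlN ζ hζ => ?_⟩
  have hζi : IsIntegral ℤ ζ := IsIntegral.of_pow hl.pos (by rw [hζ]; exact isIntegral_one)
  obtain ⟨K, _, _, _, j, hj⟩ := exists_field (insert ζ J) (hJ.insert _) (by
    rintro x (rfl | hx)
    · exact (hζi.tower_top (A := ℚ)).isAlgebraic
    · exact ha x hx)
  obtain ⟨σ₀, Q, hQ, hlQ, hσ₀⟩ := exists_frob K hl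
  have : Countable K := by
    have : Module.Finite ℚ K := inferInstance
    exact Countable.of_equiv _ (Module.finBasis ℚ K).equivFun.toEquiv.symm
  obtain ⟨σ, hσ⟩ := ext K j (j.comp (σ₀ : K →+* K)) j.injective
    (j.injective.comp σ₀.injective)
  let ι : 𝓞 K →+* ℂ := j.comp (algebraMap (𝓞 K) K)
  have hι : Function.Injective ι := j.injective.comp (RingOfIntegers.coe_injective)
  have hσι : ∀ y, σ (ι y) = ι (σ₀ • y) := fun y => hσ _
  have hNQ : (N : 𝓞 K) ∉ Q := fun h => hQ.ne_top ((Ideal.eq_top_iff_one _).2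
    (one_mem_of_coprime ((Nat.Prime.coprime_iff_not_dvd hl).2 hlN) hlQ h))
  have hint : ∀ z : K, IsIntegral ℤ (j z) → ∃ y, ι y = j z := fun z hz =>
    ⟨⟨z, (isIntegral_algHom_iff j.toIntAlgHom j.injective).1 hz⟩, rfl⟩
  obtain ⟨A, P, h1, h2, h3, h4, h5⟩ := core ι hι Q hQ N hNQ
  have hA : ∀ z : K, IsIntegral ℤ ((N : ℂ) * j z) → ∃ y, (N : ℂ) ^ 1 * j z = ι y := by
    intro z hz
    obtain ⟨y, hy⟩ := hint (N * z) (by simpa using hz)
    exact ⟨y, by rw [hy]; simp⟩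
  have hJA : ∀ x ∈ J, ∃ y, (N : ℂ) ^ 1 * x = ι y := by
    intro x hx
    obtain ⟨z, rfl⟩ := hj x (Set.mem_insert_of_mem _ hx)
    exact hA z (hN _ (Set.mem_insert_of_mem _ (Or.inl hx)))
  obtain ⟨z, hz⟩ : ∃ y, ι y = ζ := by
    obtain ⟨z, rfl⟩ := hj ζ (Set.mem_insert _ _)
    exact hint z hζi
  refine ⟨σ, A, P, h1, h2, fun x hx => ?_, h3 ζ 0 z (by simp [hz]), ?_,
    h4 _ 0 l hlQ (by simp), ?_, fun x hx => ?_, fun x hx y hy hxy => ?_⟩
  · obtain ⟨y, hy⟩ := hJA x hx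
    exact h3 x 1 y hy
  · have e : j 6⁻¹ = 6⁻¹ := by rw [map_inv₀, map_ofNat]
    obtain ⟨y, hy⟩ := hA 6⁻¹ (by rw [e]; exact hN _ (Set.mem_insert _ _))
    exact h3 _ 1 y (by rw [← e]; exact hy)
  · have e1 : z ^ l = 1 := hι (by rw [map_pow, hz, hζ, map_one])
    have e2 := hσ₀ z
    have e3 := hσ₀ (1 - z)
    rw [e1] at e2
    have e4 : (1 - z) ^ l ∈ Q := by
      have := Q.neg_mem (Q.add_mem e2 e3)
      rw [smul_sub, smul_one] at this
      convert this using 1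
      ring
    exact h4 _ 0 (1 - z) (hQ.mem_of_pow_mem l e4) (by simp [hz])
  · obtain ⟨y, hy⟩ := hJA x hx
    have e1 := hσ₀ (N : 𝓞 K)
    have e0 : σ₀ • (N : 𝓞 K) = N := map_natCast (MulSemiringAction.toRingHom _ (𝓞 K) σ₀) N
    rw [e0] at e1
    refine h4 _ (l + 1) ((N : 𝓞 K) ^ l * (σ₀ • y - y ^ l) - ((N : 𝓞 K) - N ^ l) * y ^ l)
      (Q.sub_mem (Q.mul_mem_left _ (hσ₀ y)) (Q.mul_mem_right _ e1)) ?_
    simp only [map_sub, map_mul, map_pow, map_natCast]
    rw [← hσι, ← hy]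
    simp only [map_mul, map_pow, map_natCast]
    ring
  · by_contra hne
    obtain ⟨a, rfl⟩ := hj x (Set.mem_insert_of_mem _ hx)
    obtain ⟨b, rfl⟩ := hj y (Set.mem_insert_of_mem _ hy)
    obtain ⟨w, hw⟩ := hA (a - b)⁻¹ (by
      simpa using hN _ (Set.mem_insert_of_mem _ (Or.inr ⟨_, hx, _, hy, rfl⟩)))
    have e1 := h1 _ (h3 _ 1 w hw) _ hxy
    rw [map_inv₀, map_sub, inv_mul_cancel₀ (sub_ne_zero.2 hne)] at e1
    exact h5 e1

end Pool.Agent.Lib.MP_9177b7_ag.CM
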