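import Pool.Agent.Lib.MP_9177b7_ag.CM.Defs

/-!
Invertible modules over a quadratic order are generated by primes of degree one.
-/

open UpperHalfPlane Pointwise
open scoped MatrixGroups

namespace Pool.Agent.Lib.MP_9177b7_ag.CM

namespace Idl

variable {ω : ℂ} {t n : ℤ}

lemma mem_sp {x y z : ℂ} : z ∈ sp x y ↔ ∃ a b : ℤ, a * x + b * y = z := by
  simp only [sp, Submodule.mem_span_pair, zsmul_eq_mul]

lemma mem_O {z : ℂ} : z ∈ sp 1 ω ↔ ∃ a b : ℤ, a + b * ω = z := by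
  simp only [mem_sp, mul_one]

lemma mem_sm {c z : ℂ} {X : Submodule ℤ ℂ} : z ∈ c • X ↔ ∃ x ∈ X, c * x = z :=
  Submodule.mem_smul_pointwise_iff_exists z c X

lemma sm_mul (c : ℂ) (X Y : Submodule ℤ ℂ) : (c • X) * Y = c • (X * Y) := by
  rw [← Submodule.span_singleton_mul, ← Submodule.span_singleton_mul, mul_assoc]

lemma mul_sm (c : ℂ) (X Y : Submodule ℤ ℂ) : X * (c • Y) = c • (X * Y) := by
  rw [mul_comm, sm_mul, mul_comm]

lemma zmul {X : Submodule ℤ ℂ} {x : ℂ} (a : ℤ) (h : x ∈ X) : (a : ℂ) * x ∈ X := by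
  simpa only [zsmul_eq_mul] using X.smul_mem a h

lemma int_mem (a : ℤ) : (a : ℂ) ∈ sp 1 ω := mem_O.2 ⟨a, 0, by simp⟩

lemma om_mem : ω ∈ sp 1 ω := mem_O.2 ⟨0, 1, by simp⟩

lemma indep (him : ω.im ≠ 0) {a b : ℤ} (h : (a : ℂ) + b * ω = 0) : a = 0 ∧ b = 0 := by
  have h1 := congrArg Complex.im h
  simp only [Complex.add_im, Complex.intCast_im, Complex.mul_im, Complex.intCast_re, zero_mul,
    add_zero, zero_add, Complex.zero_im, mul_eq_zero, him, or_false, Int.cast_eq_zero] at h1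
  subst h1
  exact ⟨by simpa using h, rfl⟩

/-- closed under multiplication by `ω`. -/
def Cl (ω : ℂ) (X : Submodule ℤ ℂ) : Prop := ∀ x ∈ X, ω * x ∈ X

lemma Cl.mul {X : Submodule ℤ ℂ} (h : Cl ω X) {o x : ℂ} (ho : o ∈ sp 1 ω) (hx : x ∈ X) :
    o * x ∈ X := by
  obtain ⟨a, b, rfl⟩ := mem_O.1 ho
  rw [add_mul, mul_assoc]
  exact X.add_mem (zmul a hx) (zmul b (h x hx))

lemma Cl.eq {X : Submodule ℤ ℂ} (h : Cl ω X) : sp 1 ω * X = X :=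
  le_antisymm (Submodule.mul_le.2 fun _ ho _ hx => h.mul ho hx) fun x hx => by
    simpa using Submodule.mul_mem_mul (int_mem (ω := ω) 1) hx

lemma cl_of_eq {X : Submodule ℤ ℂ} (h : sp 1 ω * X = X) : Cl ω X :=
  fun _ hx => h ▸ Submodule.mul_mem_mul om_mem hx

lemma cl_O (hω : ω ^ 2 = t * ω - n) : Cl ω (sp 1 ω) := fun x hx => by
  obtain ⟨a, b, rfl⟩ := mem_O.1 hx
  exact mem_O.2 ⟨-(b * n), a + b * t, by push_cast; linear_combination -b * hω⟩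

lemma Cl.sm {X : Submodule ℤ ℂ} (h : Cl ω X) (c : ℂ) : Cl ω (c • X) := fun x hx => by
  obtain ⟨y, hy, rfl⟩ := mem_sm.1 hx
  exact mem_sm.2 ⟨ω * y, h y hy, by ring⟩

lemma Cl.sup {X Y : Submodule ℤ ℂ} (h : Cl ω X) (h' : Cl ω Y) : Cl ω (X ⊔ Y) := fun x hx => by
  obtain ⟨y, hy, z, hz, rfl⟩ := Submodule.mem_sup.1 hx
  rw [mul_add]
  exact Submodule.add_mem_sup (h y hy) (h' z hz)

lemma Cl.mul_left {X : Submodule ℤ ℂ} (h : Cl ω X) (Y : Submodule ℤ ℂ) : Cl ω (Y * X) :=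
  cl_of_eq (by rw [mul_left_comm, h.eq])

/-- the modules between `l O` and `O`. -/
lemma between (hω : ω ^ 2 = t * ω - n) {l : ℕ} (hl : l.Prime) {X : Submodule ℤ ℂ} (hc : Cl ω X)
    (hX : X ≤ sp 1 ω) (hm : (l : ℂ) ∈ X) (h1 : (1 : ℂ) ∉ X) :
    X ≤ (l : ℂ) • sp 1 ω ∨ ∃ r : ℤ, (l : ℤ) ∣ r ^ 2 - t * r + n ∧ X ≤ sp l (ω - r) := by
  have hp : Prime (l : ℤ) := Nat.prime_iff_prime_int.1 hl
  have key : ∀ c : ℤ, (c : ℂ) ∈ X → (l : ℤ) ∣ c := fun c h => by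
    by_contra e
    obtain ⟨a, b, hab⟩ := (hp.coprime_iff_not_dvd).2 e
    refine h1 ?_
    have := X.add_mem (zmul a hm) (zmul b h)
    rwa [show (a : ℂ) * l + b * c = 1 by exact_mod_cast hab] at this
  by_cases hs : X ≤ (l : ℂ) • sp 1 ω
  · exact Or.inl hs
  obtain ⟨z, hz, hz'⟩ := SetLike.not_le_iff_exists.1 hs
  obtain ⟨u, v, rfl⟩ := mem_O.1 (hX hz)
  have hlw : (l : ℂ) * ω ∈ X := mul_comm ω (l : ℂ) ▸ hc _ hm
  have hv : ¬ (l : ℤ) ∣ v := by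
    rintro ⟨k, rfl⟩
    have : (u : ℂ) ∈ X := by
      have := X.sub_mem hz (zmul k hlw)
      rwa [show (u : ℂ) + ((l : ℤ) * k : ℤ) * ω - k * (l * ω) = u by push_cast; ring] at this
    obtain ⟨j, rfl⟩ := key u this
    exact hz' (mem_sm.2 ⟨j + k * ω, mem_O.2 ⟨j, k, rfl⟩, by push_cast; ring⟩)
  obtain ⟨a, b, hab⟩ := (hp.coprime_iff_not_dvd).2 hv
  have hab' : (a : ℂ) * l + b * v = 1 := by exact_mod_cast hab
  have hr : ω - ((-(b * u) : ℤ) : ℂ) ∈ X := by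
    have := X.add_mem (zmul a hlw) (zmul b hz)
    rwa [show (a : ℂ) * (l * ω) + b * (u + v * ω) = ω - ((-(b * u) : ℤ) : ℂ) by
      push_cast; linear_combination ω * hab'] at this
  generalize -(b * u) = r at hr
  refine Or.inr ⟨r, key _ ?_, fun x hx => ?_⟩
  · have := X.sub_mem (zmul (t - r) hr) (hc _ hr)
    rwa [show ((t - r : ℤ) : ℂ) * (ω - r) - ω * (ω - r) = ((r ^ 2 - t * r + n : ℤ) : ℂ) by
      push_cast; linear_combination -hω] at this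
  · obtain ⟨c, d, rfl⟩ := mem_O.1 (hX hx)
    have := X.sub_mem hx (zmul d hr)
    rw [show (c : ℂ) + d * ω - d * (ω - r) = ((c + d * r : ℤ) : ℂ) by push_cast; ring] at this
    obtain ⟨k, hk⟩ := key _ this
    have hk' : (c : ℂ) + d * r = l * k := by exact_mod_cast hk
    exact mem_sp.2 ⟨k, d, by linear_combination -hk'⟩

/-- `X` is prime to `N`. -/
def Cop (ω : ℂ) (X : Submodule ℤ ℂ) (N : ℕ) : Prop := ∃ x ∈ X, ∃ o ∈ sp 1 ω, x + N * o = 1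

lemma Cop.mul (hω : ω ^ 2 = t * ω - n) {X : Submodule ℤ ℂ} (hc : Cl ω X) {a b : ℕ}
    (h : Cop ω X a) (h' : Cop ω X b) : Cop ω X (a * b) := by
  obtain ⟨x, hx, o, ho, e⟩ := h
  obtain ⟨y, hy, o', ho', e'⟩ := h'
  refine ⟨x + (a : ℤ) * (o * y), X.add_mem hx (zmul a (hc.mul ho hy)), o * o',
    (cl_O hω).mul ho ho', ?_⟩
  push_cast
  linear_combination e + a * o * e'

lemma Cop.dvd {X : Submodule ℤ ℂ} {a b : ℕ} (h : Cop ω X b) (hab : a ∣ b) : Cop ω X a := by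
  obtain ⟨x, hx, o, ho, e⟩ := h
  obtain ⟨k, rfl⟩ := hab
  exact ⟨x, hx, (k : ℤ) * o, zmul k ho, by push_cast at e ⊢; linear_combination e⟩

lemma Cop.mono {X Y : Submodule ℤ ℂ} {a : ℕ} (h : Cop ω X a) (hXY : X ≤ Y) : Cop ω Y a := by
  obtain ⟨x, hx, o, ho, e⟩ := h
  exact ⟨x, hXY hx, o, ho, e⟩

lemma cop_one (X : Submodule ℤ ℂ) : Cop ω X 1 := ⟨0, X.zero_mem, (1 : ℤ), int_mem 1, by simp⟩

lemma cop_of_primes (hω : ω ^ 2 = t * ω - n) {X : Submodule ℤ ℂ} (hc : Cl ω X) {N : ℕ}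
    (hN : N ≠ 0) (h : ∀ l : ℕ, l.Prime → l ∣ N → Cop ω X l) : Cop ω X N := by
  induction N using induction_on_primes with
  | zero => exact absurd rfl hN
  | one => exact cop_one X
  | prime_mul p a hp ih =>
    exact (h p hp (dvd_mul_right p a)).mul hω hc
      (ih (right_ne_zero_of_mul hN) fun l hl hd => h l hl (hd.mul_left p))

lemma not_cop (hω : ω ^ 2 = t * ω - n) {l : ℕ} (hl : l.Prime) {X : Submodule ℤ ℂ} (hc : Cl ω X)
    (hX : X ≤ sp 1 ω) (h : ¬ Cop ω X l) :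
    X ≤ (l : ℂ) • sp 1 ω ∨ ∃ r : ℤ, (l : ℤ) ∣ r ^ 2 - t * r + n ∧ X ≤ sp l (ω - r) := by
  have := between hω hl (hc.sup ((cl_O hω).sm l)) (sup_le hX fun x hx => by
      obtain ⟨y, hy, rfl⟩ := mem_sm.1 hx
      exact_mod_cast zmul (l : ℤ) hy)
    (Submodule.mem_sup_right (mem_sm.2 ⟨(1 : ℤ), int_mem 1, by simp⟩)) fun h1 => by
      obtain ⟨x, hx, z, hz, e⟩ := Submodule.mem_sup.1 h1
      obtain ⟨o, ho, rfl⟩ := mem_sm.1 hz
      exact h ⟨x, hx, o, ho, e⟩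
  exact this.imp le_sup_left.trans fun ⟨r, a, b⟩ => ⟨r, a, le_sup_left.trans b⟩

lemma one_not_mem (him : ω.im ≠ 0) {l : ℕ} (hl : l ≠ 1) (r : ℤ) : (1 : ℂ) ∉ sp l (ω - r) := by
  intro h
  obtain ⟨a, b, e⟩ := mem_sp.1 h
  obtain ⟨h1, h2⟩ := indep him (a := a * l - b * r - 1) (b := b)
    (by push_cast; linear_combination e)
  rw [h2, zero_mul, sub_zero, sub_eq_zero, mul_comm] at h1
  exact hl (by exact_mod_cast Int.eq_one_of_mul_eq_one_right (by positivity) h1)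

lemma sm_le_sp (l : ℕ) (r : ℤ) : (l : ℂ) • sp 1 ω ≤ sp l (ω - r) := fun x hx => by
  obtain ⟨y, hy, rfl⟩ := mem_sm.1 hx
  obtain ⟨a, b, rfl⟩ := mem_O.1 hy
  exact mem_sp.2 ⟨a + b * r, b * l, by push_cast; ring⟩

lemma sp_le_sp {l : ℕ} {r s : ℤ} (h : (l : ℤ) ∣ r - s) : sp l (ω - s) ≤ sp l (ω - r) :=
  fun x hx => by
    obtain ⟨a, b, rfl⟩ := mem_sp.1 hx
    obtain ⟨k, hk⟩ := h
    have hk' : (r : ℂ) - s = l * k := by exact_mod_cast hk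
    exact mem_sp.2 ⟨a + b * k, b, by push_cast; linear_combination -b * hk'⟩

lemma two_sub {A B P P' : Submodule ℤ ℂ} (h1 : (1 : ℂ) ∈ A * B) (hP : (1 : ℂ) ∉ P)
    (hP' : (1 : ℂ) ∉ P') (h : ∀ x ∈ B, x • A ≤ P ∨ x • A ≤ P') : False := by
  have k : ∀ Q : Submodule ℤ ℂ, (1 : ℂ) ∉ Q → ∃ x ∈ B, ∃ a ∈ A, x * a ∉ Q := fun Q hQ => by
    by_contra! e
    exact hQ (Submodule.mul_le.2 (fun a ha x hx => mul_comm x a ▸ e x hx a ha) h1)
  obtain ⟨x, hx, a, ha, e⟩ := k P hP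
  obtain ⟨y, hy, b, hb, e'⟩ := k P' hP'
  have m : ∀ (c : ℂ) {z : ℂ}, z ∈ A → c * z ∈ c • A := fun c z hz => mem_sm.2 ⟨z, hz, rfl⟩
  have i1 := (h x hx).resolve_left fun q => e (q (m x ha))
  have i2 := (h y hy).resolve_right fun q => e' (q (m y hb))
  rcases h (x + y) (B.add_mem hx hy) with q | q
  · exact e (by simpa [add_mul] using P.sub_mem (q (m _ ha)) (i2 (m y ha)))
  · exact e' (by simpa [add_mul] using P'.sub_mem (q (m _ hb)) (i1 (m x hb)))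

lemma scale_prime (hω : ω ^ 2 = t * ω - n) (him : ω.im ≠ 0) {A B : Submodule ℤ ℂ}
    (hAB : A * B = sp 1 ω) (hc : Cl ω A) {l : ℕ} (hl : l.Prime) : ∃ x ∈ B, Cop ω (x • A) l := by
  by_contra! e
  have hp : Prime (l : ℤ) := Nat.prime_iff_prime_int.1 hl
  have h1 : (1 : ℂ) ∈ A * B := by simpa [hAB] using int_mem (ω := ω) 1
  have k : ∀ x ∈ B, x • A ≤ (l : ℂ) • sp 1 ω ∨
      ∃ r : ℤ, (l : ℤ) ∣ r ^ 2 - t * r + n ∧ x • A ≤ sp l (ω - r) := fun x hx =>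
    not_cop hω hl (hc.sm x) (fun z hz => by
      obtain ⟨a, ha, rfl⟩ := mem_sm.1 hz
      exact hAB ▸ Submodule.mul_mem_mul_rev ha hx) (e x hx)
  by_cases hr : ∃ r : ℤ, (l : ℤ) ∣ r ^ 2 - t * r + n
  · obtain ⟨r, hr⟩ := hr
    refine two_sub h1 (one_not_mem him hl.ne_one r) (one_not_mem him hl.ne_one (t - r))
      fun x hx => ?_
    rcases k x hx with q | ⟨s, hs, q⟩
    · exact Or.inl (q.trans (sm_le_sp l r))
    · have : (l : ℤ) ∣ (r - s) * (t - r - s) := by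
        have := hs.sub hr
        rwa [show s ^ 2 - t * s + n - (r ^ 2 - t * r + n) = (r - s) * (t - r - s) by ring] at this
      exact (hp.dvd_or_dvd this).imp (fun d => q.trans (sp_le_sp d)) fun d => q.trans (sp_le_sp d)
  · refine two_sub h1 (one_not_mem him hl.ne_one 0) (one_not_mem him hl.ne_one 0) fun x hx => ?_
    rcases k x hx with q | ⟨s, hs, -⟩
    · exact Or.inl (q.trans (sm_le_sp l 0))
    · exact absurd ⟨s, hs⟩ hr

lemma cop_comb {A B : Submodule ℤ ℂ} (hAB : A * B = sp 1 ω) {x y : ℂ} (hy : y ∈ B) {a b : ℕ}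
    (hab : a.Coprime b) (h : Cop ω (x • A) a) : Cop ω (((b : ℂ) * x + a * y) • A) a := by
  obtain ⟨z, hz, o, ho, e⟩ := h
  obtain ⟨w, hw, rfl⟩ := mem_sm.1 hz
  obtain ⟨u, v, huv⟩ := Nat.isCoprime_iff_coprime.2 hab
  have huv' : (u : ℂ) * a + v * b = 1 := by exact_mod_cast huv
  have hyw : y * w ∈ sp 1 ω := hAB ▸ Submodule.mul_mem_mul_rev hw hy
  refine ⟨_, mem_sm.2 ⟨v * w, zmul v hw, rfl⟩, u + (v * b : ℤ) * o - v * (y * w),
    (sp 1 ω).sub_mem ((sp 1 ω).add_mem (int_mem u) (zmul _ ho)) (zmul v hyw), ?_⟩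
  push_cast
  linear_combination huv' + v * b * e

lemma scale (hω : ω ^ 2 = t * ω - n) (him : ω.im ≠ 0) {A B : Submodule ℤ ℂ}
    (hAB : A * B = sp 1 ω) (hc : Cl ω A) (N : ℕ) : N ≠ 0 → ∃ x ∈ B, Cop ω (x • A) N := by
  induction N using Nat.recOnPosPrimePosCoprime with
  | zero => exact fun h => absurd rfl h
  | one => exact fun _ => ⟨0, B.zero_mem, cop_one _⟩
  | prime_pow p k hp hk =>
    obtain ⟨x, hx, h⟩ := scale_prime hω him hAB hc hp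
    exact fun hN => ⟨x, hx, cop_of_primes hω (hc.sm x) hN fun l hl hd =>
      h.dvd (hl.dvd_of_dvd_pow hd)⟩
  | coprime a b ha hb hab iha ihb =>
    obtain ⟨x, hx, h⟩ := iha (by omega)
    obtain ⟨y, hy, h'⟩ := ihb (by omega)
    refine fun _ => ⟨b * x + a * y, B.add_mem (by exact_mod_cast zmul (b : ℤ) hx)
      (by exact_mod_cast zmul (a : ℤ) hy), (cop_comb hAB hy hab h).mul hω (hc.sm _) ?_⟩
    rw [add_comm]
    exact cop_comb hAB hx hab.symm h'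

lemma not_dvd_diff {l : ℕ} (hd : ¬ (l : ℤ) ∣ t ^ 2 - 4 * n) {r : ℤ}
    (hr : (l : ℤ) ∣ r ^ 2 - t * r + n) : ¬ (l : ℤ) ∣ t - 2 * r := fun h => hd (by
  have := (h.mul_right (t - 2 * r)).sub (hr.mul_left 4)
  rwa [show (t - 2 * r) * (t - 2 * r) - 4 * (r ^ 2 - t * r + n) = t ^ 2 - 4 * n by ring] at this)

lemma prime_mul_conj (hω : ω ^ 2 = t * ω - n) {l : ℕ} (hl : l.Prime)
    (hd : ¬ (l : ℤ) ∣ t ^ 2 - 4 * n) {r : ℤ} (hr : (l : ℤ) ∣ r ^ 2 - t * r + n) :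
    sp l (ω - r) * sp l (ω - (t - r : ℤ)) = (l : ℂ) • sp 1 ω := by
  have hp : Prime (l : ℤ) := Nat.prime_iff_prime_int.1 hl
  refine le_antisymm (Submodule.mul_le.2 fun x hx y hy => ?_) fun z hz => ?_
  · obtain ⟨a, b, rfl⟩ := mem_sp.1 hx
    obtain ⟨c, d, rfl⟩ := mem_sp.1 hy
    obtain ⟨k, hk⟩ := hr
    have hk' : (r : ℂ) ^ 2 - t * r + n = l * k := by exact_mod_cast hk
    refine mem_sm.2 ⟨_, mem_O.2 ⟨a * c * l - a * d * (t - r) - b * c * r - b * d * k,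
      a * d + b * c, rfl⟩, ?_⟩
    push_cast
    linear_combination -b * d * hω + b * d * hk'
  · obtain ⟨y, hy, rfl⟩ := mem_sm.1 hz
    obtain ⟨a, b, rfl⟩ := mem_O.1 hy
    obtain ⟨u, v, huv⟩ := (hp.coprime_iff_not_dvd).2 (not_dvd_diff hd hr)
    have huv' : (u : ℂ) * l + v * (t - 2 * r) = 1 := by exact_mod_cast huv
    have m1 : ∀ s : ℂ, (l : ℂ) ∈ sp l s := fun s => mem_sp.2 ⟨1, 0, by simp⟩
    have m2 : ∀ s : ℂ, s ∈ sp l s := fun s => mem_sp.2 ⟨0, 1, by simp⟩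
    have k1 := Submodule.mul_mem_mul (m1 (ω - r)) (m1 (ω - (t - r : ℤ)))
    have k2 := Submodule.mul_mem_mul (m2 (ω - r)) (m1 (ω - (t - r : ℤ)))
    have k3 := Submodule.mul_mem_mul (m1 (ω - r)) (m2 (ω - (t - r : ℤ)))
    have := Submodule.add_mem _ (zmul (a + b * r) (Submodule.add_mem _ (zmul u k1)
      (zmul v (Submodule.sub_mem _ k2 k3)))) (zmul b k2)
    rwa [show ((a + b * r : ℤ) : ℂ) * (u * (l * l) + v * ((ω - r) * l - l * (ω - (t - r : ℤ)))) +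
      b * ((ω - r) * l) = l * (a + b * ω) by
        push_cast; linear_combination (a + b * r) * l * huv'] at this

lemma descent (hω : ω ^ 2 = t * ω - n) {M : ℕ} {H : Submodule ℤ ℂ → Prop} (h0 : H (sp 1 ω))
    (h1 : ∀ A B, H A → H B → H (A * B)) (h2 : ∀ (c : ℂ) A, c ≠ 0 → H A → H (c • A))
    (h3 : ∀ (l : ℕ) (r : ℤ), l.Prime → ¬ l ∣ M → (l : ℤ) ∣ r ^ 2 - t * r + n → H (sp l (ω - r)))
    (hM : t ^ 2 - 4 * n ∣ (M : ℤ)) (him : ω.im ≠ 0) (N : ℕ) : N ≠ 0 → ∀ A B : Submodule ℤ ℂ,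
      A * B = sp 1 ω → Cl ω A → A ≤ sp 1 ω → Cop ω A M → (N : ℂ) ∈ A → H A := by
  induction N using Nat.strong_induction_on with
  | _ N ih =>
  intro hN A B hAB hc hA hcop hm
  by_cases e : ∀ l : ℕ, l.Prime → l ∣ N → Cop ω A l
  · obtain ⟨x, hx, o, ho, e1⟩ := cop_of_primes hω hc hN e
    have : (1 : ℂ) ∈ A := e1 ▸ A.add_mem hx (mul_comm o (N : ℂ) ▸ hc.mul ho hm)
    rw [le_antisymm hA fun z hz => by simpa using hc.mul hz this]
    exact h0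
  push Not at e
  obtain ⟨l, hl, ⟨K, rfl⟩, hn⟩ := e
  have hp : Prime (l : ℤ) := Nat.prime_iff_prime_int.1 hl
  have l0 : (l : ℂ) ≠ 0 := by exact_mod_cast hl.ne_zero
  have hK : K ≠ 0 := right_ne_zero_of_mul hN
  have hlt : K < l * K := lt_mul_of_one_lt_left (Nat.pos_of_ne_zero hK) hl.one_lt
  have hlM : ¬ l ∣ M := fun d => hn (hcop.dvd d)
  have hd : ¬ (l : ℤ) ∣ t ^ 2 - 4 * n := fun d => hlM (by exact_mod_cast d.trans hM)
  have inv : ∀ X : Submodule ℤ ℂ, X ≤ (l : ℂ) • sp 1 ω → (l : ℂ)⁻¹ • X ≤ sp 1 ω := fun X hX z hz => by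
    obtain ⟨x, hx, rfl⟩ := mem_sm.1 hz
    obtain ⟨o, ho, rfl⟩ := mem_sm.1 (hX hx)
    rwa [inv_mul_cancel_left₀ l0]
  by_cases hs : A ≤ (l : ℂ) • sp 1 ω
  · have := ih K hlt hK ((l : ℂ)⁻¹ • A) ((l : ℂ) • B)
      (by rw [sm_mul, mul_sm, smul_smul, inv_mul_cancel₀ l0, one_smul, hAB]) (hc.sm _) (inv A hs)
      (hcop.mono fun x hx => mem_sm.2 ⟨l * x, by exact_mod_cast zmul (l : ℤ) hx,
        inv_mul_cancel_left₀ l0 x⟩)
      (mem_sm.2 ⟨_, hm, by push_cast; exact inv_mul_cancel_left₀ l0 _⟩)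
    have := h2 l _ l0 this
    rwa [smul_smul, mul_inv_cancel₀ l0, one_smul] at this
  obtain ⟨r, hr, hAr⟩ := (not_cop hω hl hc hA hn).resolve_left hs
  have pp := prime_mul_conj hω hl hd hr
  have back : sp l (ω - r) * ((l : ℂ)⁻¹ • (sp l (ω - (t - r : ℤ)) * A)) = A := by
    rw [mul_sm, ← mul_assoc, pp, sm_mul, smul_smul, inv_mul_cancel₀ l0, one_smul, hc.eq]
  have mem : ∀ x ∈ sp (l : ℂ) (ω - (t - r : ℤ)), ∀ a ∈ A,
      (l : ℂ)⁻¹ * (x * a) ∈ (l : ℂ)⁻¹ • (sp l (ω - (t - r : ℤ)) * A) :=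
    fun x hx a ha => mem_sm.2 ⟨_, Submodule.mul_mem_mul hx ha, rfl⟩
  have le : A ≤ (l : ℂ)⁻¹ • (sp l (ω - (t - r : ℤ)) * A) := fun a ha => by
    have := mem l (mem_sp.2 ⟨1, 0, by simp⟩) a ha
    rwa [inv_mul_cancel_left₀ l0] at this
  rw [← back]
  refine h1 _ _ (h3 l r hl hlM hr) (ih K hlt hK _ (sp l (ω - r) * B)
    (by rw [← mul_assoc, mul_comm _ (sp (l : ℂ) (ω - r)), back, hAB]) ((hc.mul_left _).sm _)
    (inv _ ?_) (hcop.mono le) ?_)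
  · rw [← pp, mul_comm]
    exact Submodule.mul_le.2 fun a ha b hb => Submodule.mul_mem_mul (hAr ha) hb
  · obtain ⟨z, hz, hz'⟩ := SetLike.not_le_iff_exists.1 hs
    obtain ⟨u, v, rfl⟩ := mem_sp.1 (hAr hz)
    have hv : ¬ (l : ℤ) ∣ v := by
      rintro ⟨k, rfl⟩
      exact hz' (mem_sm.2 ⟨_, mem_O.2 ⟨u - k * r, k, rfl⟩, by push_cast; ring⟩)
    obtain ⟨a, b, hab⟩ := (hp.coprime_iff_not_dvd).2
      (fun d => (hp.dvd_or_dvd d).elim hv (not_dvd_diff hd hr))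
    have hab' : (a : ℂ) * l + b * (v * (t - 2 * r)) = 1 := by exact_mod_cast hab
    have k1 := le hm
    have k2 := mem (ω - (t - r : ℤ)) (mem_sp.2 ⟨0, 1, by simp⟩) _ hm
    rw [show (l : ℂ)⁻¹ * ((ω - (t - r : ℤ)) * ((l * K : ℕ) : ℂ)) = K * (ω - (t - r : ℤ)) by
      push_cast; field_simp] at k2
    have := Submodule.add_mem _ (zmul (a - b * u) k1) (zmul b (Submodule.sub_mem _
      (zmul (K : ℤ) (le hz)) (zmul v k2)))
    rwa [show ((a - b * u : ℤ) : ℂ) * ((l * K : ℕ) : ℂ) + b * (((K : ℤ) : ℂ) * (u * l + v * (ω - r)) -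
      v * (K * (ω - (t - r : ℤ)))) = K by push_cast; linear_combination K * hab'] at this

lemma exists_nat (hω : ω ^ 2 = t * ω - n) (him : ω.im ≠ 0) {X : Submodule ℤ ℂ} (hc : Cl ω X)
    (hX : X ≤ sp 1 ω) {z : ℂ} (hz : z ∈ X) (z0 : z ≠ 0) : ∃ N : ℕ, N ≠ 0 ∧ (N : ℂ) ∈ X := by
  obtain ⟨u, v, rfl⟩ := mem_O.1 (hX hz)
  obtain ⟨c, hc'⟩ : ∃ c : ℤ, c = u ^ 2 + t * u * v + n * v ^ 2 := ⟨_, rfl⟩
  have nm : (c : ℂ) = (((u + v * t : ℤ) : ℂ) + ((-v : ℤ) : ℂ) * ω) * (u + v * ω) := by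
    rw [hc']; push_cast; linear_combination v ^ 2 * hω
  have n0 : c ≠ 0 := fun e => by
    rw [e, Int.cast_zero, eq_comm, mul_eq_zero, or_iff_left z0] at nm
    obtain ⟨a, b⟩ := indep him nm
    rw [neg_eq_zero] at b
    subst b
    exact z0 (by simpa using a)
  have hm : (c : ℂ) ∈ X := by
    rw [nm]; exact hc.mul (mem_O.2 ⟨_, _, rfl⟩) hz
  refine ⟨c.natAbs * c.natAbs, mul_ne_zero (Int.natAbs_ne_zero.2 n0) (Int.natAbs_ne_zero.2 n0), ?_⟩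
  have e : ((c.natAbs * c.natAbs : ℕ) : ℂ) = (c : ℂ) * c := by
    rw [← Int.cast_natCast, Int.natAbs_mul_self, Int.cast_mul]
  rw [e]
  exact zmul c hm

lemma disc_ne (hω : ω ^ 2 = t * ω - n) (him : ω.im ≠ 0) : t ^ 2 - 4 * n ≠ 0 := fun e => by
  have e' : (t : ℂ) ^ 2 - 4 * n = 0 := by exact_mod_cast e
  have h : (-t + 2 * ω) ^ 2 = 0 := by linear_combination e' + 4 * hω
  have := indep him (a := -t) (b := 2) (by push_cast; exact (pow_eq_zero_iff two_ne_zero).1 h)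
  omega

end Idl

open Idl in
theorem ideal : IdealStmt := by
  intro ω t n hω him M hM H h0 h1 h2 h3 A B hAB hA
  have hc := cl_of_eq hA
  obtain ⟨D, D0, hD⟩ : ∃ D : ℕ, D ≠ 0 ∧ t ^ 2 - 4 * n ∣ (D : ℤ) :=
    ⟨_, Int.natAbs_ne_zero.2 (disc_ne hω him), Int.dvd_natAbs.2 dvd_rfl⟩
  obtain ⟨x, hx, hcop⟩ := scale hω him hAB hc (2 * M * D)
    (mul_ne_zero (mul_ne_zero two_ne_zero hM) D0)
  have hle : x • A ≤ sp 1 ω := fun z hz => by
    obtain ⟨a, ha, rfl⟩ := mem_sm.1 hz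
    exact hAB ▸ Submodule.mul_mem_mul_rev ha hx
  obtain ⟨z, hz, o, ho, e⟩ := hcop.dvd ((dvd_mul_right 2 M).mul_right _)
  have z0 : z ≠ 0 := by
    rintro rfl
    obtain ⟨a, b, rfl⟩ := mem_O.1 ho
    have := indep him (a := 2 * a - 1) (b := 2 * b) (by push_cast at e ⊢; linear_combination e)
    omega
  have x0 : x ≠ 0 := by
    rintro rfl
    obtain ⟨a, -, e⟩ := mem_sm.1 hz
    exact z0 (by rw [← e, zero_mul])
  obtain ⟨N, N0, hN⟩ := exists_nat hω him (hc.sm x) hle hz z0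
  have := descent hω h0 h1 h2 (M := 2 * M * D)
    (fun l r hl hd => h3 l r hl fun d => hd ((d.mul_left 2).mul_right _))
    (by push_cast; exact hD.mul_left _) him N N0 (x • A) (x⁻¹ • B)
    (by rw [sm_mul, mul_sm, smul_smul, mul_inv_cancel₀ x0, one_smul, hAB]) (hc.sm x) hle hcop hN
  have := h2 x⁻¹ _ (inv_ne_zero x0) this
  rwa [smul_smul, inv_mul_cancel₀ x0, one_smul] at this

end Pool.Agent.Lib.MP_9177b7_ag.CM
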