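import Pool.Agent.Lib.MP_9177b7_ag.CM.Defs

/-!
The `q`-expansion principle in level one and Kronecker's congruence.
-/

open UpperHalfPlane Pointwise PowerSeries
open scoped MatrixGroups

noncomputable section

namespace Pool.Agent.Lib.MP_9177b7_ag.CM

namespace Kron

/-- The integral `q`-series of `E₄`. -/
def e4 : PowerSeries ℤ :=
  PowerSeries.mk fun m => if m = 0 then 1 else 240 * (ArithmeticFunction.sigma 3 m : ℤ)

/-- The integral `q`-series of `E₆`. -/
def e6 : PowerSeries ℤ :=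
  PowerSeries.mk fun m => if m = 0 then 1 else -504 * (ArithmeticFunction.sigma 5 m : ℤ)

lemma map_e4 : PowerSeries.map (Int.castRingHom ℂ) e4 = qExpansion 1 ModularForm.E₄ := by
  ext m
  rw [EisensteinSeries.E_qExpansion_coeff _ ⟨2, rfl⟩, coeff_map, e4, coeff_mk,
    show bernoulli 4 = -1 / 30 by decide +kernel]
  split_ifs with h
  · simp
  · simp only [eq_intCast]
    push_cast
    norm_num

lemma map_e6 : PowerSeries.map (Int.castRingHom ℂ) e6 = qExpansion 1 ModularForm.E₆ := by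
  ext m
  rw [EisensteinSeries.E_qExpansion_coeff _ ⟨3, rfl⟩, coeff_map, e6, coeff_mk,
    show bernoulli 6 = 1 / 42 by decide +kernel]
  split_ifs with h
  · simp
  · simp only [eq_intCast]
    push_cast
    norm_num

/-- The discriminant as a modular form. -/
def DD : ModularForm 𝒮ℒ 12 := CuspForm.toModularFormₗ CuspForm.discriminant

/-- The cube of `E₄`. -/
def FF : ModularForm 𝒮ℒ 12 := ModularForm.mcast (by decide) (ModularForm.E₄.pow 3)

/-- The square of `E₆`. -/
def SS : ModularForm 𝒮ℒ 12 := ModularForm.mcast (by decide) (ModularForm.E₆.pow 2)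

lemma coe_DD : (DD : ℍ → ℂ) = ModularForm.discriminant := rfl

lemma DD_apply (τ : ℍ) : DD τ = ModularForm.discriminant τ := rfl

lemma FF_apply (τ : ℍ) : FF τ = ModularForm.E₄ τ ^ 3 := by
  simp only [FF, ModularForm.coe_mcast, ModularForm.coe_pow, Pi.pow_apply]

lemma SS_apply (τ : ℍ) : SS τ = ModularForm.E₆ τ ^ 2 := by
  simp only [SS, ModularForm.coe_mcast, ModularForm.coe_pow, Pi.pow_apply]

lemma q_sub {k : ℤ} (f g : ModularForm 𝒮ℒ k) :
    qExpansion 1 (f - g : ModularForm 𝒮ℒ k) = qExpansion 1 f - qExpansion 1 g :=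
  ModularForm.qExpansion_sub one_pos one_mem_strictPeriods_SL f g

lemma q_smul {k : ℤ} (c : ℂ) (f : ModularForm 𝒮ℒ k) :
    qExpansion 1 (c • f : ModularForm 𝒮ℒ k) = C c * qExpansion 1 f := by
  rw [← smul_eq_C_mul]
  exact ModularForm.qExpansion_smul one_pos one_mem_strictPeriods_SL c f

lemma q_pow {k : ℤ} (f : ModularForm 𝒮ℒ k) (n : ℕ) :
    qExpansion 1 (f.pow n) = qExpansion 1 f ^ n :=
  ModularForm.qExpansion_pow one_pos one_mem_strictPeriods_SL f n

lemma q_mul {a b : ℤ} (f : ModularForm 𝒮ℒ a) (g : ModularForm 𝒮ℒ b) :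
    qExpansion 1 (f.mul g) = qExpansion 1 f * qExpansion 1 g :=
  ModularForm.qExpansion_mul one_pos one_mem_strictPeriods_SL f g

lemma q_FF : qExpansion 1 FF = PowerSeries.map (Int.castRingHom ℂ) (e4 ^ 3) := by
  rw [map_pow, map_e4, ← q_pow]
  rfl

lemma q_SS : qExpansion 1 SS = PowerSeries.map (Int.castRingHom ℂ) (e6 ^ 2) := by
  rw [map_pow, map_e6, ← q_pow]
  rfl

lemma DD_eq : DD = (1728 : ℂ)⁻¹ • (FF - SS) := by
  ext τ
  change DD τ = (1728 : ℂ)⁻¹ * (FF τ - SS τ)
  rw [DD_apply, FF_apply, SS_apply, ModularForm.discriminant_eq_E₄_cube_sub_E₆_sq]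
  ring

lemma q_DD : qExpansion 1 DD =
    C (1728 : ℂ)⁻¹ * PowerSeries.map (Int.castRingHom ℂ) (e4 ^ 3 - e6 ^ 2) := by
  rw [DD_eq, q_smul, q_sub, q_FF, q_SS, map_sub]

lemma inv_mem {A : Subring ℂ} (h6 : (6 : ℂ)⁻¹ ∈ A) : (1728 : ℂ)⁻¹ ∈ A := by
  have : (1728 : ℂ)⁻¹ = ((27 : ℕ) : ℂ) * (6 : ℂ)⁻¹ ^ 6 := by norm_num
  rw [this]
  exact A.mul_mem (natCast_mem A 27) (A.pow_mem h6 6)

lemma coeff_int_mem (A : Subring ℂ) (e : PowerSeries ℤ) (n : ℕ) :
    coeff n (PowerSeries.map (Int.castRingHom ℂ) e) ∈ A := by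
  rw [coeff_map]
  exact intCast_mem A _

lemma coeff_DD_mem {A : Subring ℂ} (h6 : (6 : ℂ)⁻¹ ∈ A) (n : ℕ) :
    coeff n (qExpansion 1 DD) ∈ A := by
  rw [q_DD, coeff_C_mul]
  exact A.mul_mem (inv_mem h6) (coeff_int_mem A _ n)

lemma coeff_zero_DD : coeff 0 (qExpansion 1 DD) = 0 :=
  CuspFormClass.qExpansion_coeff_zero CuspForm.discriminant one_pos one_mem_strictPeriods_SL

lemma coeff_one_DD : coeff 1 (qExpansion 1 DD) = 1 :=
  ModularForm.discriminant_qExpansion_coeff_one

lemma coeff_zero_FF : constantCoeff (qExpansion 1 FF) = 1 := by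
  have h : qExpansion 1 FF = qExpansion 1 ModularForm.E₄ ^ 3 := by
    rw [← q_pow]
    rfl
  rw [h, map_pow, ← coeff_zero_eq_constantCoeff_apply,
    EisensteinSeries.E_qExpansion_coeff_zero _ ⟨2, rfl⟩, one_pow]

/-- Division by a series `q + ...` with coefficients in `A` preserves `P`. -/
lemma div_mem {A : Subring ℂ} {P : AddSubgroup ℂ} (hP : ∀ a ∈ A, ∀ x ∈ P, a * x ∈ P)
    {D g : PowerSeries ℂ} (hA : ∀ n, coeff n D ∈ A) (h0 : coeff 0 D = 0) (h1 : coeff 1 D = 1)
    (hg : ∀ n, coeff n (D * g) ∈ P) (n : ℕ) : coeff n g ∈ P := by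
  induction n using Nat.strong_induction_on with
  | _ n ih =>
    have h := hg (n + 1)
    rw [coeff_mul, Finset.Nat.sum_antidiagonal_eq_sum_range_succ
      (fun i j => coeff i D * coeff j g), Finset.sum_range_succ', Finset.sum_range_succ',
      h0, zero_mul, add_zero, zero_add, h1, one_mul, Nat.add_sub_cancel] at h
    have h2 : ∑ k ∈ Finset.range n, coeff (k + 1 + 1) D * coeff (n + 1 - (k + 1 + 1)) g ∈ P := by
      refine P.sum_mem fun k hk => hP _ (hA _) _ (ih _ ?_)
      have := Finset.mem_range.mp hk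
      omega
    simpa using P.sub_mem h h2

/-- The congruence for power series in characteristic `l`. -/
lemma core {K : Type*} [CommRing K] (l : ℕ) (hl : l.Prime) [CharP K l] (D F : PowerSeries K)
    (hD : haveI := Fact.mk hl; PowerSeries.map (frobenius K l) D = D)
    (hF : haveI := Fact.mk hl; PowerSeries.map (frobenius K l) F = F) (x : K) :
    expand (l * l) (Nat.mul_ne_zero hl.ne_zero hl.ne_zero) (C x * D - F) * (C x * D - F) ^ l =
      expand l hl.ne_zero ((C x * D ^ l - F ^ l) * (C (x ^ l) * D - F)) := by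
  have := Fact.mk hl
  have key : ∀ f : PowerSeries K,
      expand l hl.ne_zero (PowerSeries.map (frobenius K l) f) = f ^ l := by
    intro f
    rw [← map_expand]
    exact MvPowerSeries.map_frobenius_expand l hl.ne_zero (f := f)
  have hD' : expand l hl.ne_zero D = D ^ l := by rw [← key, hD]
  have hF' : expand l hl.ne_zero F = F ^ l := by rw [← key, hF]
  rw [expand_mul l hl.ne_zero l hl.ne_zero, map_mul (expand l hl.ne_zero), ← key (C x * D - F)]
  congr 2
  · rw [map_sub, map_mul, expand_C, hD', hF']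
  · rw [map_sub, map_mul, map_C, hD, hF, frobenius_def]

lemma map_int {R S : Type*} [CommRing R] [CommRing S] (φ : R →+* S) (e : PowerSeries ℤ) :
    PowerSeries.map φ (PowerSeries.map (Int.castRingHom R) e) =
      PowerSeries.map (Int.castRingHom S) e := by
  ext n
  simp [coeff_map]

/-- The series whose coefficients are controlled by the congruence. -/
def W {R : Type*} [CommRing R] (l : ℕ) (hl : l ≠ 0) (u x ζ : R) : PowerSeries R :=
  expand (l * l) (Nat.mul_ne_zero hl hl)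
      (C x * (C u * PowerSeries.map (Int.castRingHom R) (e4 ^ 3 - e6 ^ 2)) -
        PowerSeries.map (Int.castRingHom R) (e4 ^ 3)) *
    ∏ i ∈ Finset.range l, rescale (ζ ^ i)
      (C x * (C u * PowerSeries.map (Int.castRingHom R) (e4 ^ 3 - e6 ^ 2)) -
        PowerSeries.map (Int.castRingHom R) (e4 ^ 3)) -
  expand l hl
    ((C x * (C u * PowerSeries.map (Int.castRingHom R) (e4 ^ 3 - e6 ^ 2)) ^ l -
        PowerSeries.map (Int.castRingHom R) (e4 ^ 3) ^ l) *
      (C (x ^ l) * (C u * PowerSeries.map (Int.castRingHom R) (e4 ^ 3 - e6 ^ 2)) -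
        PowerSeries.map (Int.castRingHom R) (e4 ^ 3)))

lemma map_W {R S : Type*} [CommRing R] [CommRing S] (φ : R →+* S) (l : ℕ) (hl : l ≠ 0)
    (u x ζ : R) : PowerSeries.map φ (W l hl u x ζ) = W l hl (φ u) (φ x) (φ ζ) := by
  unfold W
  generalize e4 ^ 3 - e6 ^ 2 = a
  generalize e4 ^ 3 = b
  simp only [map_sub (PowerSeries.map φ), map_mul (PowerSeries.map φ), map_prod (PowerSeries.map φ),
    map_pow (PowerSeries.map φ), map_expand, ← rescale_map, map_C, map_int, map_pow φ]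

lemma W_eq_zero {K : Type*} [CommRing K] (l : ℕ) (hl : l.Prime) [CharP K l] (u x : K)
    (hu : u * 1728 = 1) : W l hl.ne_zero u x 1 = 0 := by
  have := Fact.mk hl
  have hu' : frobenius K l u = u := by
    have h1 : frobenius K l u * 1728 = 1 := by
      have := congrArg (frobenius K l) hu
      rwa [map_mul, map_ofNat, map_one] at this
    linear_combination u * h1 - frobenius K l u * hu
  unfold W
  generalize e4 ^ 3 - e6 ^ 2 = a
  generalize e4 ^ 3 = b
  rw [sub_eq_zero, ← core l hl]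
  · simp only [one_pow, rescale_one, RingHom.id_apply, Finset.prod_const, Finset.card_range]
  · rw [map_mul, map_C, map_int, hu']
  · rw [map_int]

lemma coeff_W_mem (l : ℕ) (hl : l.Prime) {A : Subring ℂ} {P : AddSubgroup ℂ}
    (hP : ∀ a ∈ A, ∀ x ∈ P, a * x ∈ P) (h6 : (6 : ℂ)⁻¹ ∈ A) (hlP : (l : ℂ) ∈ P) {x ζ : ℂ}
    (hx : x ∈ A) (hζ : ζ ∈ A) (hζP : 1 - ζ ∈ P) (n : ℕ) :
    coeff n (W l hl.ne_zero (1728 : ℂ)⁻¹ x ζ) ∈ P := by
  let I : Ideal A :=
    { carrier := {a | (a : ℂ) ∈ P}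
      add_mem' := fun ha hb => P.add_mem ha hb
      zero_mem' := P.zero_mem
      smul_mem' := fun c a ha => hP c c.2 a ha }
  have hI : ∀ a : A, a ∈ I ↔ (a : ℂ) ∈ P := fun a => Iff.rfl
  let u : A := ⟨_, inv_mem h6⟩
  have h1 : W l hl.ne_zero (1728 : ℂ)⁻¹ x ζ =
      PowerSeries.map A.subtype (W l hl.ne_zero u ⟨x, hx⟩ ⟨ζ, hζ⟩) := by
    rw [map_W]
    rfl
  rw [h1, coeff_map]
  change ((coeff n (W l hl.ne_zero u ⟨x, hx⟩ ⟨ζ, hζ⟩) : A) : ℂ) ∈ P
  rw [← hI, ← Ideal.Quotient.eq_zero_iff_mem]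
  rcases subsingleton_or_nontrivial (A ⧸ I) with hs | hs
  · exact Subsingleton.elim _ _
  have hc : CharP (A ⧸ I) l := by
    rw [CharP.charP_iff_prime_eq_zero hl, ← map_natCast (Ideal.Quotient.mk I),
      Ideal.Quotient.eq_zero_iff_mem, hI]
    simpa using hlP
  have hz : Ideal.Quotient.mk I ⟨ζ, hζ⟩ = 1 := by
    rw [eq_comm, ← map_one (Ideal.Quotient.mk I), Ideal.Quotient.eq, hI]
    simpa using hζP
  have hu : u * 1728 = 1 := by
    apply Subtype.ext
    change (1728 : ℂ)⁻¹ * ((1728 : A) : ℂ) = 1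
    have : ((1728 : A) : ℂ) = 1728 := map_ofNat A.subtype 1728
    rw [this]
    norm_num
  have hu' : Ideal.Quotient.mk I u * 1728 = 1 := by
    have := congrArg (Ideal.Quotient.mk I) hu
    rwa [map_mul, map_ofNat, map_one] at this
  rw [← coeff_map, map_W, hz, W_eq_zero l hl _ _ hu', map_zero]

end Kron

open Kron

theorem struct : StructStmt := by
  intro A P hP h6 m
  induction m with
  | zero =>
    intro f hf τ _
    let f0 : ModularForm 𝒮ℒ 0 := ModularForm.mcast (by simp) f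
    obtain ⟨c, hc⟩ := ModularFormClass.levelOne_weight_zero_const f0
    have h1 : f0 = c • (1 : ModularForm 𝒮ℒ 0) := by
      ext z
      change f0 z = c * 1
      rw [hc, mul_one]
      rfl
    have h2 : qExpansion 1 f = C c := by
      change qExpansion 1 f0 = C c
      rw [h1, q_smul, ModularForm.qExpansion_one, mul_one]
    have h3 := hf 0
    rw [h2, coeff_zero_C] at h3
    have h4 : f τ = c := congrFun hc τ
    rw [h4, pow_zero, div_one]
    exact h3
  | succ m ih =>
    intro f hf τ hτ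
    set c := coeff 0 (qExpansion 1 f) with hc
    let F' : ModularForm 𝒮ℒ (12 * ((m + 1 : ℕ) : ℤ)) :=
      ModularForm.mcast (by ring) (FF.pow (m + 1))
    have hF' : qExpansion 1 F' = qExpansion 1 FF ^ (m + 1) := by
      rw [← q_pow]
      rfl
    let g : ModularForm 𝒮ℒ (12 * ((m + 1 : ℕ) : ℤ)) := f - c • F'
    have hg : qExpansion 1 g = qExpansion 1 f - C c * qExpansion 1 FF ^ (m + 1) := by
      rw [← hF', ← q_smul, ← q_sub]
    have hg0 : coeff 0 (qExpansion 1 g) = 0 := by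
      rw [hg, map_sub, coeff_C_mul, ← hc, coeff_zero_eq_constantCoeff_apply, map_pow,
        coeff_zero_FF, one_pow, mul_one, sub_self]
    have hgP : ∀ n, coeff n (qExpansion 1 g) ∈ P := by
      intro n
      rw [hg, map_sub, coeff_C_mul, q_FF, ← map_pow, mul_comm c]
      exact P.sub_mem (hf n) (hP _ (coeff_int_mem A _ n) _ (hf 0))
    let f' : ModularForm 𝒮ℒ (12 * (m : ℤ)) :=
      ModularForm.mcast (by push_cast; ring)
        (CuspForm.discriminantEquiv (ModularForm.toCuspForm g hg0))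
    have hq : qExpansion 1 g = qExpansion 1 DD * qExpansion 1 f' :=
      ModularForm.qExpansion_eq_qExpansion_discriminant_mul g hg0
    have hf' : ∀ n, coeff n (qExpansion 1 f') ∈ P :=
      div_mem hP (coeff_DD_mem h6) coeff_zero_DD coeff_one_DD (fun n => hq ▸ hgP n)
    have h1 := ih f' hf' τ hτ
    have h2 : f' τ = (f τ - c * F' τ) / ModularForm.discriminant τ := rfl
    have h3 : F' τ = (ModularForm.E₄ τ ^ 3) ^ (m + 1) := by
      rw [← FF_apply]
      simp only [F', ModularForm.coe_mcast, ModularForm.coe_pow, Pi.pow_apply]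
    have hΔ := ModularForm.discriminant_ne_zero τ
    have h4 : f τ / ModularForm.discriminant τ ^ (m + 1) =
        jH τ ^ (m + 1) * c + f' τ / ModularForm.discriminant τ ^ m := by
      rw [h2, h3, jH, div_pow]
      field_simp
      ring
    rw [h4]
    exact P.add_mem (hP _ (A.pow_mem hτ _) _ (hf 0)) h1

theorem kron (h1 : StructStmt) (h2 : NormStmt) : KronStmt := by
  intro l hl A P hP hζ h6 hlP hζP τ x hτ hx hxe
  let h : ModularForm 𝒮ℒ 12 := x • DD - FF
  have h_apply : ∀ σ : ℍ, x = jH σ → h σ = 0 := by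
    intro σ hσ
    change x * DD σ - FF σ = 0
    rw [DD_apply, FF_apply, hσ, jH, div_mul_cancel₀ _ (ModularForm.discriminant_ne_zero σ),
      sub_self]
  obtain ⟨G, hG, hGq⟩ := h2 l hl 12 h
  have hG0 : G τ = 0 := by
    rw [hG]
    rcases hxe with hxe | ⟨i, hi, hxe⟩
    · rw [h_apply _ hxe, zero_mul]
    · rw [Finset.prod_eq_zero (Finset.mem_range.mpr hi) (h_apply _ hxe), mul_zero]
  let G' : ModularForm 𝒮ℒ (12 * ((l + 1 : ℕ) : ℤ)) := ModularForm.mcast (by push_cast; ring) G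
  let H0 := (x • DD.pow l - FF.pow l).mul (x ^ l • DD - FF)
  let H : ModularForm 𝒮ℒ (12 * ((l + 1 : ℕ) : ℤ)) := ModularForm.mcast (by push_cast; ring) H0
  have hqh : qExpansion 1 h = C x * qExpansion 1 DD - qExpansion 1 FF := by
    rw [← q_smul, ← q_sub]
  have hqH : qExpansion 1 H = (C x * qExpansion 1 DD ^ l - qExpansion 1 FF ^ l) *
      (C (x ^ l) * qExpansion 1 DD - qExpansion 1 FF) := by
    rw [← q_pow, ← q_pow, ← q_smul, ← q_smul, ← q_sub, ← q_sub, ← q_mul]
    rfl
  have hW : expand l hl.ne_zero (qExpansion 1 (G' - H : ModularForm 𝒮ℒ _)) =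
      W l hl.ne_zero (1728 : ℂ)⁻¹ x (Complex.exp (2 * Real.pi * Complex.I / l)) := by
    have e1 : qExpansion 1 G' = qExpansion 1 G := rfl
    rw [q_sub, map_sub, e1, hGq, hqh, hqH, q_DD, q_FF, W]
  have hc : ∀ n, coeff n (qExpansion 1 (G' - H : ModularForm 𝒮ℒ _)) ∈ P := by
    intro n
    rw [← coeff_expand_mul l hl.ne_zero, hW]
    exact coeff_W_mem l hl hP h6 hlP hx hζ hζP _
  have h3 := h1 A P hP h6 (l + 1) (G' - H) hc τ hτ
  have h4 : (G' - H) τ = G τ - (x * DD τ ^ l - FF τ ^ l) * (x ^ l * DD τ - FF τ) := by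
    change G τ - (x * (DD.pow l) τ - (FF.pow l) τ) * (x ^ l * DD τ - FF τ) = _
    simp only [ModularForm.coe_pow, Pi.pow_apply]
  have hΔ := ModularForm.discriminant_ne_zero τ
  have h5 : (x - jH τ ^ l) * (x ^ l - jH τ) =
      -((G' - H) τ / ModularForm.discriminant τ ^ (l + 1)) := by
    rw [h4, hG0, DD_apply, FF_apply, jH, div_pow]
    field_simp
    ring
  rw [h5]
  exact P.neg_mem h3

end Pool.Agent.Lib.MP_9177b7_ag.CM
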