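import Pool.Agent.Lib.MP_9177b7_ag.CM.Defs

/-!
Elementary facts on lattices of the complex numbers.
-/

open UpperHalfPlane Pointwise
open scoped MatrixGroups

noncomputable section

namespace Pool.Agent.Lib.MP_9177b7_ag.CM

namespace Lat

lemma mem_sp {x y z : ℂ} : z ∈ sp x y ↔ ∃ m n : ℤ, m * x + n * y = z := by
  simp only [sp, Submodule.mem_span_pair, zsmul_eq_mul]

lemma mem_smul {c z : ℂ} {L : Submodule ℤ ℂ} : z ∈ c • L ↔ ∃ w ∈ L, c * w = z := by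
  rw [Submodule.mem_smul_pointwise_iff_exists]
  simp only [smul_eq_mul]

lemma smul_sp (c x y : ℂ) : c • sp x y = sp (c * x) (c * y) := by
  ext z
  rw [mem_smul, mem_sp]
  constructor
  · rintro ⟨w, hw, rfl⟩
    obtain ⟨m, n, rfl⟩ := mem_sp.1 hw
    exact ⟨m, n, by ring⟩
  · rintro ⟨m, n, rfl⟩
    exact ⟨m * x + n * y, mem_sp.2 ⟨m, n, rfl⟩, by ring⟩

lemma left_mem (x y : ℂ) : x ∈ sp x y := mem_sp.2 ⟨1, 0, by simp⟩

lemma right_mem (x y : ℂ) : y ∈ sp x y := mem_sp.2 ⟨0, 1, by simp⟩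

lemma int_mul_mem {X : Submodule ℤ ℂ} {w : ℂ} (hw : w ∈ X) (m : ℤ) : (m : ℂ) * w ∈ X := by
  have := X.smul_mem m hw
  rwa [zsmul_eq_mul] at this

lemma sp_le {X : Submodule ℤ ℂ} {x y : ℂ} (hx : x ∈ X) (hy : y ∈ X) : sp x y ≤ X := by
  intro z hz
  obtain ⟨m, n, rfl⟩ := mem_sp.1 hz
  exact X.add_mem (int_mul_mem hx m) (int_mul_mem hy n)

lemma indep_iff {x y : ℂ} : LinearIndependent ℝ ![x, y] ↔
    ∀ s t : ℝ, (s : ℂ) * x + (t : ℂ) * y = 0 → s = 0 ∧ t = 0 := by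
  rw [LinearIndependent.pair_iff]
  simp only [Complex.real_smul]

lemma isLat_sp {x y : ℂ} (h : LinearIndependent ℝ ![x, y]) : IsLat (sp x y) :=
  ⟨⟨x, y, h⟩, rfl⟩

lemma indep_tau (τ : ℍ) (s t : ℝ) (h : (s : ℂ) * τ + (t : ℂ) * 1 = 0) : s = 0 ∧ t = 0 := by
  have h1 := congrArg Complex.im h
  have h2 := congrArg Complex.re h
  simp at h1 h2
  have hs : s = 0 := by
    rcases h1 with h1 | h1
    · exact h1
    · exact absurd h1 τ.im_ne_zero
  subst hs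
  simp at h2
  exact ⟨rfl, h2⟩

lemma int_indep (τ : ℍ) (a b a' b' : ℤ) (h : (a : ℂ) * τ + b = a' * τ + b') :
    a = a' ∧ b = b' := by
  have := indep_tau τ ((a : ℝ) - a') ((b : ℝ) - b') (by push_cast; linear_combination h)
  obtain ⟨h1, h2⟩ := this
  rw [sub_eq_zero] at h1 h2
  exact ⟨by exact_mod_cast h1, by exact_mod_cast h2⟩

theorem l1 (τ : ℍ) : IsLat (sp τ 1) :=
  isLat_sp (indep_iff.2 (indep_tau τ))

theorem l2 (L : Submodule ℤ ℂ) (c : ℂ) (hL : IsLat L) (hc : c ≠ 0) : IsLat (c • L) := by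
  obtain ⟨P, rfl⟩ := hL
  have : P.lattice = sp P.ω₁ P.ω₂ := rfl
  rw [this, smul_sp]
  refine isLat_sp (indep_iff.2 fun s t h => indep_iff.1 P.indep s t ?_)
  have h2 : c * ((s : ℂ) * P.ω₁ + (t : ℂ) * P.ω₂) = 0 := by linear_combination h
  exact (mul_eq_zero.1 h2).resolve_left hc

/-- Multiplication by `c` as a bijection from `L` to `c • L`. -/
def smulEquiv (L : Submodule ℤ ℂ) (c : ℂ) (hc : c ≠ 0) : L ≃ (c • L : Submodule ℤ ℂ) where
  toFun l := ⟨c * l, mem_smul.2 ⟨l, l.2, rfl⟩⟩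
  invFun l := ⟨c⁻¹ * l, by
    obtain ⟨w, hw, h⟩ := mem_smul.1 l.2
    rw [← h, ← mul_assoc, inv_mul_cancel₀ hc, one_mul]
    exact hw⟩
  left_inv l := by
    ext
    simp only
    rw [← mul_assoc, inv_mul_cancel₀ hc, one_mul]
  right_inv l := by
    ext
    simp only
    rw [← mul_assoc, mul_inv_cancel₀ hc, one_mul]

theorem l3 (L : Submodule ℤ ℂ) (c : ℂ) (n : ℕ) (hc : c ≠ 0) :
    Gs (c • L) n = (c ^ n)⁻¹ * Gs L n := by
  unfold Gs
  rw [← (smulEquiv L c hc).tsum_eq, ← tsum_mul_left]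
  refine tsum_congr fun l => ?_
  change ((c * (l : ℂ)) ^ n)⁻¹ = _
  rw [mul_pow, mul_inv]

lemma denom_ne (γ : SL(2, ℤ)) (τ : ℍ) : ((γ 1 0 : ℤ) : ℂ) * τ + (γ 1 1 : ℤ) ≠ 0 := by
  intro h
  have h1 := int_indep τ (γ 1 0) (γ 1 1) 0 0 (by simpa using h)
  have h2 := γ.det_coe
  rw [Matrix.det_fin_two] at h2
  have e1 : γ.1 1 0 = 0 := h1.1
  have e2 : γ.1 1 1 = 0 := h1.2
  rw [e1, e2] at h2
  simp at h2

lemma coe_smul (γ : SL(2, ℤ)) (τ : ℍ) : ((γ • τ : ℍ) : ℂ) =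
    (((γ 0 0 : ℤ) : ℂ) * τ + (γ 0 1 : ℤ)) / (((γ 1 0 : ℤ) : ℂ) * τ + (γ 1 1 : ℤ)) := by
  rw [UpperHalfPlane.coe_specialLinearGroup_apply]
  simp

lemma sp_smul (γ : SL(2, ℤ)) (τ : ℍ) :
    sp τ 1 = (((γ 1 0 : ℤ) : ℂ) * τ + (γ 1 1 : ℤ)) • sp (γ • τ : ℍ) 1 := by
  have hd := denom_ne γ τ
  have h2 := γ.det_coe
  rw [Matrix.det_fin_two] at h2
  have h3 : ((γ 0 0 : ℤ) : ℂ) * (γ 1 1 : ℤ) - (γ 0 1 : ℤ) * (γ 1 0 : ℤ) = 1 := by
    exact_mod_cast h2
  rw [smul_sp, coe_smul, mul_div_cancel₀ _ hd, mul_one]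
  apply le_antisymm
  · refine sp_le (mem_sp.2 ⟨γ 1 1, -γ 0 1, ?_⟩) (mem_sp.2 ⟨-γ 1 0, γ 0 0, ?_⟩)
    · push_cast
      linear_combination (τ : ℂ) * h3
    · push_cast
      linear_combination h3
  · exact sp_le (mem_sp.2 ⟨γ 0 0, γ 0 1, by ring⟩) (mem_sp.2 ⟨γ 1 0, γ 1 1, by ring⟩)

lemma sp_neg (x y : ℂ) : sp (-x) y = sp x y := by
  apply le_antisymm
  · exact sp_le (Submodule.neg_mem _ (left_mem x y)) (right_mem x y)
  · refine sp_le ?_ (right_mem _ y)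
    have := Submodule.neg_mem _ (left_mem (-x) y)
    rwa [neg_neg] at this

lemma exists_tau (L : Submodule ℤ ℂ) (hL : IsLat L) :
    ∃ (τ : ℍ) (c : ℂ), c ≠ 0 ∧ L = c • sp τ 1 := by
  obtain ⟨P, rfl⟩ := hL
  have hP : P.lattice = sp P.ω₁ P.ω₂ := rfl
  have hi := indep_iff.1 P.indep
  have h2 : P.ω₂ ≠ 0 := by
    intro h
    have := (hi 0 1 (by simp [h])).2
    exact one_ne_zero this
  have him : (P.ω₁ / P.ω₂).im ≠ 0 := by
    intro h
    have e : P.ω₁ / P.ω₂ = ((P.ω₁ / P.ω₂).re : ℂ) := by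
      apply Complex.ext
      · simp only [Complex.ofReal_re]
      · simp only [Complex.ofReal_im, h]
    have := (hi 1 (-(P.ω₁ / P.ω₂).re) (by
      push_cast
      rw [← e]
      field_simp
      ring)).1
    exact one_ne_zero this
  have hs : sp P.ω₁ P.ω₂ = P.ω₂ • sp (P.ω₁ / P.ω₂) 1 := by
    rw [smul_sp, mul_div_cancel₀ _ h2, mul_one]
  rcases lt_or_gt_of_ne him with h | h
  · refine ⟨⟨-(P.ω₁ / P.ω₂), by simpa using h⟩, P.ω₂, h2, ?_⟩
    rw [hP, hs]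
    congr 1
    exact (sp_neg _ _).symm
  · exact ⟨⟨P.ω₁ / P.ω₂, h⟩, P.ω₂, h2, hP.trans hs⟩

theorem l4 (L : Submodule ℤ ℂ) (hL : IsLat L) :
    ∃ (τ : ℍ) (c : ℂ), c ≠ 0 ∧ τ ∈ ModularGroup.fd ∧ L = c • sp τ 1 := by
  obtain ⟨τ, c, hc, rfl⟩ := exists_tau L hL
  obtain ⟨γ, hγ⟩ := ModularGroup.exists_smul_mem_fd τ
  refine ⟨γ • τ, c * (((γ 1 0 : ℤ) : ℂ) * τ + (γ 1 1 : ℤ)), mul_ne_zero hc (denom_ne γ τ), hγ, ?_⟩
  rw [mul_smul, ← sp_smul]

theorem l5 (L X M : Submodule ℤ ℂ) (hL : IsLat L) (hM : IsLat M) (h1 : L ≤ X) (h2 : X ≤ M) :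
    IsLat X := by
  obtain ⟨P, rfl⟩ := hL
  obtain ⟨Q, rfl⟩ := hM
  have hd : DiscreteTopology X :=
    DiscreteTopology.of_subset (s := (Q.lattice : Set ℂ)) (t := (X : Set ℂ))
      (inferInstanceAs (DiscreteTopology Q.lattice)) h2
  have hz : IsZLattice ℝ X := ⟨by
    have := (inferInstance : IsZLattice ℝ P.lattice).span_top
    rw [eq_top_iff, ← this]
    exact Submodule.span_mono h1⟩
  have : Module.Finite ℤ X := ZLattice.module_finite ℝ X
  have : Module.Free ℤ X := ZLattice.module_free ℝ X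
  have hr : Module.finrank ℤ X = 2 := by
    rw [ZLattice.rank ℝ X, Complex.finrank_real_complex]
  let b := Module.finBasisOfFinrankEq ℤ X hr
  let B := b.ofZLatticeBasis ℝ X
  have hB : (B : Fin 2 → ℂ) = ![B 0, B 1] := by
    funext i
    fin_cases i <;> rfl
  have hi : LinearIndependent ℝ ![B 0, B 1] := hB ▸ B.linearIndependent
  refine ⟨⟨B 0, B 1, hi⟩, ?_⟩
  have hs := b.ofZLatticeBasis_span ℝ X
  rw [← hs]
  change Submodule.span ℤ {B 0, B 1} = Submodule.span ℤ (Set.range B)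
  congr 1
  ext z
  simp only [Set.mem_insert_iff, Set.mem_singleton_iff, Set.mem_range]
  constructor
  · rintro (rfl | rfl)
    · exact ⟨0, rfl⟩
    · exact ⟨1, rfl⟩
  · rintro ⟨i, rfl⟩
    fin_cases i
    · exact Or.inl rfl
    · exact Or.inr rfl

lemma mem_conj {L : Submodule ℤ ℂ} {z : ℂ} :
    z ∈ L.map (starRingEnd ℂ).toIntAlgHom.toLinearMap ↔ starRingEnd ℂ z ∈ L := by
  rw [Submodule.mem_map]
  constructor
  · rintro ⟨w, hw, rfl⟩
    change starRingEnd ℂ (starRingEnd ℂ w) ∈ L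
    rwa [Complex.conj_conj]
  · intro h
    exact ⟨_, h, Complex.conj_conj z⟩

/-- Conjugation as a bijection from `L` to its conjugate. -/
def conjEquiv (L : Submodule ℤ ℂ) : L ≃ L.map (starRingEnd ℂ).toIntAlgHom.toLinearMap where
  toFun l := ⟨starRingEnd ℂ l, mem_conj.2 (by rw [Complex.conj_conj]; exact l.2)⟩
  invFun l := ⟨starRingEnd ℂ l, mem_conj.1 l.2⟩
  left_inv l := by
    ext
    exact Complex.conj_conj _
  right_inv l := by
    ext
    exact Complex.conj_conj _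

theorem l6 (L : Submodule ℤ ℂ) (hL : IsLat L) :
    IsLat (L.map (starRingEnd ℂ).toIntAlgHom.toLinearMap) ∧
    ∀ n, Gs (L.map (starRingEnd ℂ).toIntAlgHom.toLinearMap) n = starRingEnd ℂ (Gs L n) := by
  constructor
  · obtain ⟨P, rfl⟩ := hL
    have e : P.lattice.map (starRingEnd ℂ).toIntAlgHom.toLinearMap =
        sp (starRingEnd ℂ P.ω₁) (starRingEnd ℂ P.ω₂) := by
      ext z
      rw [mem_conj, PeriodPair.mem_lattice, mem_sp]
      constructor
      · rintro ⟨m, n, h⟩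
        refine ⟨m, n, ?_⟩
        have := congrArg (starRingEnd ℂ) h
        simpa using this
      · rintro ⟨m, n, rfl⟩
        exact ⟨m, n, by simp⟩
    rw [e]
    refine isLat_sp (indep_iff.2 fun s t h => indep_iff.1 P.indep s t ?_)
    have := congrArg (starRingEnd ℂ) h
    simpa using this
  · intro n
    unfold Gs
    rw [← (conjEquiv L).tsum_eq, Complex.conj_tsum]
    refine tsum_congr fun l => ?_
    change ((starRingEnd ℂ (l : ℂ)) ^ n)⁻¹ = _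
    rw [map_inv₀, map_pow]

theorem l7 (τ τ' : ℍ) (c : ℂ) (_hc : c ≠ 0) (h : sp τ' 1 = c • sp τ 1) :
    ∃ γ : SL(2, ℤ), τ' = γ • τ := by
  rw [smul_sp] at h
  obtain ⟨a, b, h1⟩ := mem_sp.1 (h ▸ left_mem (τ' : ℂ) 1)
  obtain ⟨e, d, h2⟩ := mem_sp.1 (h ▸ right_mem (τ' : ℂ) 1)
  obtain ⟨p, q, h3⟩ := mem_sp.1 (h.symm ▸ left_mem (c * (τ : ℂ)) (c * 1))
  obtain ⟨r, s, h4⟩ := mem_sp.1 (h.symm ▸ right_mem (c * (τ : ℂ)) (c * 1))
  obtain ⟨k1, k2⟩ := int_indep τ' (a * p + b * r) (a * q + b * s) 1 0 (by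
    push_cast
    linear_combination h1 + a * h3 + b * h4)
  obtain ⟨k3, k4⟩ := int_indep τ' (e * p + d * r) (e * q + d * s) 0 1 (by
    push_cast
    linear_combination h2 + e * h3 + d * h4)
  have hdet : (a * d - b * e) * (p * s - q * r) = 1 := by
    have : (a * d - b * e) * (p * s - q * r) =
        (a * p + b * r) * (e * q + d * s) - (a * q + b * s) * (e * p + d * r) := by ring
    rw [this, k1, k2, k3, k4]
    norm_num
  have key : (τ' : ℂ) * (e * τ + d) = a * τ + b := by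
    linear_combination (-((e : ℂ) * τ + d)) * h1 + ((a : ℂ) * τ + b) * h2
  have hre := congrArg Complex.re key
  have him := congrArg Complex.im key
  simp at hre him
  have hpos : τ'.im * ((e * τ.re + d) ^ 2 + (e * τ.im) ^ 2) = (a * d - b * e) * τ.im := by
    linear_combination (e * τ.re + d) * him - (e * τ.im) * hre
  have hd1 : a * d - b * e = 1 := by
    rcases Int.eq_one_or_neg_one_of_mul_eq_one hdet with h5 | h5
    · exact h5
    · exfalso
      have h6 : ((a : ℝ) * d - b * e) = -1 := by exact_mod_cast h5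
      rw [h6] at hpos
      have h7 : 0 ≤ τ'.im * ((e * τ.re + d) ^ 2 + (e * τ.im) ^ 2) :=
        mul_nonneg τ'.im_pos.le (by positivity)
      have := τ.im_pos
      linarith
  let γ : SL(2, ℤ) := ⟨!![a, b; e, d], by rw [Matrix.det_fin_two_of]; exact hd1⟩
  refine ⟨γ, ?_⟩
  apply UpperHalfPlane.ext
  rw [coe_smul, eq_div_iff (denom_ne γ τ)]
  exact key

lemma mem_of_coprime {X : Submodule ℤ ℂ} {l : ℕ} (hl : l.Prime) {b : ℤ} (hb : ¬ (l : ℤ) ∣ b)
    {w : ℂ} (h1 : (l : ℂ) * w ∈ X) (h2 : (b : ℂ) * w ∈ X) : w ∈ X := by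
  obtain ⟨u, v, h⟩ := (Nat.prime_iff_prime_int.1 hl).irreducible.coprime_iff_not_dvd.2 hb
  have h' : (u : ℂ) * l + v * b = 1 := by exact_mod_cast h
  have : w = u * (l * w) + v * (b * w) := by linear_combination -w * h'
  rw [this]
  exact X.add_mem (int_mul_mem h1 u) (int_mul_mem h2 v)

theorem l8 (l : ℕ) (τ : ℍ) (X : Submodule ℤ ℂ) (hl : l.Prime) (h1 : (l : ℂ) • sp τ 1 < X)
    (h2 : X < sp τ 1) : X = sp (up l τ) 1 ∨ ∃ i < l, X = (l : ℂ) • sp (dn l i τ) 1 := by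
  have hl0 : (0 : ℝ) < l := by exact_mod_cast hl.pos
  have hlc : (l : ℂ) ≠ 0 := by exact_mod_cast hl.ne_zero
  rw [smul_sp] at h1
  have hτ : (l : ℂ) * τ ∈ X := h1.le (left_mem _ _)
  have hone : (l : ℂ) * 1 ∈ X := h1.le (right_mem _ _)
  by_cases hX : (1 : ℂ) ∈ X
  · left
    have hup : ((up l τ : ℍ) : ℂ) = l * τ := by
      unfold up
      rw [ofComplex_apply_of_im_pos (by simpa using mul_pos hl0 τ.im_pos)]
    rw [hup]
    refine le_antisymm (fun x hx => ?_) (sp_le hτ hX)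
    obtain ⟨a, b, rfl⟩ := mem_sp.1 (h2.le hx)
    have ha : (a : ℂ) * τ ∈ X := by
      have := X.sub_mem hx (int_mul_mem hX b)
      rwa [add_sub_cancel_right] at this
    by_cases hd : (l : ℤ) ∣ a
    · obtain ⟨k, rfl⟩ := hd
      exact mem_sp.2 ⟨k, b, by push_cast; ring⟩
    · exact absurd (sp_le (mem_of_coprime hl hd hτ ha) hX) (not_le_of_gt h2)
  · right
    have hint : ∀ b : ℤ, (b : ℂ) * 1 ∈ X → (l : ℤ) ∣ b := by
      intro b hb
      by_contra hd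
      exact hX (mem_of_coprime hl hd hone hb)
    obtain ⟨x, hx, hx'⟩ := SetLike.exists_of_lt h1
    obtain ⟨a, b, rfl⟩ := mem_sp.1 (h2.le hx)
    have hd : ¬ (l : ℤ) ∣ a := by
      rintro ⟨k, rfl⟩
      have hb : (b : ℂ) * 1 ∈ X := by
        have := X.sub_mem hx (int_mul_mem hτ k)
        have e : (((l : ℤ) * k : ℤ) : ℂ) * τ + b * 1 - k * (l * τ) = b * 1 := by
          push_cast
          ring
        rwa [e] at this
      obtain ⟨k', rfl⟩ := hint b hb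
      exact hx' (mem_sp.2 ⟨k, k', by push_cast; ring⟩)
    obtain ⟨u, v, h⟩ := (Nat.prime_iff_prime_int.1 hl).irreducible.coprime_iff_not_dvd.2 hd
    have h' : (u : ℂ) * l + v * a = 1 := by exact_mod_cast h
    have hl' : (0 : ℤ) < l := by exact_mod_cast hl.pos
    obtain ⟨i, hi⟩ := Int.eq_ofNat_of_zero_le (Int.emod_nonneg (v * b) hl'.ne')
    have hil : i < l := by
      have := Int.emod_lt_of_pos (v * b) hl'
      omega
    have hdiv : (v : ℂ) * b = l * ((v * b / l : ℤ) : ℂ) + i := by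
      have := Int.mul_ediv_add_emod (v * b) l
      rw [hi] at this
      exact_mod_cast this.symm
    have hi' : (τ : ℂ) + i ∈ X := by
      have := X.sub_mem (X.add_mem (int_mul_mem hτ u) (int_mul_mem hx v))
        (int_mul_mem hone (v * b / l))
      have e : (u : ℂ) * (l * τ) + v * (a * τ + b * 1) - ((v * b / l : ℤ) : ℂ) * (l * 1) =
          τ + i := by
        linear_combination (τ : ℂ) * h' + hdiv
      rwa [e] at this
    refine ⟨i, hil, ?_⟩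
    have hdn : ((dn l i τ : ℍ) : ℂ) = (τ + i) / l := by
      unfold dn
      rw [ofComplex_apply_of_im_pos (by simpa using div_pos τ.im_pos hl0)]
    rw [hdn, smul_sp, mul_div_cancel₀ _ hlc]
    refine le_antisymm (fun y hy => ?_) (sp_le hi' hone)
    obtain ⟨a', b', rfl⟩ := mem_sp.1 (h2.le hy)
    have hb : ((b' - a' * i : ℤ) : ℂ) * 1 ∈ X := by
      have := X.sub_mem hy (int_mul_mem hi' a')
      have e : (a' : ℂ) * τ + b' * 1 - a' * (τ + i) = ((b' - a' * i : ℤ) : ℂ) * 1 := by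
        push_cast
        ring
      rwa [e] at this
    obtain ⟨k, hk⟩ := hint _ hb
    have hk' : (b' : ℂ) - a' * i = l * k := by exact_mod_cast hk
    exact mem_sp.2 ⟨a', k, by linear_combination -hk'⟩

theorem l9 (ω : ℂ) (hω : ω.im ≠ 0) :
    {τ : ℍ | τ ∈ ModularGroup.fd ∧ ω • sp τ 1 ≤ sp τ 1}.Finite := by
  obtain ⟨N, hN⟩ := exists_nat_ge (2 * |ω.im| + |ω.re|)
  refine (((Set.finite_Icc (-(N : ℤ)) N).prod (Set.finite_Icc (-(N : ℤ)) N)).image
    (fun p : ℤ × ℤ => ofComplex ((ω - p.2) / p.1))).subset ?_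
  rintro τ ⟨hτ, h⟩
  rw [smul_sp] at h
  obtain ⟨c, d, hcd⟩ := mem_sp.1 (h (right_mem _ _))
  have hre := congrArg Complex.re hcd
  have him := congrArg Complex.im hcd
  simp at hre him
  have hc : c ≠ 0 := by
    rintro rfl
    apply hω
    simpa using him.symm
  have h3 := ModularGroup.three_le_four_mul_im_sq_of_mem_fd hτ
  have hp := τ.im_pos
  have h4 : 1 / 2 ≤ τ.im := by nlinarith
  have h5 : |(c : ℝ)| ≤ 2 * |ω.im| := by
    rw [← him, abs_mul, abs_of_pos hp]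
    nlinarith [abs_nonneg (c : ℝ)]
  have h6 : |(d : ℝ)| ≤ |ω.re| + |ω.im| := by
    have e : (d : ℝ) = ω.re - c * τ.re := by linarith
    have h7 : |(c : ℝ) * τ.re| ≤ |ω.im| := by
      rw [abs_mul]
      nlinarith [abs_nonneg (c : ℝ), hτ.2, abs_nonneg τ.re]
    rw [e]
    exact (abs_sub _ _).trans (by linarith)
  have h8 : |c| ≤ (N : ℤ) := by
    have : |(c : ℝ)| ≤ N := by linarith [abs_nonneg ω.re]
    exact_mod_cast this
  have h9 : |d| ≤ (N : ℤ) := by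
    have : |(d : ℝ)| ≤ N := by linarith [abs_nonneg ω.im]
    exact_mod_cast this
  refine ⟨(c, d), ⟨abs_le.1 h8, abs_le.1 h9⟩, ?_⟩
  have hc' : (c : ℂ) ≠ 0 := by exact_mod_cast hc
  have e : (ω - d) / c = τ := by
    rw [div_eq_iff hc']
    linear_combination -hcd
  simp only
  rw [e, ofComplex_apply]

end Lat

theorem lat : LatStmt :=
  ⟨Lat.l1, Lat.l2, Lat.l3, Lat.l4, Lat.l5, Lat.l6, Lat.l7, Lat.l8, Lat.l9⟩

end Pool.Agent.Lib.MP_9177b7_ag.CM
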