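import Pool.Agent.Lib.MP_9177b7_ag.CM.Defs

/-!
Conjugation of lattices is monotone: transfer of Taylor series along a ring homomorphism of `ℂ`.
-/

open UpperHalfPlane Pointwise Filter Topology
open scoped MatrixGroups

noncomputable section

namespace Pool.Agent.Lib.MP_9177b7_ag.CM

namespace Mono

lemma coeff_tay (f : ℂ → ℂ) (n : ℕ) :
    PowerSeries.coeff n (tay f) = ((n.factorial : ℂ))⁻¹ * iteratedDeriv n f 0 :=
  PowerSeries.coeff_mk _ _

lemma tay_add {f g : ℂ → ℂ} (hf : AnalyticAt ℂ f 0) (hg : AnalyticAt ℂ g 0) :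
    tay (fun z => f z + g z) = tay f + tay g := by
  ext n
  rw [map_add, coeff_tay, coeff_tay, coeff_tay,
    iteratedDeriv_fun_add hf.contDiffAt hg.contDiffAt, mul_add]

lemma tay_mul {f g : ℂ → ℂ} (hf : AnalyticAt ℂ f 0) (hg : AnalyticAt ℂ g 0) :
    tay (fun z => f z * g z) = tay f * tay g := by
  ext n
  simp only [coeff_tay, iteratedDeriv_fun_mul hf.contDiffAt hg.contDiffAt, Finset.mul_sum,
    PowerSeries.coeff_mul, Finset.Nat.sum_antidiagonal_eq_sum_range_succ_mk, Nat.succ_eq_add_one]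
  refine Finset.sum_congr rfl fun i hi ↦ ?_
  rw [Nat.cast_choose _ (Nat.lt_succ_iff.1 (Finset.mem_range.1 hi))]
  field_simp [Nat.factorial_ne_zero]

lemma tay_const (c : ℂ) : tay (fun _ => c) = PowerSeries.C c := by
  ext n
  rw [coeff_tay, iteratedDeriv_const, PowerSeries.coeff_C]
  split_ifs with h <;> simp [h]

lemma tay_id : tay (fun z => z) = PowerSeries.X := by
  ext n
  rw [coeff_tay, iteratedDeriv_fun_id_zero, PowerSeries.coeff_X]
  split_ifs with h <;> simp [h]

lemma tay_deriv (f : ℂ → ℂ) : tay (deriv f) = PowerSeries.derivative ℂ (tay f) := by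
  ext n
  rw [PowerSeries.coeff_derivative, coeff_tay, coeff_tay, iteratedDeriv_succ',
    Nat.factorial_succ]
  have h1 : ((n : ℂ) + 1) ≠ 0 := by exact_mod_cast Nat.succ_ne_zero n
  have h2 : (n.factorial : ℂ) ≠ 0 := by exact_mod_cast Nat.factorial_ne_zero n
  push_cast
  field_simp

lemma tay_eq_zero {f : ℂ → ℂ} (hf : AnalyticAt ℂ f 0) (h : ∀ᶠ z in 𝓝[≠] (0 : ℂ), f z = 0) :
    tay f = 0 := by
  have h1 : f =ᶠ[𝓝 0] fun _ => 0 := hf.frequently_zero_iff_eventually_zero.1 h.frequently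
  ext n
  rw [coeff_tay, h1.iteratedDeriv_eq]
  simp

lemma eventually_zero {f : ℂ → ℂ} (hf : AnalyticAt ℂ f 0) (h : tay f = 0) :
    ∀ᶠ z in 𝓝 (0 : ℂ), f z = 0 := by
  refine analyticOrderAt_eq_top.1 (ENat.eq_top_iff_forall_ge.2 fun m => ?_)
  refine (natCast_le_analyticOrderAt_iff_iteratedDeriv_eq_zero hf).2 fun i _ => ?_
  have h1 := congrArg (PowerSeries.coeff i) h
  rw [coeff_tay, map_zero] at h1
  exact (mul_eq_zero.1 h1).resolve_left
    (inv_ne_zero (by exact_mod_cast Nat.factorial_ne_zero i))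

lemma tay_eval {ι : Type} {f : ι → ℂ → ℂ} (hf : ∀ i, AnalyticAt ℂ (f i) 0)
    (R : MvPolynomial ι ℂ) :
    AnalyticAt ℂ (fun z => MvPolynomial.eval (fun i => f i z) R) 0 ∧
      tay (fun z => MvPolynomial.eval (fun i => f i z) R) =
        MvPolynomial.eval₂ PowerSeries.C (fun i => tay (f i)) R := by
  induction R using MvPolynomial.induction_on with
  | C a =>
    simp only [MvPolynomial.eval_C, MvPolynomial.eval₂_C]
    exact ⟨analyticAt_const, tay_const a⟩
  | add p q hp hq =>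
    simp only [map_add, MvPolynomial.eval₂_add]
    exact ⟨hp.1.add hq.1, by rw [tay_add hp.1 hq.1, hp.2, hq.2]⟩
  | mul_X p i hp =>
    simp only [map_mul, MvPolynomial.eval_X, MvPolynomial.eval₂_mul, MvPolynomial.eval₂_X]
    exact ⟨hp.1.mul (hf i), by rw [tay_mul hp.1 (hf i), hp.2]⟩

/-- transfer of polynomial relations -/
lemma transfer (σ : ℂ →+* ℂ) {ι : Type} {f g : ι → ℂ → ℂ} (hf : ∀ i, AnalyticAt ℂ (f i) 0)
    (hg : ∀ i, AnalyticAt ℂ (g i) 0) (h : ∀ i, tay (g i) = PowerSeries.map σ (tay (f i)))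
    (R : MvPolynomial ι ℂ)
    (hR : ∀ᶠ z in 𝓝[≠] (0 : ℂ), MvPolynomial.eval (fun i => f i z) R = 0) :
    ∀ᶠ z in 𝓝 (0 : ℂ), MvPolynomial.eval (fun i => g i z) (MvPolynomial.map σ R) = 0 := by
  have h1 := tay_eq_zero (tay_eval hf R).1 hR
  rw [(tay_eval hf R).2] at h1
  refine eventually_zero (tay_eval hg _).1 ?_
  have h2 := congrArg (PowerSeries.map σ) h1
  rw [MvPolynomial.hom_eval₂, map_zero] at h2
  have e : (PowerSeries.map σ).comp PowerSeries.C = (PowerSeries.C (R := ℂ)).comp σ :=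
    RingHom.ext fun a => PowerSeries.map_C σ a
  rw [(tay_eval hg _).2, MvPolynomial.eval₂_map, ← e, funext h]
  exact h2

/-- the differential equation -/
def Ode (a b : ℂ) (F : PowerSeries ℂ) : Prop :=
  PowerSeries.constantCoeff F = 1 ∧
    (PowerSeries.X * PowerSeries.derivative ℂ F - 2 * F) ^ 2 =
      4 * F ^ 3 - PowerSeries.C a * PowerSeries.X ^ 4 * F - PowerSeries.C b * PowerSeries.X ^ 6

lemma X_mul_derivative (n : ℕ) (ε : PowerSeries ℂ) :
    PowerSeries.X * PowerSeries.derivative ℂ (PowerSeries.X ^ n * ε) =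
      PowerSeries.X ^ n *
        ((n : PowerSeries ℂ) * ε + PowerSeries.X * PowerSeries.derivative ℂ ε) := by
  induction n with
  | zero => simp
  | succ n ih =>
    rw [pow_succ', mul_assoc, Derivation.leibniz, PowerSeries.derivative_X, smul_eq_mul,
      smul_eq_mul, mul_add, ih]
    push_cast
    ring

lemma Ode.unique {a b : ℂ} {F G : PowerSeries ℂ} (hF : Ode a b F) (hG : Ode a b G) : F = G := by
  by_contra hne
  have hδ : F - G ≠ 0 := sub_ne_zero.2 hne
  obtain ⟨n, ε, he, hε⟩ : ∃ (n : ℕ) (ε : PowerSeries ℂ), PowerSeries.constantCoeff ε ≠ 0 ∧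
      PowerSeries.X ^ n * ε = F - G :=
    ⟨_, _, mt PowerSeries.constantCoeff_divXPowOrder_eq_zero_iff.1 hδ,
      PowerSeries.X_pow_order_mul_divXPowOrder⟩
  have h1 := X_mul_derivative n ε
  rw [hε, map_sub] at h1
  have h2 : PowerSeries.X ^ n * ((((n : PowerSeries ℂ) * ε +
      PowerSeries.X * PowerSeries.derivative ℂ ε) - 2 * ε) *
      (PowerSeries.X * PowerSeries.derivative ℂ F - 2 * F +
        (PowerSeries.X * PowerSeries.derivative ℂ G - 2 * G)) -
      (4 * ε * (F ^ 2 + F * G + G ^ 2) - PowerSeries.C a * PowerSeries.X ^ 4 * ε)) = 0 := by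
    linear_combination hF.2 - hG.2 -
      (PowerSeries.X * PowerSeries.derivative ℂ F - 2 * F +
        (PowerSeries.X * PowerSeries.derivative ℂ G - 2 * G)) * h1 +
      (-2 * (PowerSeries.X * PowerSeries.derivative ℂ F - 2 * F +
        (PowerSeries.X * PowerSeries.derivative ℂ G - 2 * G)) -
        4 * (F ^ 2 + F * G + G ^ 2) + PowerSeries.C a * PowerSeries.X ^ 4) * hε
  have h3 := congrArg PowerSeries.constantCoeff
    ((mul_eq_zero.1 h2).resolve_left (pow_ne_zero _ PowerSeries.X_ne_zero))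
  simp only [map_sub, map_mul, map_add, map_pow, map_natCast, map_ofNat, map_zero,
    PowerSeries.constantCoeff_X, hF.1, hG.1] at h3
  have h4 : ((n : ℂ) + 1) ≠ 0 := by exact_mod_cast Nat.succ_ne_zero n
  refine mul_ne_zero h4 he ?_
  linear_combination (-1 / 4 : ℂ) * h3

lemma map_derivative (σ : ℂ →+* ℂ) (F : PowerSeries ℂ) :
    PowerSeries.map σ (PowerSeries.derivative ℂ F) =
      PowerSeries.derivative ℂ (PowerSeries.map σ F) := by
  ext n
  simp [PowerSeries.coeff_derivative]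

lemma Ode.map {a b : ℂ} {F : PowerSeries ℂ} (hF : Ode a b F) (σ : ℂ →+* ℂ) :
    Ode (σ a) (σ b) (PowerSeries.map σ F) := by
  refine ⟨?_, ?_⟩
  · rw [← PowerSeries.coeff_zero_eq_constantCoeff_apply, PowerSeries.coeff_map,
      PowerSeries.coeff_zero_eq_constantCoeff_apply, hF.1, map_one]
  · have := congrArg (PowerSeries.map σ) hF.2
    simpa only [map_sub, map_mul, map_pow, map_ofNat, PowerSeries.map_X, PowerSeries.map_C,
      map_derivative] using this

/-- the regularised Weierstrass function -/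
def ph (P : PeriodPair) (z : ℂ) : ℂ := 1 + z ^ 2 * P.weierstrassPExcept 0 z

lemma analyticAt_ph (P : PeriodPair) : AnalyticAt ℂ (ph P) 0 := by
  have := P.analyticAt_weierstrassPExcept 0
  unfold ph
  fun_prop

lemma ph_eq (P : PeriodPair) {z : ℂ} (hz : z ≠ 0) : ph P z = z ^ 2 * P.weierstrassP z := by
  have := P.ite_eq_one_sub_sq_mul_weierstrassP 0 P.lattice.zero_mem z
  rw [if_neg hz] at this
  unfold ph
  simp only [sub_zero, ne_eq, OfNat.ofNat_ne_zero, not_false_eq_true, zero_pow, div_zero] at this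
  rw [this, add_comm]

lemma ev_notMem (P : PeriodPair) : ∀ᶠ z in 𝓝[≠] (0 : ℂ), z ≠ 0 ∧ z ∉ P.lattice := by
  filter_upwards [self_mem_nhdsWithin,
    mem_nhdsWithin_of_mem_nhds (P.compl_lattice_sdiff_singleton_mem_nhds 0)] with z h1 h2
  exact ⟨h1, fun h => h2 ⟨h, h1⟩⟩

lemma analyticAt_wp (P : PeriodPair) {z : ℂ} (hz : z ∉ P.lattice) :
    AnalyticAt ℂ P.weierstrassP z := P.analyticOnNhd_weierstrassP z hz

lemma ode_ph (P : PeriodPair) : Ode P.g₂ P.g₃ (tay (ph P)) := by
  refine ⟨?_, ?_⟩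
  · rw [← PowerSeries.coeff_zero_eq_constantCoeff_apply, coeff_tay]
    simp [ph]
  · have hf : ∀ i, AnalyticAt ℂ (![fun z => z, ph P, deriv (ph P)] i) 0 := fun i => by
      fin_cases i
      · exact analyticAt_id
      · exact analyticAt_ph P
      · exact (analyticAt_ph P).deriv
    obtain ⟨h1, h2⟩ := tay_eval hf ((MvPolynomial.X 0 * MvPolynomial.X 2 -
      MvPolynomial.C 2 * MvPolynomial.X 1) ^ 2 - (MvPolynomial.C 4 * MvPolynomial.X 1 ^ 3 -
      MvPolynomial.C P.g₂ * MvPolynomial.X 0 ^ 4 * MvPolynomial.X 1 -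
      MvPolynomial.C P.g₃ * MvPolynomial.X 0 ^ 6))
    rw [tay_eq_zero h1] at h2
    · simp only [MvPolynomial.eval₂_sub, MvPolynomial.eval₂_mul, MvPolynomial.eval₂_pow,
        MvPolynomial.eval₂_X, MvPolynomial.eval₂_C, Matrix.cons_val_zero, Matrix.cons_val_one,
        Matrix.cons_val_two, Matrix.tail_cons, Matrix.head_cons, tay_id, tay_deriv] at h2
      rw [map_ofNat PowerSeries.C 2, map_ofNat PowerSeries.C 4] at h2
      exact sub_eq_zero.1 h2.symm
    · filter_upwards [ev_notMem P] with z hz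
      have e1 : ph P =ᶠ[𝓝 z] fun w => w ^ 2 * P.weierstrassP w := by
        filter_upwards [isOpen_ne.mem_nhds hz.1] with w hw using ph_eq P hw
      have e2 : deriv (ph P) z = 2 * z * P.weierstrassP z + z ^ 2 * P.derivWeierstrassP z := by
        have := ((hasDerivAt_id z).fun_pow 2).fun_mul
          (analyticAt_wp P hz.2).differentiableAt.hasDerivAt
        rw [e1.deriv_eq, ← P.deriv_weierstrassP]
        simpa using this.deriv
      simp only [map_sub, map_mul, map_pow, MvPolynomial.eval_X, MvPolynomial.eval_C,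
        Matrix.cons_val_zero, Matrix.cons_val_one, Matrix.cons_val_two, Matrix.tail_cons,
        Matrix.head_cons, e2, ph_eq P hz.1]
      linear_combination z ^ 6 * P.derivWeierstrassP_sq z hz.2

lemma tay_ph {σ : ℂ →+* ℂ} {P Q : PeriodPair} (h : Conj σ P.lattice Q.lattice) :
    tay (ph Q) = PowerSeries.map σ (tay (ph P)) := by
  have h1 := (ode_ph P).map σ
  rw [show σ P.g₂ = Q.g₂ from h.2.2.1, show σ P.g₃ = Q.g₃ from h.2.2.2] at h1
  exact (ode_ph Q).unique h1

/-- homogenisation -/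
def hm (A : Polynomial ℂ) (d : ℕ) : MvPolynomial (Fin 3) ℂ :=
  ∑ k ∈ Finset.range (d + 1),
    MvPolynomial.C (A.coeff k) * MvPolynomial.X 1 ^ k * MvPolynomial.X 0 ^ (2 * (d - k))

lemma map_hm (σ : ℂ →+* ℂ) (A : Polynomial ℂ) (d : ℕ) :
    MvPolynomial.map σ (hm A d) = hm (A.map σ) d := by
  simp [hm]

lemma eval_hm {A : Polynomial ℂ} {d : ℕ} (h : A.natDegree ≤ d) (x : Fin 3 → ℂ) (w : ℂ)
    (hx : x 1 = x 0 ^ 2 * w) : MvPolynomial.eval x (hm A d) = x 0 ^ (2 * d) * A.eval w := by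
  rw [Polynomial.eval_eq_sum_range' (Nat.lt_succ_of_le h), Finset.mul_sum, hm, map_sum]
  refine Finset.sum_congr rfl fun k hk => ?_
  obtain ⟨j, rfl⟩ := Nat.exists_eq_add_of_le (Nat.lt_succ_iff.1 (Finset.mem_range.1 hk))
  simp only [map_mul, map_pow, MvPolynomial.eval_X, MvPolynomial.eval_C, hx,
    Nat.add_sub_cancel_left]
  ring

lemma eval_rel {A B : Polynomial ℂ} {d : ℕ} (hA : A.natDegree ≤ d) (hB : B.natDegree ≤ d)
    (P P' : PeriodPair) {z : ℂ} (hz : z ≠ 0) :
    MvPolynomial.eval (fun i => ![fun z => z, ph P, ph P'] i z)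
      (hm B d * MvPolynomial.X 2 - MvPolynomial.X 0 ^ 2 * hm A d) =
      z ^ (2 * d + 2) *
        (B.eval (P.weierstrassP z) * P'.weierstrassP z - A.eval (P.weierstrassP z)) := by
  rw [map_sub, map_mul, map_mul, map_pow, eval_hm hA _ (P.weierstrassP z) (ph_eq P hz),
    eval_hm hB _ (P.weierstrassP z) (ph_eq P hz), MvPolynomial.eval_X, MvPolynomial.eval_X]
  simp only [Matrix.cons_val_zero, Matrix.cons_val_two, Matrix.tail_cons, Matrix.head_cons,
    ph_eq P' hz]
  ring

lemma analyticAt_vec (P P' : PeriodPair) (i : Fin 3) :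
    AnalyticAt ℂ (![fun z => z, ph P, ph P'] i) 0 := by
  fin_cases i
  · exact analyticAt_id
  · exact analyticAt_ph P
  · exact analyticAt_ph P'

lemma ev_ne (P : PeriodPair) {g : ℂ → ℂ} (hg : ContinuousAt g 0) :
    ∀ᶠ z in 𝓝[≠] (0 : ℂ), P.weierstrassP z ≠ g z := by
  have h1 : ContinuousAt (fun z => ph P z - z ^ 2 * g z) 0 :=
    (analyticAt_ph P).continuousAt.sub ((continuousAt_id.pow 2).mul hg)
  filter_upwards [self_mem_nhdsWithin, mem_nhdsWithin_of_mem_nhds
    (h1.eventually_ne (y := 0) (by simp [ph]))] with z hz h2 h3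
  exact h2 (by rw [ph_eq P hz, h3, sub_self])

lemma countable_lattice (P : PeriodPair) : (P.lattice : Set ℂ).Countable :=
  Set.countable_coe_iff.1 (P.latticeEquivProd.toEquiv.countable_iff.2 inferInstance)

end Mono

open Mono in
theorem mono (h : RatStmt) : MonoStmt := by
  intro σ L L' M M' h1 h2 hle
  obtain ⟨P, rfl⟩ := h1.1
  obtain ⟨P', rfl⟩ := h2.1
  obtain ⟨Q, rfl⟩ := h1.2.1
  obtain ⟨Q', rfl⟩ := h2.2.1
  obtain ⟨A, B, hB, hAB⟩ := h P P' hle
  have hA1 : A.natDegree ≤ max A.natDegree B.natDegree := le_max_left _ _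
  have hB1 : B.natDegree ≤ max A.natDegree B.natDegree := le_max_right _ _
  have t1 := transfer σ (analyticAt_vec P P') (analyticAt_vec Q Q') (fun i => by
      fin_cases i
      · exact tay_id.trans ((PowerSeries.map_X σ).symm.trans (congrArg _ tay_id.symm))
      · exact tay_ph h1
      · exact tay_ph h2)
    (hm B (max A.natDegree B.natDegree) * MvPolynomial.X 2 -
      MvPolynomial.X 0 ^ 2 * hm A (max A.natDegree B.natDegree)) (by
      filter_upwards [ev_notMem P'] with z hz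
      rw [eval_rel hA1 hB1 P P' hz.1, hAB z hz.2, sub_self, mul_zero])
  rw [map_sub, map_mul, map_mul, map_pow, map_hm, map_hm, MvPolynomial.map_X,
    MvPolynomial.map_X] at t1
  have t2 : ∀ᶠ z in 𝓝 (0 : ℂ), z ≠ 0 → (B.map σ).eval (Q.weierstrassP z) * Q'.weierstrassP z -
      (A.map σ).eval (Q.weierstrassP z) = 0 := by
    filter_upwards [t1] with z hz hz0
    rw [eval_rel (Polynomial.natDegree_map_le.trans hA1) (Polynomial.natDegree_map_le.trans hB1)
      Q Q' hz0] at hz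
    exact (mul_eq_zero.1 hz).resolve_left (pow_ne_zero _ hz0)
  have an : AnalyticOnNhd ℂ (fun z => (B.map σ).eval (Q.weierstrassP z) * Q'.weierstrassP z -
      (A.map σ).eval (Q.weierstrassP z)) ((Q.lattice : Set ℂ) ∪ Q'.lattice)ᶜ := fun z hz => by
    have a1 := analyticAt_wp Q fun h => hz (Or.inl h)
    have a2 := analyticAt_wp Q' fun h => hz (Or.inr h)
    exact ((a1.aeval_polynomial _).mul a2).sub (a1.aeval_polynomial _)
  obtain ⟨y, hy1, hy2, hy3⟩ := ((t2.eventually_nhds.filter_mono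
    (nhdsWithin_le_nhds (s := {0}ᶜ))).and ((ev_notMem Q).and (ev_notMem Q'))).exists
  have t3 := an.eqOn_zero_of_preconnected_of_eventuallyEq_zero
    (((countable_lattice Q).union (countable_lattice Q')).isConnected_compl_of_one_lt_rank
      (by simp)).isPreconnected (z₀ := y) (fun h => h.elim hy2.2 hy3.2) (by
      filter_upwards [hy1, isOpen_ne.mem_nhds hy2.1] with z h1 h2 using h1 h2)
  intro l hl
  by_contra hl'
  have hB' : B.map σ ≠ 0 := (Polynomial.map_ne_zero_iff σ.injective).2 hB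
  have e1 : ∀ᶠ z in 𝓝[≠] (0 : ℂ), ∀ r ∈ (B.map σ).roots.toFinset, Q.weierstrassP z ≠ r :=
    (eventually_all_finset _).2 fun r _ => ev_ne Q continuousAt_const
  have c1 : ContinuousAt (fun z : ℂ => z + l) 0 := by fun_prop
  have e2 : ∀ᶠ z in 𝓝[≠] (0 : ℂ), Q'.weierstrassP z ≠ Q'.weierstrassP (z + l) :=
    ev_ne Q' ((analyticAt_wp Q' hl').continuousAt.comp_of_eq c1 (zero_add l))
  have e3 : ∀ᶠ z in 𝓝[≠] (0 : ℂ), z + l ∉ Q'.lattice :=
    mem_nhdsWithin_of_mem_nhds (c1.preimage_mem_nhds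
      (Q'.isClosed_lattice.isOpen_compl.mem_nhds (by simpa using hl')))
  obtain ⟨z, z1, z2, z3, z4, z5⟩ :=
    (e1.and (e2.and (e3.and ((ev_notMem Q).and (ev_notMem Q'))))).exists
  have u1 := t3 (x := z) fun h => h.elim z4.2 z5.2
  have u2 := t3 (x := z + l) fun h => h.elim
    (fun h => z4.2 (by simpa using Q.lattice.sub_mem h hl)) z3
  simp only [Pi.zero_apply, Q.weierstrassP_add_coe z ⟨l, hl⟩] at u1 u2
  have u3 : (B.map σ).eval (Q.weierstrassP z) ≠ 0 := fun h =>
    z1 _ (Multiset.mem_toFinset.2 ((Polynomial.mem_roots hB').2 h)) rfl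
  exact z2 (mul_left_cancel₀ u3 (by linear_combination u1 - u2))

end Pool.Agent.Lib.MP_9177b7_ag.CM
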