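import Pool.Agent.Lib.MP_9177b7_ag.CM.Defs

/-!
The multiplicative Hecke operator of a level one modular form is a level one modular form;
its `q`-expansion.
-/

open UpperHalfPlane Pointwise
open scoped MatrixGroups

noncomputable section

namespace Pool.Agent.Lib.MP_9177b7_ag.CM

namespace Norm

open Function

theorem coe_up {l : ℕ} (hl : l ≠ 0) (τ : ℍ) : ((up l τ : ℍ) : ℂ) = (l : ℂ) * τ := by
  have h : 0 < ((l : ℂ) * τ).im := by
    have h1 : (0 : ℝ) < l := by exact_mod_cast Nat.pos_of_ne_zero hl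
    have h2 := τ.im_pos
    simp only [Complex.mul_im, Complex.natCast_re, Complex.natCast_im, zero_mul, add_zero,
      UpperHalfPlane.coe_im]
    positivity
  rw [up, ofComplex_apply_of_im_pos h]

theorem coe_dn {l : ℕ} (hl : l ≠ 0) (i : ℕ) (τ : ℍ) :
    ((dn l i τ : ℍ) : ℂ) = ((τ : ℂ) + i) / l := by
  have h : 0 < (((τ : ℂ) + i) / l).im := by
    have h1 : (0 : ℝ) < l := by exact_mod_cast Nat.pos_of_ne_zero hl
    have h2 := τ.im_pos
    rw [Complex.div_natCast_im]
    simp only [Complex.add_im, Complex.natCast_im, add_zero, UpperHalfPlane.coe_im]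
    positivity
  rw [dn, ofComplex_apply_of_im_pos h]

/-- The transformation law, for explicit integer entries. -/
theorem trans {k : ℤ} (f : ModularForm 𝒮ℒ k) (a b c d : ℤ) (h : a * d - b * c = 1) (z w : ℍ)
    (hw : (w : ℂ) = ((a : ℂ) * z + b) / ((c : ℂ) * z + d)) :
    f w = ((c : ℂ) * z + d) ^ k * f z := by
  let γ : SL(2, ℤ) := ⟨!![a, b; c, d], by rw [Matrix.det_fin_two_of]; exact h⟩
  have e : w = γ • z := by
    apply UpperHalfPlane.ext
    rw [hw, UpperHalfPlane.coe_specialLinearGroup_apply]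
    simp [γ]
  have h2 := SlashInvariantForm.slash_action_eqn' f
    (γ := (γ : GL (Fin 2) ℝ)) (MonoidHom.mem_range.mpr ⟨γ, rfl⟩) z
  rw [e]
  refine h2.trans ?_
  simp [γ]

/-- The function underlying the norm. -/
def NF {k : ℤ} (l : ℕ) (f : ModularForm 𝒮ℒ k) (τ : ℍ) : ℂ :=
  f (up l τ) * ∏ i ∈ Finset.range l, f (dn l i τ)

theorem NF_T {k : ℤ} {l : ℕ} (hl : l ≠ 0) (f : ModularForm 𝒮ℒ k) (z w : ℍ)
    (hw : (w : ℂ) = z + 1) : NF l f w = NF l f z := by
  have hl' : (l : ℂ) ≠ 0 := by exact_mod_cast hl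
  have h1 : f (up l w) = f (up l z) := by
    have := trans f 1 l 0 1 (by ring) (up l z) (up l w) (by
      rw [coe_up hl, coe_up hl, hw]; push_cast; ring)
    simpa using this
  have h2 : ∀ i : ℕ, dn l i w = dn l (i + 1) z := by
    intro i
    apply UpperHalfPlane.ext
    rw [coe_dn hl, coe_dn hl, hw]; push_cast; ring
  have h3 : f (dn l l z) = f (dn l 0 z) := by
    have := trans f 1 1 0 1 (by ring) (dn l 0 z) (dn l l z) (by
      rw [coe_dn hl, coe_dn hl]; push_cast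
      rw [zero_mul, zero_add, div_one]; field_simp; ring)
    simpa using this
  obtain ⟨m, rfl⟩ := Nat.exists_eq_succ_of_ne_zero hl
  unfold NF
  rw [h1]
  congr 1
  simp_rw [h2]
  rw [Finset.prod_range_succ, Finset.prod_range_succ' (fun i => f (dn m.succ i z)), ← h3]

/-- The involution `i ↦ -1/i` modulo `l`. -/
def inv (l i : ℕ) : ℕ := (-((i : ZMod l))⁻¹).val

theorem inv_mem {l : ℕ} (hl : l.Prime) {i : ℕ} (hi : i ∈ Finset.Ico 1 l) :
    inv l i ∈ Finset.Ico 1 l := by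
  have := Fact.mk hl
  rw [Finset.mem_Ico] at hi ⊢
  refine ⟨?_, ZMod.val_lt _⟩
  have h0 : (i : ZMod l) ≠ 0 := by
    rw [Ne, ZMod.natCast_eq_zero_iff]
    exact Nat.not_dvd_of_pos_of_lt hi.1 hi.2
  have h1 : -((i : ZMod l))⁻¹ ≠ 0 := neg_ne_zero.mpr (inv_ne_zero h0)
  exact Nat.pos_of_ne_zero fun h => h1 ((ZMod.val_eq_zero _).mp h)

theorem inv_inv' {l : ℕ} (hl : l.Prime) {i : ℕ} (hi : i ∈ Finset.Ico 1 l) :
    inv l (inv l i) = i := by
  have := Fact.mk hl
  rw [Finset.mem_Ico] at hi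
  unfold inv
  rw [ZMod.natCast_zmod_val, inv_neg, inv_inv, neg_neg, ZMod.val_cast_of_lt hi.2]

theorem dvd_inv {l : ℕ} (hl : l.Prime) {i : ℕ} (hi : i ∈ Finset.Ico 1 l) :
    l ∣ i * inv l i + 1 := by
  have := Fact.mk hl
  rw [Finset.mem_Ico] at hi
  have h0 : (i : ZMod l) ≠ 0 := by
    rw [Ne, ZMod.natCast_eq_zero_iff]
    exact Nat.not_dvd_of_pos_of_lt hi.1 hi.2
  rw [← ZMod.natCast_eq_zero_iff]
  unfold inv
  push_cast
  rw [ZMod.natCast_zmod_val, mul_neg, mul_inv_cancel₀ h0, neg_add_cancel]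

theorem NF_S {k : ℤ} {l : ℕ} (hp : l.Prime) (f : ModularForm 𝒮ℒ k) (z w : ℍ)
    (hw : (w : ℂ) = (-(z : ℂ))⁻¹) : NF l f w = (z : ℂ) ^ (k * ((l : ℤ) + 1)) * NF l f z := by
  have hl : l ≠ 0 := hp.ne_zero
  have hl' : (l : ℂ) ≠ 0 := by exact_mod_cast hl
  have hz : (z : ℂ) ≠ 0 := z.ne_zero
  have h1 : f (up l w) = ((z : ℂ) / l) ^ k * f (dn l 0 z) := by
    have := trans f 0 (-1) 1 0 (by ring) (dn l 0 z) (up l w) (by
      rw [coe_up hl, coe_dn hl, hw]; push_cast
      simp only [zero_mul, zero_add, add_zero, one_mul]; field_simp)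
    rw [this, coe_dn hl]
    simp
  have h2 : f (dn l 0 w) = ((l : ℂ) * z) ^ k * f (up l z) := by
    have := trans f 0 (-1) 1 0 (by ring) (up l z) (dn l 0 w) (by
      rw [coe_up hl, coe_dn hl, hw]; push_cast; field_simp; ring)
    rw [this, coe_up hl]
    simp
  have h3 : ∀ i ∈ Finset.Ico 1 l, f (dn l i w) = (z : ℂ) ^ k * f (dn l (inv l i) z) := by
    intro i hi
    obtain ⟨e, he⟩ := dvd_inv hp hi
    have he' : (i : ℤ) * (inv l i : ℤ) + 1 = l * e := by exact_mod_cast he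
    have he'' : (i : ℂ) * (inv l i : ℂ) + 1 = l * e := by exact_mod_cast he
    have hd : ((l : ℤ) : ℂ) * ((dn l (inv l i) z : ℍ) : ℂ) + ((-(inv l i : ℤ) : ℤ) : ℂ) = z := by
      rw [coe_dn hl]; push_cast; field_simp; ring
    have := trans f i (-(e : ℤ)) l (-(inv l i : ℤ)) (by linear_combination -he')
      (dn l (inv l i) z) (dn l i w) (by
        rw [hd, coe_dn hl, coe_dn hl, hw]; push_cast; field_simp
        linear_combination -he'')
    rw [this, hd]
  have hs : ∀ g : ℕ → ℂ, ∏ i ∈ Finset.range l, g i = g 0 * ∏ i ∈ Finset.Ico 1 l, g i := by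
    intro g
    rw [Finset.range_eq_Ico, Finset.prod_eq_prod_Ico_succ_bot hp.pos]
  have h4 : ∏ i ∈ Finset.Ico 1 l, f (dn l (inv l i) z) = ∏ i ∈ Finset.Ico 1 l, f (dn l i z) :=
    Finset.prod_nbij' (inv l) (inv l) (fun _ h => inv_mem hp h) (fun _ h => inv_mem hp h)
      (fun _ h => inv_inv' hp h) (fun _ h => inv_inv' hp h) (fun _ _ => rfl)
  unfold NF
  rw [hs (fun i => f (dn l i w)), hs (fun i => f (dn l i z)), h1, h2, Finset.prod_congr rfl h3,
    Finset.prod_mul_distrib, h4, Finset.prod_const, Nat.card_Ico]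
  have h5 : (z : ℂ) ^ (k * ((l : ℤ) + 1)) =
      ((z : ℂ) / l) ^ k * ((l : ℂ) * z) ^ k * ((z : ℂ) ^ k) ^ (l - 1) := by
    obtain ⟨m, rfl⟩ := Nat.exists_eq_succ_of_ne_zero hl
    rw [← mul_zpow, show (z : ℂ) / (m.succ : ℕ) * (((m.succ : ℕ) : ℂ) * z) = z * z by field_simp,
      mul_zpow, Nat.succ_sub_one, zpow_mul, ← zpow_natCast,
      show ((m.succ : ℕ) : ℤ) + 1 = 1 + 1 + (m : ℤ) by push_cast; ring,
      zpow_add₀ (zpow_ne_zero k hz), zpow_add₀ (zpow_ne_zero k hz), zpow_one]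
  rw [h5]
  ring

theorem NF_slash {k : ℤ} {l : ℕ} (hp : l.Prime) (f : ModularForm 𝒮ℒ k) (γ : SL(2, ℤ)) :
    SlashAction.map (k * ((l : ℤ) + 1)) γ (NF l f) = NF l f := by
  refine SlashInvariantForm.slash_action_generators_SL2Z ?_ ?_ γ
  · funext z
    rw [ModularForm.SL_slash_apply, NF_S hp f z _ (by rw [modular_S_smul]), ModularGroup.denom_S,
      zpow_neg]
    have := zpow_ne_zero (k * ((l : ℤ) + 1)) z.ne_zero
    field_simp
  · funext z
    rw [ModularForm.SL_slash_apply, NF_T hp.ne_zero f z _ (by rw [modular_T_smul]; simp [add_comm])]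
    simp [denom, ModularGroup.T]

theorem NF_holo {k : ℤ} {l : ℕ} (hl : l ≠ 0) (f : ModularForm 𝒮ℒ k) :
    MDifferentiable (modelWithCornersSelf ℂ ℂ) (modelWithCornersSelf ℂ ℂ) (NF l f) := by
  have hf := UpperHalfPlane.mdifferentiable_iff.mp (ModularFormClass.holo f)
  have h0 : (0 : ℝ) < l := by exact_mod_cast Nat.pos_of_ne_zero hl
  rw [UpperHalfPlane.mdifferentiable_iff]
  have h1 : DifferentiableOn ℂ (fun z : ℂ => (f ∘ ofComplex) ((l : ℂ) * z)) {z | 0 < z.im} := by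
    refine hf.comp (by fun_prop) ?_
    intro z hz
    have hz' : 0 < z.im := hz
    simp only [Set.mem_ofPred_eq, Complex.mul_im, Complex.natCast_re, Complex.natCast_im, zero_mul,
      add_zero]
    positivity
  have h2 : ∀ i : ℕ,
      DifferentiableOn ℂ (fun z : ℂ => (f ∘ ofComplex) ((z + i) / l)) {z | 0 < z.im} := by
    intro i
    refine hf.comp (by fun_prop) ?_
    intro z hz
    have hz' : 0 < z.im := hz
    simp only [Set.mem_ofPred_eq]
    rw [Complex.div_natCast_im]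
    simp only [Complex.add_im, Complex.natCast_im, add_zero]
    positivity
  have h3 : DifferentiableOn ℂ (fun z : ℂ => (f ∘ ofComplex) ((l : ℂ) * z) *
      ∏ i ∈ Finset.range l, (f ∘ ofComplex) ((z + i) / l)) {z | 0 < z.im} :=
    h1.mul (DifferentiableOn.fun_finsetProd fun i _ => h2 i)
  refine h3.congr fun z hz => ?_
  simp [NF, up, dn, ofComplex_apply_of_im_pos hz]

/-- `F` is the sum of the power series `a` in the parameter `q_h`. -/
def HQ (h : ℝ) (F : ℍ → ℂ) (a : PowerSeries ℂ) : Prop :=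
  ∀ τ : ℍ, HasSum (fun m => PowerSeries.coeff m a • Periodic.qParam h τ ^ m) (F τ)

theorem HQ_mul {h : ℝ} {F G : ℍ → ℂ} {a b : PowerSeries ℂ} (hF : HQ h F a) (hG : HQ h G b) :
    HQ h (fun τ => F τ * G τ) (a * b) := by
  intro τ
  have s1 := (hF τ).summable.norm
  have s2 := (hG τ).summable.norm
  have s3 := (summable_norm_sum_mul_antidiagonal_of_summable_norm s1 s2).of_norm
  have e := tsum_mul_tsum_eq_tsum_sum_antidiagonal_of_summable_norm s1 s2
  rw [(hF τ).tsum_eq, (hG τ).tsum_eq] at e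
  have s4 := s3.hasSum
  rw [← e] at s4
  have e2 : (fun m => PowerSeries.coeff m (a * b) • Periodic.qParam h τ ^ m) =
      fun n => ∑ kl ∈ Finset.HasAntidiagonal.antidiagonal n,
        (PowerSeries.coeff kl.1 a • Periodic.qParam h τ ^ kl.1) *
          (PowerSeries.coeff kl.2 b • Periodic.qParam h τ ^ kl.2) := by
    funext n
    rw [PowerSeries.coeff_mul, smul_eq_mul, Finset.sum_mul]
    refine Finset.sum_congr rfl fun x hx => ?_
    rw [← Finset.HasAntidiagonal.mem_antidiagonal.mp hx, pow_add, smul_eq_mul, smul_eq_mul]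
    ring
  rw [e2]
  exact s4

theorem HQ_one (h : ℝ) : HQ h (fun _ => 1) 1 := by
  intro τ
  have := hasSum_single (f := fun m => PowerSeries.coeff m (1 : PowerSeries ℂ) •
    Periodic.qParam h τ ^ m) 0 (by
      intro m hm
      simp [PowerSeries.coeff_one, hm])
  simpa using this

theorem HQ_prod {h : ℝ} (s : Finset ℕ) {F : ℕ → ℍ → ℂ} {a : ℕ → PowerSeries ℂ}
    (H : ∀ i, HQ h (F i) (a i)) : HQ h (fun τ => ∏ i ∈ s, F i τ) (∏ i ∈ s, a i) := by
  classical
  induction s using Finset.induction_on with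
  | empty => simpa using HQ_one h
  | insert i s hi ih =>
    simp only [Finset.prod_insert hi]
    exact HQ_mul (H i) ih

theorem hasSum_expand {a : PowerSeries ℂ} {q x : ℂ} {p : ℕ} (hp : p ≠ 0)
    (H : HasSum (fun m => PowerSeries.coeff m a • (q ^ p) ^ m) x) :
    HasSum (fun m => PowerSeries.coeff m (PowerSeries.expand p hp a) • q ^ m) x := by
  have hinj : Injective fun m : ℕ => p * m := mul_right_injective₀ hp
  rw [← hinj.hasSum_iff]
  · have e : ((fun m => PowerSeries.coeff m (PowerSeries.expand p hp a) • q ^ m) ∘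
        fun m : ℕ => p * m) = fun m => PowerSeries.coeff m a • (q ^ p) ^ m := by
      funext m
      simp only [comp_apply, PowerSeries.coeff_expand_mul, pow_mul]
    rw [e]
    exact H
  · intro m hm
    have : ¬ p ∣ m := by
      rintro ⟨c, rfl⟩
      exact hm ⟨c, rfl⟩
    rw [PowerSeries.coeff_expand_of_not_dvd _ _ _ this, zero_smul]

theorem HQ_form {k : ℤ} (f : ModularForm 𝒮ℒ k) : HQ 1 f (qExpansion 1 f) := by
  intro τ
  have : Fact (IsCusp OnePoint.infty 𝒮ℒ) :=
    ⟨(𝒮ℒ).isCusp_of_mem_strictPeriods one_pos one_mem_strictPeriods_SL⟩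
  exact ModularForm.hasSum_qExpansion f one_pos one_mem_strictPeriods_SL τ

theorem HQ_up {k : ℤ} {l : ℕ} (hl : l ≠ 0) (f : ModularForm 𝒮ℒ k) :
    HQ l (fun τ => f (up l τ))
      (PowerSeries.expand (l * l) (Nat.mul_ne_zero hl hl) (qExpansion 1 f)) := by
  intro τ
  have hl' : (l : ℂ) ≠ 0 := by exact_mod_cast hl
  apply hasSum_expand
  have e : Periodic.qParam (l : ℝ) τ ^ (l * l) = Periodic.qParam 1 ((up l τ : ℍ) : ℂ) := by
    rw [coe_up hl, Periodic.qParam, Periodic.qParam, ← Complex.exp_nat_mul]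
    congr 1
    push_cast
    field_simp
  rw [e]
  exact HQ_form f (up l τ)

theorem HQ_dn {k : ℤ} {l : ℕ} (hl : l ≠ 0) (f : ModularForm 𝒮ℒ k) (i : ℕ) :
    HQ l (fun τ => f (dn l i τ))
      (PowerSeries.rescale (Complex.exp (2 * Real.pi * Complex.I / l) ^ i) (qExpansion 1 f)) := by
  intro τ
  have hl' : (l : ℂ) ≠ 0 := by exact_mod_cast hl
  have e : Periodic.qParam 1 ((dn l i τ : ℍ) : ℂ) =
      Complex.exp (2 * Real.pi * Complex.I / l) ^ i * Periodic.qParam (l : ℝ) τ := by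
    rw [coe_dn hl, Periodic.qParam, Periodic.qParam, ← Complex.exp_nat_mul, ← Complex.exp_add]
    congr 1
    push_cast
    field_simp
    ring
  have H := HQ_form f (dn l i τ)
  rw [e] at H
  have e2 : (fun m => PowerSeries.coeff m (PowerSeries.rescale
      (Complex.exp (2 * Real.pi * Complex.I / l) ^ i) (qExpansion 1 f)) •
        Periodic.qParam (l : ℝ) τ ^ m) = fun m => PowerSeries.coeff m (qExpansion 1 f) •
      (Complex.exp (2 * Real.pi * Complex.I / l) ^ i * Periodic.qParam (l : ℝ) τ) ^ m := by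
    funext m
    rw [PowerSeries.coeff_rescale, mul_pow, smul_eq_mul, smul_eq_mul]
    ring
  rw [e2]
  exact H

theorem HQ_expand {k : ℤ} {l : ℕ} (hl : l ≠ 0) (f : ModularForm 𝒮ℒ k) :
    HQ l f (PowerSeries.expand l hl (qExpansion 1 f)) := by
  intro τ
  have hl' : (l : ℂ) ≠ 0 := by exact_mod_cast hl
  apply hasSum_expand
  have e : Periodic.qParam (l : ℝ) τ ^ l = Periodic.qParam 1 (τ : ℂ) := by
    rw [Periodic.qParam, Periodic.qParam, ← Complex.exp_nat_mul]
    congr 1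
    push_cast
    field_simp
  rw [e]
  exact HQ_form f τ

theorem HQ_NF {k : ℤ} {l : ℕ} (hl : l ≠ 0) (f : ModularForm 𝒮ℒ k) :
    HQ l (NF l f) (PowerSeries.expand (l * l) (Nat.mul_ne_zero hl hl) (qExpansion 1 f) *
      ∏ i ∈ Finset.range l, PowerSeries.rescale
        (Complex.exp (2 * Real.pi * Complex.I / l) ^ i) (qExpansion 1 f)) :=
  HQ_mul (HQ_up hl f) (HQ_prod (Finset.range l) (HQ_dn hl f))

/-- The norm as a modular form. -/
def NG {k : ℤ} {l : ℕ} (hp : l.Prime) (f : ModularForm 𝒮ℒ k) :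
    ModularForm 𝒮ℒ (k * ((l : ℤ) + 1)) where
  toFun := NF l f
  slash_action_eq' A hA := by
    obtain ⟨A, rfl⟩ := hA
    exact NF_slash hp f A
  holo' := NF_holo hp.ne_zero f
  bdd_at_cusps' {c} hc := by
    rw [Subgroup.IsArithmetic.isCusp_iff_isCusp_SL2Z] at hc
    rw [OnePoint.isBoundedAt_iff_forall_SL2Z hc]
    intro γ _
    have h0 : (0 : ℝ) < l := by exact_mod_cast hp.pos
    have h1 := isBoundedAtImInfty_of_hasSum_qExpansion h0 (HQ_NF hp.ne_zero f)
    rw [← NF_slash hp f γ] at h1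
    exact h1

end Norm

theorem norm : NormStmt := by
  intro l hl k f
  refine ⟨Norm.NG hl f, fun τ => rfl, ?_⟩
  have h0 : (0 : ℝ) < l := by exact_mod_cast hl.pos
  have hm : (l : ℝ) ∈ (𝒮ℒ).strictPeriods := by
    simpa using AddSubgroup.nsmul_mem _ one_mem_strictPeriods_SL l
  ext m
  rw [ModularFormClass.qExpansion_coeff_unique h0 hm (Norm.HQ_expand hl.ne_zero (Norm.NG hl f)) m]
  exact (ModularFormClass.qExpansion_coeff_unique (f := Norm.NG hl f) h0 hm
    (Norm.HQ_NF hl.ne_zero f) m).symm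

end Pool.Agent.Lib.MP_9177b7_ag.CM
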