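import Pool.Agent.Lib.MP_9177b7_ag.CM.Defs

/-! The Weierstrass function of a superlattice is a rational function of that of the lattice. -/

open Filter Topology Polynomial

noncomputable section

namespace Pool.Agent.Lib.MP_9177b7_ag.CM

namespace Rat

/-- `f` has at `t` a pole of order at most `k`. -/
def Pole (f : ℂ → ℂ) (t : ℂ) (k : ℕ) : Prop :=
  ∃ u : ℂ → ℂ, AnalyticAt ℂ u t ∧ ∀ᶠ z in 𝓝[≠] t, (z - t) ^ k * f z = u z

theorem Pole.mul {f g : ℂ → ℂ} {t : ℂ} {k l : ℕ} (hf : Pole f t k) (hg : Pole g t l) :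
    Pole (fun z => f z * g z) t (k + l) := by
  obtain ⟨u, hu, h1⟩ := hf
  obtain ⟨v, hv, h2⟩ := hg
  refine ⟨fun z => u z * v z, hu.mul hv, ?_⟩
  filter_upwards [h1, h2] with z a b
  rw [← a, ← b]; ring

theorem pole_of_analytic {f : ℂ → ℂ} {t : ℂ} (hf : AnalyticAt ℂ f t) : Pole f t 0 :=
  ⟨f, hf, Eventually.of_forall fun z => by simp⟩

theorem pole_wp (P : PeriodPair) {t : ℂ} (ht : t ∈ P.lattice) : Pole P.weierstrassP t 2 := by
  refine ⟨fun z => (z - t) ^ 2 * P.weierstrassPExcept t z + 1 - (z - t) ^ 2 * (t ^ 2)⁻¹, ?_, ?_⟩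
  · have := P.analyticAt_weierstrassPExcept t
    fun_prop
  · filter_upwards [self_mem_nhdsWithin] with z hz
    have := P.ite_eq_one_sub_sq_mul_weierstrassP t ht z
    rw [if_neg (show z ≠ t from hz)] at this
    rw [this, div_eq_mul_inv]

theorem lim_val {f g : ℂ → ℂ} {t : ℂ} (hg : ContinuousAt g t) (h : ∀ᶠ z in 𝓝[≠] t, f z = g z) :
    limUnder (𝓝[≠] t) f = g t :=
  ((hg.tendsto.mono_left nhdsWithin_le_nhds).congr' (EventuallyEq.symm h)).limUnder_eq

theorem lim_analytic {f : ℂ → ℂ} {t : ℂ} (h : Pole f t 0) :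
    AnalyticAt ℂ (fun z => limUnder (𝓝[≠] z) f) t := by
  obtain ⟨g, hg, h⟩ := h
  have h' : ∀ᶠ z in 𝓝[≠] t, f z = g z := h.mono fun z hz => by simpa using hz
  refine hg.congr ?_
  have h2 : ∀ᶠ z in 𝓝 t, z ≠ t → f z = g z := eventually_nhdsWithin_iff.1 h'
  filter_upwards [h2.eventually_nhds, hg.eventually_analyticAt] with z hz ha
  by_cases e : z = t
  · rw [e]; exact (lim_val hg.continuousAt h').symm
  · refine (lim_val ha.continuousAt (mem_nhdsWithin_of_mem_nhds ?_)).symm
    filter_upwards [hz, isOpen_ne.mem_nhds e] with w h1 h2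
    exact h1 h2

theorem Pole.shift {f : ℂ → ℂ} {t l : ℂ} {k : ℕ} (h : Pole f t k) (hp : ∀ z, f (z + l) = f z) :
    Pole f (t + l) k := by
  obtain ⟨u, hu, h⟩ := h
  refine ⟨fun z => u (z - l), ?_, ?_⟩
  · have : AnalyticAt ℂ u (t + l - l) := by simpa using hu
    exact this.comp (f := fun z => z - l) (by fun_prop)
  · have h2 : ∀ᶠ z in 𝓝 t, z ≠ t → (z - t) ^ k * f z = u z := eventually_nhdsWithin_iff.1 h
    have hc : Tendsto (fun z : ℂ => z - l) (𝓝 (t + l)) (𝓝 t) := by
      have : ContinuousAt (fun z : ℂ => z - l) (t + l) := by fun_prop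
      simpa using this.tendsto
    refine eventually_nhdsWithin_iff.2 ?_
    filter_upwards [hc.eventually h2] with z hz hne
    have := hz fun e => hne (by rw [← e]; simp)
    rw [← this, ← hp (z - l), sub_add_cancel]
    congr 2
    ring

theorem const_of_pole (P : PeriodPair) {f : ℂ → ℂ} (h : ∀ t, Pole f t 0)
    (hp : ∀ l ∈ P.lattice, ∀ z, f (z + l) = f z) :
    ∃ c, ∀ z, ContinuousAt f z → f z = c := by
  have hd : Differentiable ℂ fun z => limUnder (𝓝[≠] z) f :=
    fun z => (lim_analytic (h z)).differentiableAt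
  have hper : ∀ z w, w ∈ P.lattice → limUnder (𝓝[≠] (z + w)) f = limUnder (𝓝[≠] z) f := by
    intro z w hw
    obtain ⟨g, hg, h1⟩ := h z
    have h1' : ∀ᶠ x in 𝓝[≠] z, f x = g x := h1.mono fun z hz => by simpa using hz
    rw [lim_val hg.continuousAt h1']
    have h2 : ∀ᶠ x in 𝓝 z, x ≠ z → f x = g x := eventually_nhdsWithin_iff.1 h1'
    have hc : Tendsto (fun x : ℂ => x - w) (𝓝 (z + w)) (𝓝 z) := by
      have : ContinuousAt (fun x : ℂ => x - w) (z + w) := by fun_prop
      simpa using this.tendsto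
    have h3 : ContinuousAt (fun x => g (x - w)) (z + w) := by
      have : ContinuousAt g (z + w - w) := by simpa using hg.continuousAt
      exact this.comp (f := fun x => x - w) (by fun_prop)
    rw [lim_val h3]
    · simp
    · refine eventually_nhdsWithin_iff.2 ?_
      filter_upwards [hc.eventually h2] with x hx hne
      rw [← hx fun e => hne (by rw [← e]; simp), ← hp w hw (x - w), sub_add_cancel]
  refine ⟨limUnder (𝓝[≠] 0) f, fun z hz => ?_⟩
  rw [← lim_val hz (Eventually.of_forall fun _ => rfl)]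
  exact hd.apply_eq_apply_of_bounded
    (IsZLattice.isCompact_range_of_periodic P.lattice _ hd.continuous hper).isBounded z 0

theorem even_sq {w : ℂ → ℂ} (hw : AnalyticAt ℂ w 0) (h0 : w 0 = 0)
    (he : ∀ᶠ z in 𝓝[≠] (0 : ℂ), w (-z) = w z) :
    ∃ v, AnalyticAt ℂ v 0 ∧ ∀ᶠ z in 𝓝 (0 : ℂ), w z = z ^ 2 * v z := by
  have he' : (fun z => w (-z)) =ᶠ[𝓝 0] w := by
    filter_upwards [eventually_nhdsWithin_iff.1 he] with z hz
    by_cases e : z = 0
    · simp [e]
    · exact hz e
  have hd : deriv w 0 = 0 := by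
    have h1 := he'.deriv_eq
    rw [deriv_comp_neg, neg_zero] at h1
    linear_combination (-1 / 2 : ℂ) * h1
  obtain ⟨v, hv, h⟩ := (natCast_le_analyticOrderAt hw (n := 2)).1
    ((natCast_le_analyticOrderAt_iff_iteratedDeriv_eq_zero hw).2 fun i hi => by
      obtain rfl | rfl : i = 0 ∨ i = 1 := by omega
      · simpa using h0
      · simpa using hd)
  exact ⟨v, hv, h.mono fun z hz => by simpa using hz⟩

theorem key (P : PeriodPair) (S : Set ℂ) (hS : ∀ z, z ∉ S → z ∉ P.lattice) (m : ℕ) :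
    ∀ f : ℂ → ℂ, (∀ t, t ∉ P.lattice → Pole f t 0) → (∀ z, z ∉ S → ContinuousAt f z) →
      (∀ z, f (-z) = f z) → (∀ l ∈ P.lattice, ∀ z, f (z + l) = f z) → Pole f 0 (2 * m) →
      ∃ A : ℂ[X], ∀ z, z ∉ S → f z = A.eval (P.weierstrassP z) := by
  induction m with
  | zero =>
    intro f h1 h2 _ h4 h5
    obtain ⟨c, hc⟩ := const_of_pole P (f := f) (fun t => by
      by_cases ht : t ∈ P.lattice
      · simpa using h5.shift (h4 t ht)
      · exact h1 t ht) h4
    exact ⟨C c, fun z hz => by rw [eval_C]; exact hc z (h2 z hz)⟩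
  | succ m ih =>
    intro f h1 h2 h3 h4 h5
    obtain ⟨u, hu, e1⟩ := h5
    obtain ⟨φ, hφ, e2, φ0⟩ : ∃ φ : ℂ → ℂ, AnalyticAt ℂ φ 0 ∧
        (∀ z, z ≠ 0 → z ^ 2 * P.weierstrassP z = φ z) ∧ φ 0 = 1 := by
      refine ⟨fun z => z ^ 2 * P.weierstrassPExcept 0 z + 1, ?_, fun z hz => ?_, by simp⟩
      · have := P.analyticAt_weierstrassPExcept 0
        fun_prop
      · have := P.ite_eq_one_sub_sq_mul_weierstrassP 0 (zero_mem _) z
        rw [if_neg hz] at this
        simpa using this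
    have e3 : ∀ᶠ z in 𝓝[≠] (0 : ℂ), u z - u 0 * φ z ^ (m + 1) =
        z ^ (2 * (m + 1)) * (f z - u 0 * P.weierstrassP z ^ (m + 1)) := by
      filter_upwards [e1, self_mem_nhdsWithin] with z hz hne
      rw [← hz, ← e2 z hne, sub_zero]; ring
    have hneg : Tendsto (fun z : ℂ => -z) (𝓝[≠] 0) (𝓝[≠] 0) := by
      refine tendsto_nhdsWithin_iff.2 ⟨?_, ?_⟩
      · have : ContinuousAt (fun z : ℂ => -z) 0 := by fun_prop
        simpa using this.tendsto.mono_left nhdsWithin_le_nhds
      · filter_upwards [self_mem_nhdsWithin] with z hz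
        simpa using hz
    obtain ⟨v, hv, e4⟩ := even_sq (w := fun z => u z - u 0 * φ z ^ (m + 1)) (by fun_prop)
      (by simp [φ0]) (by
        filter_upwards [e3, hneg.eventually e3] with z a b
        rw [a, b, h3, P.weierstrassP_neg, Even.neg_pow ⟨m + 1, by ring⟩])
    have an : ∀ t, t ∉ P.lattice → AnalyticAt ℂ P.weierstrassP t :=
      fun t ht => P.analyticOnNhd_weierstrassP t ht
    have k := ih (fun z => f z - u 0 * P.weierstrassP z ^ (m + 1)) (fun t ht => ?_)
      (fun z hz => ?_) (fun z => ?_) (fun l hl z => ?_) ⟨v, hv, ?_⟩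
    · obtain ⟨A, hA⟩ := k
      refine ⟨A + C (u 0) * X ^ (m + 1), fun z hz => ?_⟩
      rw [eval_add, ← hA z hz]; simp
    · obtain ⟨g, hg, e⟩ := h1 t ht
      have := an t ht
      refine ⟨fun z => g z - u 0 * P.weierstrassP z ^ (m + 1), by fun_prop, ?_⟩
      filter_upwards [e] with z hz
      rw [← hz]; ring
    · have := (an z (hS z hz)).continuousAt
      have := h2 z hz
      fun_prop
    · simp only [h3, P.weierstrassP_neg]
    · have := P.weierstrassP_add_coe z ⟨l, hl⟩
      simp only [h4 l hl] at this ⊢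
      rw [this]
    · filter_upwards [e3, mem_nhdsWithin_of_mem_nhds e4, self_mem_nhdsWithin] with z a b hne
      have hz : z ^ 2 ≠ 0 := pow_ne_zero 2 hne
      apply mul_left_cancel₀ hz
      rw [← b, a, sub_zero]; ring

theorem finite_vals (P P' : PeriodPair) (h : P.lattice ≤ P'.lattice) :
    (P.weierstrassP '' (P'.lattice : Set ℂ)).Finite := by
  have hf := ZSpan.setFinite_inter P'.basis
    (Metric.isBounded_closedBall (x := (0 : ℂ)) (r := ∑ i, ‖P.basis i‖))
  rw [← P'.lattice_eq_span_range_basis] at hf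
  refine (hf.image P.weierstrassP).subset ?_
  rintro _ ⟨t, ht, rfl⟩
  have hl : ((ZSpan.floor P.basis t : ℂ)) ∈ P.lattice := by
    rw [P.lattice_eq_span_range_basis]; exact (ZSpan.floor P.basis t).2
  refine ⟨ZSpan.fract P.basis t, ⟨?_, ?_⟩, ?_⟩
  · rw [mem_closedBall_zero_iff]; exact ZSpan.norm_fract_le P.basis t
  · rw [ZSpan.fract_apply]; exact sub_mem ht (h hl)
  · rw [ZSpan.fract_apply]; exact P.weierstrassP_sub_coe t ⟨_, hl⟩

theorem pole_prod (P : PeriodPair) (T : Finset ℂ) :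
    Pole (fun z => ∏ v ∈ T, (P.weierstrassP z - v) ^ 2) 0 (2 * (2 * T.card)) := by
  have h1 : ∀ v : ℂ, Pole (fun z => P.weierstrassP z - v) 0 2 := by
    intro v
    obtain ⟨u, hu, e⟩ := pole_wp P (zero_mem P.lattice)
    refine ⟨fun z => u z - z ^ 2 * v, by fun_prop, ?_⟩
    filter_upwards [e] with z hz
    rw [← hz]; ring
  induction T using Finset.induction_on with
  | empty => simpa using pole_of_analytic (f := fun _ => (1 : ℂ)) analyticAt_const
  | insert v T hv ih =>
    have := ((h1 v).mul (h1 v)).mul ih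
    rw [Finset.card_insert_of_notMem hv,
      show 2 * (2 * (T.card + 1)) = 2 + 2 + 2 * (2 * T.card) by ring]
    simp only [Finset.prod_insert hv, pow_two] at this ⊢
    exact this

end Rat

open Rat in
theorem rat : RatStmt := by
  intro P P' h
  obtain ⟨T, hT⟩ : ∃ T : Finset ℂ, ∀ t ∈ P'.lattice, P.weierstrassP t ∈ T :=
    ⟨(finite_vals P P' h).toFinset, fun t ht => by
      rw [Set.Finite.mem_toFinset]; exact ⟨t, ht, rfl⟩⟩
  have an : ∀ t, t ∉ P.lattice → ∀ T : Finset ℂ,
      AnalyticAt ℂ (fun z => ∏ v ∈ T, (P.weierstrassP z - v) ^ 2) t := by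
    intro t ht T
    have := P.analyticOnNhd_weierstrassP t ht
    exact Finset.analyticAt_fun_prod T fun v _ => by fun_prop
  have an2 : ∀ t, t ∉ P'.lattice → AnalyticAt ℂ
      (fun z => (∏ v ∈ T, (P.weierstrassP z - v) ^ 2) * P'.weierstrassP z) t :=
    fun t ht => (an t (fun e => ht (h e)) T).mul (P'.analyticOnNhd_weierstrassP t ht)
  have k := key P P'.lattice (fun z hz e => hz (h e)) (2 * T.card + 1)
    (fun z => (∏ v ∈ T, (P.weierstrassP z - v) ^ 2) * P'.weierstrassP z) (fun t ht => ?_)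
    (fun z hz => (an2 z hz).continuousAt) (fun z => by simp) (fun l hl z => ?_) ?_
  · obtain ⟨A, hA⟩ := k
    refine ⟨A, ∏ v ∈ T, (X - C v) ^ 2, ?_, fun z hz => ?_⟩
    · exact Finset.prod_ne_zero_iff.2 fun v _ => pow_ne_zero 2 (X_sub_C_ne_zero v)
    · rw [← hA z hz, eval_prod]
      simp
  · by_cases ht' : t ∈ P'.lattice
    · have hw := P.analyticOnNhd_weierstrassP t ht
      obtain ⟨g, hg, e⟩ := (natCast_le_analyticOrderAt
        (f := fun z => P.weierstrassP z - P.weierstrassP t) (z₀ := t) (by fun_prop) (n := 1)).1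
        ((natCast_le_analyticOrderAt_iff_iteratedDeriv_eq_zero (by fun_prop)).2 fun i hi => by
          obtain rfl : i = 0 := by omega
          simp)
      obtain ⟨ψ, hψ, e'⟩ := pole_wp P' ht'
      have h3 := an t ht (T.erase (P.weierstrassP t))
      refine ⟨fun z => g z ^ 2 * (∏ v ∈ T.erase (P.weierstrassP t), (P.weierstrassP z - v) ^ 2) *
        ψ z, by fun_prop, ?_⟩
      filter_upwards [e', mem_nhdsWithin_of_mem_nhds e] with z a b
      rw [← Finset.mul_prod_erase T _ (hT t ht'), b, ← a]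
      simp only [smul_eq_mul]
      ring
    · exact pole_of_analytic (an2 t ht')
  · have a := P.weierstrassP_add_coe z ⟨l, hl⟩
    have b := P'.weierstrassP_add_coe z ⟨l, h hl⟩
    simp only at a b ⊢
    rw [a, b]
  · exact (pole_prod P T).mul (pole_wp P' (zero_mem _))

end Pool.Agent.Lib.MP_9177b7_ag.CM
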