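import Pool.Agent.Lib.MP_9177b7_ag.CM.Main4
import Pool.Agent.Lib.MP_9177b7_ag.CM.Lat
import Pool.Agent.Lib.MP_9177b7_ag.CM.Eis
import Pool.Agent.Lib.MP_9177b7_ag.CM.Rat
import Pool.Agent.Lib.MP_9177b7_ag.CM.Mono
import Pool.Agent.Lib.MP_9177b7_ag.CM.Frob
import Pool.Agent.Lib.MP_9177b7_ag.CM.Norm
import Pool.Agent.Lib.MP_9177b7_ag.CM.Kron
import Pool.Agent.Lib.MP_9177b7_ag.CM.Ideal

/-!
Complex multiplication: all the pieces hold.
-/

namespace Pool.Agent.Lib.MP_9177b7_ag.CM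

theorem hyp : Hyp := ⟨lat, eis, mono rat, ext, frob, kron struct norm, ideal⟩

end Pool.Agent.Lib.MP_9177b7_ag.CM
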