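import Mathlib

/-!
Complex multiplication for the modular invariant: definitions and the statements of the pieces.
-/

open UpperHalfPlane Pointwise
open scoped MatrixGroups

noncomputable section

namespace Pool.Agent.Lib.MP_9177b7_ag.CM

/-- Klein's modular invariant `j = E₄ ^ 3 / Δ` on the upper half plane. -/
def jH (τ : ℍ) : ℂ := ModularForm.E₄ τ ^ 3 / ModularForm.discriminant τ

/-- A lattice of `ℂ`: the `ℤ`-span of two `ℝ`-independent numbers. -/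
def IsLat (L : Submodule ℤ ℂ) : Prop := ∃ P : PeriodPair, P.lattice = L

/-- The Eisenstein sum of weight `n` of a lattice. -/
def Gs (L : Submodule ℤ ℂ) (n : ℕ) : ℂ := ∑' l : L, ((l : ℂ) ^ n)⁻¹

def g2 (L : Submodule ℤ ℂ) : ℂ := 60 * Gs L 4

def g3 (L : Submodule ℤ ℂ) : ℂ := 140 * Gs L 6

def dis (L : Submodule ℤ ℂ) : ℂ := g2 L ^ 3 - 27 * g3 L ^ 2

/-- The modular invariant of a lattice. -/
def jL (L : Submodule ℤ ℂ) : ℂ := 1728 * g2 L ^ 3 / dis L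

/-- The lattice `ℤ x + ℤ y`. -/
def sp (x y : ℂ) : Submodule ℤ ℂ := Submodule.span ℤ {x, y}

/-- `M` is the conjugate of the lattice `L` by `σ`. -/
def Conj (σ : ℂ →+* ℂ) (L M : Submodule ℤ ℂ) : Prop :=
  IsLat L ∧ IsLat M ∧ σ (g2 L) = g2 M ∧ σ (g3 L) = g3 M

/-- The Taylor series at `0`. -/
def tay (f : ℂ → ℂ) : PowerSeries ℂ :=
  PowerSeries.mk fun n => ((n.factorial : ℂ))⁻¹ * iteratedDeriv n f 0

/-- The point `a τ` of the upper half plane, for a positive integer `a`. -/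
def up (a : ℕ) (τ : ℍ) : ℍ := ofComplex ((a : ℂ) * τ)

/-- The point `(τ + i) / a` of the upper half plane, for a positive integer `a`. -/
def dn (a i : ℕ) (τ : ℍ) : ℍ := ofComplex (((τ : ℂ) + i) / a)

/-! ### Statements of the pieces -/

/-- Basic facts on lattices. -/
def LatStmt : Prop :=
  (∀ τ : ℍ, IsLat (sp τ 1)) ∧
  (∀ (L : Submodule ℤ ℂ) (c : ℂ), IsLat L → c ≠ 0 → IsLat (c • L)) ∧
  (∀ (L : Submodule ℤ ℂ) (c : ℂ) (n : ℕ), c ≠ 0 → Gs (c • L) n = (c ^ n)⁻¹ * Gs L n) ∧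
  (∀ L : Submodule ℤ ℂ, IsLat L →
    ∃ (τ : ℍ) (c : ℂ), c ≠ 0 ∧ τ ∈ ModularGroup.fd ∧ L = c • sp τ 1) ∧
  (∀ L X M : Submodule ℤ ℂ, IsLat L → IsLat M → L ≤ X → X ≤ M → IsLat X) ∧
  (∀ (L : Submodule ℤ ℂ), IsLat L → IsLat (L.map (starRingEnd ℂ).toIntAlgHom.toLinearMap) ∧
    ∀ n, Gs (L.map (starRingEnd ℂ).toIntAlgHom.toLinearMap) n = starRingEnd ℂ (Gs L n)) ∧
  (∀ (τ τ' : ℍ) (c : ℂ), c ≠ 0 → sp τ' 1 = c • sp τ 1 → ∃ γ : SL(2, ℤ), τ' = γ • τ) ∧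
  (∀ (l : ℕ) (τ : ℍ) (X : Submodule ℤ ℂ), l.Prime → (l : ℂ) • sp τ 1 < X → X < sp τ 1 →
    X = sp (up l τ) 1 ∨ ∃ i < l, X = (l : ℂ) • sp (dn l i τ) 1) ∧
  (∀ ω : ℂ, ω.im ≠ 0 → {τ : ℍ | τ ∈ ModularGroup.fd ∧ ω • sp τ 1 ≤ sp τ 1}.Finite)

/-- Lattice sums against Mathlib's modular forms, and the surjectivity of `j`. -/
def EisStmt : Prop :=
  (∀ τ : ℍ, g2 (sp τ 1) = 4 * (Real.pi : ℂ) ^ 4 / 3 * ModularForm.E₄ τ) ∧
  (∀ τ : ℍ, g3 (sp τ 1) = 8 * (Real.pi : ℂ) ^ 6 / 27 * ModularForm.E₆ τ) ∧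
  (∀ τ : ℍ, dis (sp τ 1) = (2 * (Real.pi : ℂ)) ^ 12 * ModularForm.discriminant τ) ∧
  (∀ τ : ℍ, jL (sp τ 1) = jH τ) ∧
  (∀ (γ : SL(2, ℤ)) (τ : ℍ), jH (γ • τ) = jH τ) ∧
  Continuous jH ∧
  Filter.Tendsto (fun τ => ‖jH τ‖) atImInfty Filter.atTop ∧
  Function.Surjective jH

/-- The Weierstrass function of a superlattice is a rational function of that of the lattice. -/
def RatStmt : Prop :=
  ∀ P P' : PeriodPair, P.lattice ≤ P'.lattice → ∃ A B : Polynomial ℂ, B ≠ 0 ∧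
    ∀ z : ℂ, z ∉ P'.lattice →
      B.eval (P.weierstrassP z) * P'.weierstrassP z = A.eval (P.weierstrassP z)

/-- Conjugation of lattices is monotone. -/
def MonoStmt : Prop :=
  ∀ (σ : ℂ →+* ℂ) (L L' M M' : Submodule ℤ ℂ), Conj σ L M → Conj σ L' M' → L ≤ L' → M ≤ M'

/-- Two embeddings of a countable ring differ by an automorphism of `ℂ`. -/
def ExtStmt : Prop :=
  ∀ (R : Type) [CommRing R] [Countable R] (f g : R →+* ℂ), Function.Injective f →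
    Function.Injective g → ∃ σ : ℂ ≃+* ℂ, ∀ x, σ (f x) = g x

/-- Frobenius automorphisms. -/
def FrobStmt : Prop :=
  ∀ J : Set ℂ, J.Finite → (∀ x ∈ J, IsAlgebraic ℚ x) → ∃ M : ℕ, M ≠ 0 ∧
    ∀ l : ℕ, l.Prime → ¬ l ∣ M → ∀ ζ : ℂ, ζ ^ l = 1 →
      ∃ (σ : ℂ ≃+* ℂ) (A : Subring ℂ) (P : AddSubgroup ℂ),
        (∀ a ∈ A, ∀ x ∈ P, a * x ∈ P) ∧ (∀ a ∈ A, ∀ b ∈ A, a * b ∈ P → a ∈ P ∨ b ∈ P) ∧
        (∀ x ∈ J, x ∈ A) ∧ ζ ∈ A ∧ (6 : ℂ)⁻¹ ∈ A ∧ (l : ℂ) ∈ P ∧ 1 - ζ ∈ P ∧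
        (∀ x ∈ J, σ x - x ^ l ∈ P) ∧ (∀ x ∈ J, ∀ y ∈ J, x - y ∈ P → x = y)

/-- The `q`-expansion principle in level one. -/
def StructStmt : Prop :=
  ∀ (A : Subring ℂ) (P : AddSubgroup ℂ), (∀ a ∈ A, ∀ x ∈ P, a * x ∈ P) → (6 : ℂ)⁻¹ ∈ A →
    ∀ (m : ℕ) (f : ModularForm 𝒮ℒ (12 * (m : ℤ))),
      (∀ n, PowerSeries.coeff n (qExpansion 1 f) ∈ P) →
      ∀ τ : ℍ, jH τ ∈ A → f τ / ModularForm.discriminant τ ^ m ∈ P

/-- The multiplicative Hecke operator and its `q`-expansion. -/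
def NormStmt : Prop :=
  ∀ (l : ℕ) (hl : l.Prime) (k : ℤ) (f : ModularForm 𝒮ℒ k),
    ∃ G : ModularForm 𝒮ℒ (k * ((l : ℤ) + 1)),
      (∀ τ : ℍ, G τ = f (up l τ) * ∏ i ∈ Finset.range l, f (dn l i τ)) ∧
      PowerSeries.expand l hl.ne_zero (qExpansion 1 G) =
        PowerSeries.expand (l * l) (Nat.mul_ne_zero hl.ne_zero hl.ne_zero) (qExpansion 1 f) *
          ∏ i ∈ Finset.range l, PowerSeries.rescale
            (Complex.exp (2 * Real.pi * Complex.I / l) ^ i) (qExpansion 1 f)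

/-- Kronecker's congruence. -/
def KronStmt : Prop :=
  ∀ (l : ℕ), l.Prime → ∀ (A : Subring ℂ) (P : AddSubgroup ℂ), (∀ a ∈ A, ∀ x ∈ P, a * x ∈ P) →
    Complex.exp (2 * Real.pi * Complex.I / l) ∈ A → (6 : ℂ)⁻¹ ∈ A → (l : ℂ) ∈ P →
    1 - Complex.exp (2 * Real.pi * Complex.I / l) ∈ P →
    ∀ (τ : ℍ) (x : ℂ), jH τ ∈ A → x ∈ A → (x = jH (up l τ) ∨ ∃ i < l, x = jH (dn l i τ)) →
      (x - jH τ ^ l) * (x ^ l - jH τ) ∈ P

/-- Invertible modules over a quadratic order are generated by primes of degree one outside any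
finite set. -/
def IdealStmt : Prop :=
  ∀ (ω : ℂ) (t n : ℤ), ω ^ 2 = t * ω - n → ω.im ≠ 0 → ∀ (M : ℕ), M ≠ 0 →
    ∀ H : Submodule ℤ ℂ → Prop, H (sp 1 ω) → (∀ A B, H A → H B → H (A * B)) →
      (∀ (c : ℂ) A, c ≠ 0 → H A → H (c • A)) →
      (∀ (l : ℕ) (r : ℤ), l.Prime → ¬ l ∣ M → (l : ℤ) ∣ r ^ 2 - t * r + n → H (sp l (ω - r))) →
      ∀ A B : Submodule ℤ ℂ, A * B = sp 1 ω → sp 1 ω * A = A → H A

end Pool.Agent.Lib.MP_9177b7_ag.CM
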