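import Pool.Agent.Lib.MP_9177b7_ag.CM.Main1

/-!
Complex multiplication: the main theorem, given the pieces.
-/

open UpperHalfPlane Pointwise
open scoped MatrixGroups

noncomputable section

namespace Pool.Agent.Lib.MP_9177b7_ag.CM

theorem isLat_ord {ω : ℂ} (him : ω.im ≠ 0) : IsLat (sp 1 ω) := by
  refine ⟨⟨1, ω, LinearIndependent.pair_iff.2 fun s t hst => ?_⟩, rfl⟩
  have h1 := congrArg Complex.im hst
  have h2 := congrArg Complex.re hst
  simp at h1 h2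
  rcases h1 with h1 | h1
  · subst h1; simpa using h2
  · exact absurd h1 him

theorem ord_mul_eq_iff {ω : ℂ} {L : Submodule ℤ ℂ} : sp 1 ω * L = L ↔ ω • L ≤ L := by
  rw [sp_mul, one_smul, sup_eq_left]

theorem IsLat.exists_sp {L : Submodule ℤ ℂ} (hL : IsLat L) : ∃ x y : ℂ, L = sp x y ∧
    ∀ a b : ℝ, a * x + b * y = 0 → a = 0 ∧ b = 0 := by
  obtain ⟨P, rfl⟩ := hL
  refine ⟨P.ω₁, P.ω₂, rfl, fun a b hab => LinearIndependent.pair_iff.1 P.indep a b ?_⟩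
  simpa using hab

theorem IsLat.exists_ne_zero {L : Submodule ℤ ℂ} (hL : IsLat L) : ∃ x ∈ L, x ≠ 0 := by
  obtain ⟨x, y, rfl, hxy⟩ := hL.exists_sp
  refine ⟨x, left_mem_sp x y, ?_⟩
  rintro rfl
  simpa using (hxy 1 0 (by simp)).1

section

variable {ω : ℂ} {t n : ℤ}

theorem smul_ord_le (hω : ω ^ 2 = t * ω - n) : ω • sp 1 ω ≤ sp 1 ω := by
  rw [smul_sp, sp_le]
  exact ⟨mem_sp.2 ⟨0, 1, by simp⟩, mem_sp.2 ⟨-n, t, by push_cast; linear_combination -hω⟩⟩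

theorem ord_mul_ord (hω : ω ^ 2 = t * ω - n) : sp 1 ω * sp 1 ω = sp 1 ω :=
  ord_mul_eq_iff.2 (smul_ord_le hω)

theorem map_omega (hω : ω ^ 2 = t * ω - n) (σ : ℂ →+* ℂ) : σ ω = ω ∨ σ ω = t - ω := by
  have h1 := congrArg σ hω
  simp only [map_pow, map_sub, map_mul, map_intCast] at h1
  have : (σ ω - ω) * (σ ω - (t - ω)) = 0 := by linear_combination h1 - hω
  rcases mul_eq_zero.1 this with h2 | h2
  · exact Or.inl (sub_eq_zero.1 h2)
  · exact Or.inr (sub_eq_zero.1 h2)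

theorem smul_le_of_conj {L : Submodule ℤ ℂ} (hL : ((t : ℂ) - ω) • L ≤ L) : ω • L ≤ L := by
  intro z hz
  obtain ⟨y, hy, rfl⟩ := mem_smul_iff.1 hz
  have h1 : ((t : ℂ) - ω) * y ∈ L := hL (mem_smul_iff.2 ⟨y, hy, rfl⟩)
  have h2 : (t : ℂ) * y ∈ L := by simpa using L.smul_mem t hy
  have := L.sub_mem h2 h1
  rwa [show (t : ℂ) * y - ((t : ℂ) - ω) * y = ω * y by ring] at this

/-- The invariants of the lattices with multiplication by `ω`. -/
def Jset (ω : ℂ) : Set ℂ := {x | ∃ L, IsLat L ∧ ω • L ≤ L ∧ x = jL L}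

namespace Hyp

variable (h : Hyp)
include h

theorem conj_smul_le (hω : ω ^ 2 = t * ω - n) (him : ω.im ≠ 0) {σ : ℂ →+* ℂ}
    {L M : Submodule ℤ ℂ} (hc : Conj σ L M) (hL : ω • L ≤ L) : ω • M ≤ M := by
  have hω0 : ω ≠ 0 := by rintro rfl; simp at him
  have h1 := h.conj_mono (h.conj_smul hc hω0) hc hL
  rcases map_omega hω σ with e | e
  · rwa [e] at h1
  · rw [e] at h1; exact smul_le_of_conj h1

theorem conj_eq_mul (him : ω.im ≠ 0) {σ : ℂ ≃+* ℂ} (hσ : σ ω = ω)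
    {A L M : Submodule ℤ ℂ} (hA : Conj (σ : ℂ →+* ℂ) (sp 1 ω) A) (hL : ω • L ≤ L)
    (hM : Conj (σ : ℂ →+* ℂ) L M) : ∃ c : ℂ, c ≠ 0 ∧ M = c • (A * L) := by
  obtain ⟨x, y, rfl, hxy⟩ := hM.1.exists_sp
  have hx : x ≠ 0 := by
    rintro rfl
    simpa using (hxy 1 0 (by simp)).1
  have hy : y ≠ 0 := by
    rintro rfl
    simpa using (hxy 0 1 (by simp)).2
  have e1 : sp x y = x • sp 1 ω ⊔ y • sp 1 ω := by
    rw [← sp_mul, mul_comm, ord_mul_eq_iff.2 hL]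
  have e2 : M = σ x • A ⊔ σ y • A :=
    h.conj_sup (h.conj_smul hA hx) (h.conj_smul hA hy) (e1 ▸ hM)
  obtain ⟨a, b, hab⟩ := mem_sp.1 (hL (mem_smul_iff.2 ⟨x, left_mem_sp x y, rfl⟩))
  have hb : (b : ℂ) ≠ 0 := by
    intro hb
    rw [hb, zero_mul, add_zero] at hab
    have : ω = a := (mul_right_cancel₀ hx hab).symm
    rw [this] at him
    simp at him
  have hab' := congrArg σ hab
  simp only [map_add, map_mul, map_intCast, hσ] at hab'
  have e3 : σ y = σ x / x * y := by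
    field_simp
    apply mul_left_cancel₀ hb
    linear_combination x * hab' - σ x * hab
  refine ⟨σ x / x, div_ne_zero (by simpa using hx) hx, ?_⟩
  rw [mul_comm, sp_mul, Submodule.smul_sup', smul_smul, smul_smul, ← e3, div_mul_cancel₀ _ hx]
  exact e2

/-- Every automorphism fixing `ω` acts as an invertible ideal. -/
theorem cm_of_aut (hω : ω ^ 2 = t * ω - n) (him : ω.im ≠ 0) (σ : ℂ ≃+* ℂ) (hσ : σ ω = ω) :
    ∃ A B : Submodule ℤ ℂ, A ≤ sp 1 ω ∧ IsLat A ∧ A * B = sp 1 ω ∧ sp 1 ω * A = A ∧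
      ∀ L, IsLat L → sp 1 ω * L = L → IsLat (A * L) ∧ σ (jL L) = jL (A * L) := by
  obtain ⟨A, hA⟩ := h.exists_conj (σ : ℂ →+* ℂ) (isLat_ord him)
  obtain ⟨B, hB⟩ := h.exists_conj (σ.symm : ℂ →+* ℂ) (isLat_ord him)
  have hAω : ω • A ≤ A := h.conj_smul_le hω him hA (smul_ord_le hω)
  have hσ' : σ.symm ω = ω := by rw [RingEquiv.symm_apply_eq, hσ]
  obtain ⟨c, hc, e⟩ := h.conj_eq_mul him hσ' hB hAω hA.symm
  obtain ⟨b, hb, hb0⟩ := hB.2.1.exists_ne_zero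
  have hcb : c * b ≠ 0 := mul_ne_zero hc hb0
  refine ⟨(c * b) • A, b⁻¹ • B, ?_, h.isLat_smul hA.2.1 hcb, ?_, ?_, fun L hL hL' => ?_⟩
  · rw [e, mul_smul]
    apply smul_le_smul
    rw [← Submodule.span_singleton_mul]
    exact mul_le_mul_left ((Submodule.span_singleton_le_iff_mem b B).2 hb) A
  · rw [smul_mul_left, smul_mul_right, smul_smul, mul_assoc, mul_inv_cancel₀ hb0, mul_one,
      mul_comm A B]
    exact e.symm
  · rw [smul_mul_right, ord_mul_eq_iff.2 hAω]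
  · obtain ⟨M, hM⟩ := h.exists_conj (σ : ℂ →+* ℂ) hL
    obtain ⟨d, hd, e'⟩ := h.conj_eq_mul him hσ hA (ord_mul_eq_iff.1 hL') hM
    have e'' : A * L = d⁻¹ • M := by rw [e', smul_smul, inv_mul_cancel₀ hd, one_smul]
    rw [smul_mul_left, e'']
    refine ⟨h.isLat_smul (h.isLat_smul hM.2.1 (inv_ne_zero hd)) hcb, ?_⟩
    rw [h.jL_smul _ hcb, h.jL_smul _ (inv_ne_zero hd)]
    exact hM.jL

theorem finite_Jset (him : ω.im ≠ 0) : (Jset ω).Finite := by
  refine ((h.lat.2.2.2.2.2.2.2.2 ω him).image jH).subset ?_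
  rintro x ⟨L, hL, hω, rfl⟩
  obtain ⟨τ, c, hc, hτ, rfl⟩ := h.exists_fd hL
  refine ⟨τ, ⟨hτ, ?_⟩, by rw [h.jL_smul _ hc, h.jL_sp]⟩
  have := smul_le_smul c⁻¹ hω
  rwa [smul_smul, smul_smul, smul_smul, inv_mul_cancel₀ hc, one_smul,
    show c⁻¹ * ω * c = ω by field_simp] at this

theorem map_mem_Jset (hω : ω ^ 2 = t * ω - n) (him : ω.im ≠ 0) (σ : ℂ →+* ℂ) {x : ℂ}
    (hx : x ∈ Jset ω) : σ x ∈ Jset ω := by
  obtain ⟨L, hL, hL', rfl⟩ := hx
  obtain ⟨M, hM⟩ := h.exists_conj σ hL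
  exact ⟨M, hM.2.1, h.conj_smul_le hω him hM hL', hM.jL⟩

theorem isAlgebraic_of_mem_Jset (hω : ω ^ 2 = t * ω - n) (him : ω.im ≠ 0) {x : ℂ}
    (hx : x ∈ Jset ω) : IsAlgebraic ℚ x := by
  by_contra hx'
  have htr : Transcendental ℚ x := hx'
  have key : ∀ m : ℕ, x + m ∈ Jset ω := by
    intro m
    have htr' : Transcendental ℚ (x + m) := by
      intro ha
      apply hx'
      have hm : IsAlgebraic ℚ (m : ℂ) := isAlgebraic_natCast m
      simpa using ha.sub hm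
    have : Countable (Polynomial ℚ) :=
      Cardinal.mk_le_aleph0_iff.1 (Polynomial.cardinalMk_le_max.trans (by simp))
    obtain ⟨σ, hσ⟩ := h.ext (Polynomial ℚ) (Polynomial.aeval x).toRingHom
      (Polynomial.aeval (x + m)).toRingHom (transcendental_iff_injective.1 htr)
      (transcendental_iff_injective.1 htr')
    have h1 := hσ Polynomial.X
    simp at h1
    rw [← h1]
    exact h.map_mem_Jset hω him (σ : ℂ →+* ℂ) hx
  refine Set.infinite_of_injective_forall_mem (f := fun m : ℕ => x + m) ?_ key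
    (h.finite_Jset him)
  intro a b hab
  simpa using hab

end Hyp

end

end Pool.Agent.Lib.MP_9177b7_ag.CM
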