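import Pool.Agent.Lib.MP_9177b7_ag.CM.Defs

/-!
Complex multiplication: the action of automorphisms of `ℂ` on lattices.
-/

open UpperHalfPlane Pointwise
open scoped MatrixGroups

noncomputable section

namespace Pool.Agent.Lib.MP_9177b7_ag.CM

/-- All the pieces. -/
structure Hyp : Prop where
  lat : LatStmt
  eis : EisStmt
  mono : MonoStmt
  ext : ExtStmt
  frob : FrobStmt
  kron : KronStmt
  ideal : IdealStmt

theorem mem_smul_iff {L : Submodule ℤ ℂ} {c x : ℂ} : x ∈ c • L ↔ ∃ y ∈ L, c * y = x := by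
  simpa [smul_eq_mul] using Submodule.mem_smul_pointwise_iff_exists x c L

theorem mem_sp {x y z : ℂ} : z ∈ sp x y ↔ ∃ a b : ℤ, a * x + b * y = z := by
  simp only [sp, Submodule.mem_span_pair, zsmul_eq_mul]

theorem left_mem_sp (x y : ℂ) : x ∈ sp x y := mem_sp.2 ⟨1, 0, by simp⟩

theorem right_mem_sp (x y : ℂ) : y ∈ sp x y := mem_sp.2 ⟨0, 1, by simp⟩

theorem sp_le {x y : ℂ} {L : Submodule ℤ ℂ} : sp x y ≤ L ↔ x ∈ L ∧ y ∈ L := by
  simp [sp, Submodule.span_le, Set.insert_subset_iff]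

theorem sp_comm (x y : ℂ) : sp x y = sp y x := by
  simp [sp, Set.pair_comm]

theorem smul_sp (c x y : ℂ) : c • sp x y = sp (c * x) (c * y) := by
  ext z
  simp only [mem_smul_iff, mem_sp]
  constructor
  · rintro ⟨w, ⟨a, b, rfl⟩, rfl⟩
    exact ⟨a, b, by ring⟩
  · rintro ⟨a, b, rfl⟩
    exact ⟨_, ⟨a, b, rfl⟩, by ring⟩

theorem smul_mul_left (c : ℂ) (A B : Submodule ℤ ℂ) : (c • A) * B = c • (A * B) := by
  rw [← Submodule.span_singleton_mul, ← Submodule.span_singleton_mul, mul_assoc]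

theorem smul_mul_right (c : ℂ) (A B : Submodule ℤ ℂ) : A * (c • B) = c • (A * B) := by
  rw [mul_comm, smul_mul_left, mul_comm]

theorem smul_le_smul {A B : Submodule ℤ ℂ} (c : ℂ) (h : A ≤ B) : c • A ≤ c • B := by
  intro z hz
  obtain ⟨y, hy, rfl⟩ := mem_smul_iff.1 hz
  exact mem_smul_iff.2 ⟨y, h hy, rfl⟩

theorem sp_mul (x y : ℂ) (A : Submodule ℤ ℂ) : sp x y * A = x • A ⊔ y • A := by
  rw [sp, Submodule.span_insert, Submodule.sup_mul, Submodule.span_singleton_mul,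
    Submodule.span_singleton_mul]

theorem exists_scale {a b a' b' : ℂ} (h : a ^ 3 - 27 * b ^ 2 ≠ 0) (h' : a' ^ 3 - 27 * b' ^ 2 ≠ 0)
    (e : 1728 * a ^ 3 / (a ^ 3 - 27 * b ^ 2) = 1728 * a' ^ 3 / (a' ^ 3 - 27 * b' ^ 2)) :
    ∃ c : ℂ, c ≠ 0 ∧ (c ^ 4)⁻¹ * a = a' ∧ (c ^ 6)⁻¹ * b = b' := by
  have e' : a ^ 3 * b' ^ 2 = a' ^ 3 * b ^ 2 := by
    rw [div_eq_div_iff h h'] at e
    linear_combination (-1 / 46656 : ℂ) * e
  by_cases ha : a = 0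
  · subst ha
    have hb : b ≠ 0 := by rintro rfl; simp at h
    have ha' : a' = 0 := by
      have : a' ^ 3 * b ^ 2 = 0 := by rw [← e']; ring
      rcases mul_eq_zero.1 this with h1 | h1
      · exact pow_eq_zero_iff (by norm_num) |>.1 h1
      · exact absurd (pow_eq_zero_iff (by norm_num) |>.1 h1) hb
    subst ha'
    have hb' : b' ≠ 0 := by rintro rfl; simp at h'
    obtain ⟨c, hc⟩ := IsAlgClosed.exists_pow_nat_eq (b / b') (n := 6) (by norm_num)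
    have hc0 : c ≠ 0 := by
      rintro rfl
      exact div_ne_zero hb hb' (by rw [← hc]; simp)
    refine ⟨c, hc0, by simp, ?_⟩
    rw [hc]; field_simp
  by_cases hb : b = 0
  · subst hb
    have hb' : b' = 0 := by
      have : a ^ 3 * b' ^ 2 = 0 := by rw [e']; ring
      rcases mul_eq_zero.1 this with h1 | h1
      · exact absurd (pow_eq_zero_iff (by norm_num) |>.1 h1) ha
      · exact pow_eq_zero_iff (by norm_num) |>.1 h1
    subst hb'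
    have ha' : a' ≠ 0 := by rintro rfl; simp at h'
    obtain ⟨c, hc⟩ := IsAlgClosed.exists_pow_nat_eq (a / a') (n := 4) (by norm_num)
    have hc0 : c ≠ 0 := by
      rintro rfl
      exact div_ne_zero ha ha' (by rw [← hc]; simp)
    refine ⟨c, hc0, ?_, by simp⟩
    rw [hc]; field_simp
  have ha' : a' ≠ 0 := by
    rintro rfl
    have : a ^ 3 * b' ^ 2 = 0 := by rw [e']; ring
    rcases mul_eq_zero.1 this with h1 | h1
    · exact ha (pow_eq_zero_iff (by norm_num) |>.1 h1)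
    · rw [h1] at h'; simp at h'
  have hb' : b' ≠ 0 := by
    rintro rfl
    have : a' ^ 3 * b ^ 2 = 0 := by rw [← e']; ring
    rcases mul_eq_zero.1 this with h1 | h1
    · exact ha' (pow_eq_zero_iff (by norm_num) |>.1 h1)
    · exact hb (pow_eq_zero_iff (by norm_num) |>.1 h1)
  obtain ⟨c, hc⟩ := IsAlgClosed.exists_pow_nat_eq (b * a' / (b' * a)) (n := 2) (by norm_num)
  have hc0 : c ≠ 0 := by
    rintro rfl
    exact div_ne_zero (mul_ne_zero hb ha') (mul_ne_zero hb' ha) (by rw [← hc]; simp)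
  have h4 : c ^ 4 = a / a' := by
    rw [show c ^ 4 = (c ^ 2) ^ 2 by ring, hc]
    field_simp
    linear_combination -e'
  have h6 : c ^ 6 = b / b' := by
    rw [show c ^ 6 = c ^ 2 * c ^ 4 by ring, hc, h4]
    field_simp
  refine ⟨c, hc0, ?_, ?_⟩
  · rw [h4]; field_simp
  · rw [h6]; field_simp

namespace Hyp

variable (h : Hyp)
include h

theorem isLat_sp (τ : ℍ) : IsLat (sp τ 1) := h.lat.1 τ

theorem isLat_smul {L : Submodule ℤ ℂ} {c : ℂ} (hL : IsLat L) (hc : c ≠ 0) : IsLat (c • L) :=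
  h.lat.2.1 L c hL hc

theorem g2_smul (L : Submodule ℤ ℂ) {c : ℂ} (hc : c ≠ 0) : g2 (c • L) = (c ^ 4)⁻¹ * g2 L := by
  simp only [g2, h.lat.2.2.1 L c 4 hc]; ring

theorem g3_smul (L : Submodule ℤ ℂ) {c : ℂ} (hc : c ≠ 0) : g3 (c • L) = (c ^ 6)⁻¹ * g3 L := by
  simp only [g3, h.lat.2.2.1 L c 6 hc]; ring

theorem dis_smul (L : Submodule ℤ ℂ) {c : ℂ} (hc : c ≠ 0) :
    dis (c • L) = (c ^ 12)⁻¹ * dis L := by
  simp only [dis, h.g2_smul L hc, h.g3_smul L hc]; field_simp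

theorem jL_smul (L : Submodule ℤ ℂ) {c : ℂ} (hc : c ≠ 0) : jL (c • L) = jL L := by
  simp only [jL, h.g2_smul L hc, h.dis_smul L hc]
  have : (c ^ 12)⁻¹ ≠ 0 := inv_ne_zero (pow_ne_zero _ hc)
  rw [show 1728 * ((c ^ 4)⁻¹ * g2 L) ^ 3 = (c ^ 12)⁻¹ * (1728 * g2 L ^ 3) by field_simp,
    mul_div_mul_left _ _ this]

theorem exists_fd {L : Submodule ℤ ℂ} (hL : IsLat L) :
    ∃ (τ : ℍ) (c : ℂ), c ≠ 0 ∧ τ ∈ ModularGroup.fd ∧ L = c • sp τ 1 := h.lat.2.2.2.1 L hL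

theorem isLat_between {L X M : Submodule ℤ ℂ} (hL : IsLat L) (hM : IsLat M) (h1 : L ≤ X)
    (h2 : X ≤ M) : IsLat X := h.lat.2.2.2.2.1 L X M hL hM h1 h2

theorem jL_sp (τ : ℍ) : jL (sp τ 1) = jH τ := h.eis.2.2.2.1 τ

theorem dis_ne_zero {L : Submodule ℤ ℂ} (hL : IsLat L) : dis L ≠ 0 := by
  obtain ⟨τ, c, hc, -, rfl⟩ := h.exists_fd hL
  rw [h.dis_smul _ hc, h.eis.2.2.1]
  have : (Real.pi : ℂ) ≠ 0 := by exact_mod_cast Real.pi_ne_zero
  exact mul_ne_zero (inv_ne_zero (pow_ne_zero _ hc))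
    (mul_ne_zero (pow_ne_zero _ (mul_ne_zero two_ne_zero this)) (ModularForm.discriminant_ne_zero τ))

theorem exists_conj (σ : ℂ →+* ℂ) {L : Submodule ℤ ℂ} (hL : IsLat L) : ∃ M, Conj σ L M := by
  have hd : σ (g2 L) ^ 3 - 27 * σ (g3 L) ^ 2 ≠ 0 := by
    have : σ (dis L) ≠ 0 := (map_ne_zero σ).2 (h.dis_ne_zero hL)
    simpa [dis, map_ofNat] using this
  obtain ⟨τ, hτ⟩ := h.eis.2.2.2.2.2.2.2
    (1728 * σ (g2 L) ^ 3 / (σ (g2 L) ^ 3 - 27 * σ (g3 L) ^ 2))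
  rw [← h.jL_sp] at hτ
  obtain ⟨c, hc, h4, h6⟩ := exists_scale (h.dis_ne_zero (h.isLat_sp τ)) hd hτ
  exact ⟨c • sp τ 1, hL, h.isLat_smul (h.isLat_sp τ) hc, by rw [h.g2_smul _ hc, h4],
    by rw [h.g3_smul _ hc, h6]⟩

theorem conj_mono {σ : ℂ →+* ℂ} {L L' M M' : Submodule ℤ ℂ} (h1 : Conj σ L M)
    (h2 : Conj σ L' M') (hle : L ≤ L') : M ≤ M' := h.mono σ L L' M M' h1 h2 hle

theorem conj_unique {σ : ℂ →+* ℂ} {L M M' : Submodule ℤ ℂ} (h1 : Conj σ L M)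
    (h2 : Conj σ L M') : M = M' :=
  le_antisymm (h.conj_mono h1 h2 le_rfl) (h.conj_mono h2 h1 le_rfl)

theorem eq_smul_of_jL_eq {L M : Submodule ℤ ℂ} (hL : IsLat L) (hM : IsLat M)
    (e : jL L = jL M) : ∃ c : ℂ, c ≠ 0 ∧ M = c • L := by
  obtain ⟨c, hc, h4, h6⟩ := exists_scale (h.dis_ne_zero hL) (h.dis_ne_zero hM) e
  refine ⟨c, hc, h.conj_unique (σ := RingHom.id ℂ) (L := M) ⟨hM, hM, rfl, rfl⟩
    ⟨hM, h.isLat_smul hL hc, ?_, ?_⟩⟩
  · rw [h.g2_smul _ hc, h4]; rfl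
  · rw [h.g3_smul _ hc, h6]; rfl

theorem conj_smul {σ : ℂ →+* ℂ} {L M : Submodule ℤ ℂ} (h1 : Conj σ L M) {c : ℂ} (hc : c ≠ 0) :
    Conj σ (c • L) (σ c • M) := by
  have hc' : σ c ≠ 0 := (map_ne_zero σ).2 hc
  refine ⟨h.isLat_smul h1.1 hc, h.isLat_smul h1.2.1 hc', ?_, ?_⟩
  · rw [h.g2_smul _ hc, h.g2_smul _ hc', ← h1.2.2.1]; simp
  · rw [h.g3_smul _ hc, h.g3_smul _ hc', ← h1.2.2.2]; simp

/-- Two points of the upper half plane have the same invariant iff they are equivalent. -/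
theorem jH_eq_iff {τ τ' : ℍ} : jH τ = jH τ' ↔ ∃ γ : SL(2, ℤ), τ' = γ • τ := by
  constructor
  · intro e
    rw [← h.jL_sp, ← h.jL_sp] at e
    obtain ⟨c, hc, e'⟩ := h.eq_smul_of_jL_eq (h.isLat_sp τ) (h.isLat_sp τ') e
    exact h.lat.2.2.2.2.2.2.1 τ τ' c hc e'
  · rintro ⟨γ, rfl⟩
    exact (h.eis.2.2.2.2.1 γ τ).symm

end Hyp

theorem Conj.jL {σ : ℂ →+* ℂ} {L M : Submodule ℤ ℂ} (h1 : Conj σ L M) : σ (jL L) = jL M := by
  simp only [CM.jL, dis, ← h1.2.2.1, ← h1.2.2.2, map_div₀, map_mul, map_sub, map_pow, map_ofNat]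

theorem Conj.symm {σ : ℂ ≃+* ℂ} {L M : Submodule ℤ ℂ} (h1 : Conj (σ : ℂ →+* ℂ) L M) :
    Conj (σ.symm : ℂ →+* ℂ) M L := by
  refine ⟨h1.2.1, h1.1, ?_, ?_⟩
  · rw [← h1.2.2.1]; simp
  · rw [← h1.2.2.2]; simp

namespace Hyp

variable (h : Hyp)
include h

theorem conj_sup {σ : ℂ ≃+* ℂ} {L L' M M' N : Submodule ℤ ℂ} (h1 : Conj (σ : ℂ →+* ℂ) L M)
    (h2 : Conj (σ : ℂ →+* ℂ) L' M') (h3 : Conj (σ : ℂ →+* ℂ) (L ⊔ L') N) : N = M ⊔ M' := by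
  have hle : M ⊔ M' ≤ N :=
    sup_le (h.conj_mono h1 h3 le_sup_left) (h.conj_mono h2 h3 le_sup_right)
  have hl : IsLat (M ⊔ M') := h.isLat_between h1.2.1 h3.2.1 le_sup_left hle
  obtain ⟨X, hX⟩ := h.exists_conj (σ.symm : ℂ →+* ℂ) hl
  have a1 : L ≤ X := h.conj_mono h1.symm hX le_sup_left
  have a2 : L' ≤ X := h.conj_mono h2.symm hX le_sup_right
  have hX' : Conj (σ : ℂ →+* ℂ) X (M ⊔ M') := by simpa using Conj.symm (σ := σ.symm) hX
  exact le_antisymm (h.conj_mono h3 hX' (sup_le a1 a2)) hle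

end Hyp

end Pool.Agent.Lib.MP_9177b7_ag.CM
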