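import Pool.Agent.Lib.MP_9177b7_ag.CM.Main2

/-!
Complex multiplication: every invertible ideal is realised by an automorphism of `ℂ`.
-/

open UpperHalfPlane Pointwise
open scoped MatrixGroups

noncomputable section

namespace Pool.Agent.Lib.MP_9177b7_ag.CM

variable {ω : ℂ} {t n : ℤ}

theorem int_of_im (him : ω.im ≠ 0) {a b : ℤ} (e : (a : ℂ) + b * ω = 0) : a = 0 ∧ b = 0 := by
  have h1 := congrArg Complex.im e
  simp at h1
  rcases h1 with h1 | h1
  · subst h1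
    simpa using e
  · exact absurd h1 him

theorem prime_lt (him : ω.im ≠ 0) {l : ℕ} (hl : l.Prime) (r : ℤ) :
    (l : ℂ) • sp 1 ω < sp l (ω - r) ∧ sp l (ω - r) < sp 1 ω := by
  have hl1 : ¬ (l : ℤ) ∣ 1 := by
    intro hd
    exact hl.one_lt.ne' (by exact_mod_cast Int.eq_one_of_dvd_one (by positivity) hd)
  constructor
  · refine lt_of_le_of_ne ?_ fun e => ?_
    · rw [smul_sp, sp_le]
      exact ⟨mem_sp.2 ⟨1, 0, by simp⟩, mem_sp.2 ⟨r, l, by push_cast; ring⟩⟩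
    · have : ω - r ∈ (l : ℂ) • sp 1 ω := e ▸ right_mem_sp _ _
      rw [smul_sp] at this
      obtain ⟨a, b, hab⟩ := mem_sp.1 this
      have := (int_of_im him (a := a * l + r) (b := b * l - 1)
        (by push_cast; linear_combination hab)).2
      exact hl1 ⟨b, by linarith⟩
  · refine lt_of_le_of_ne ?_ fun e => ?_
    · rw [sp_le]
      exact ⟨mem_sp.2 ⟨l, 0, by simp⟩, mem_sp.2 ⟨-r, 1, by push_cast; ring⟩⟩
    · have : (1 : ℂ) ∈ sp l (ω - r) := e ▸ left_mem_sp _ _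
      obtain ⟨a, b, hab⟩ := mem_sp.1 this
      have := int_of_im him (a := a * l - b * r - 1) (b := b)
        (by push_cast; linear_combination hab)
      obtain ⟨h1, rfl⟩ := this
      exact hl1 ⟨a, by linarith⟩

theorem smul_prime_le (hω : ω ^ 2 = t * ω - n) {l : ℕ} {r : ℤ}
    (hr : (l : ℤ) ∣ r ^ 2 - t * r + n) : ω • sp l (ω - r) ≤ sp l (ω - r) := by
  obtain ⟨k, hk⟩ := hr
  have hk' : (r : ℂ) ^ 2 - t * r + n = l * k := by exact_mod_cast hk
  rw [smul_sp, sp_le]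
  exact ⟨mem_sp.2 ⟨r, l, by push_cast; ring⟩,
    mem_sp.2 ⟨-k, t - r, by push_cast; linear_combination -hω + hk'⟩⟩

namespace Hyp

variable (h : Hyp)
include h

theorem kron_lat {l : ℕ} (hl : l.Prime) (A : Subring ℂ) (P : AddSubgroup ℂ)
    (hP : ∀ a ∈ A, ∀ x ∈ P, a * x ∈ P)
    (h1 : Complex.exp (2 * Real.pi * Complex.I / l) ∈ A) (h2 : (6 : ℂ)⁻¹ ∈ A) (h3 : (l : ℂ) ∈ P)
    (h4 : 1 - Complex.exp (2 * Real.pi * Complex.I / l) ∈ P) {L X : Submodule ℤ ℂ}
    (hL : IsLat L) (hX1 : (l : ℂ) • L < X) (hX2 : X < L) (hjL : jL L ∈ A) (hjX : jL X ∈ A) :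
    (jL X - jL L ^ l) * (jL X ^ l - jL L) ∈ P := by
  obtain ⟨τ, c, hc, -, rfl⟩ := h.exists_fd hL
  have hl0 : (l : ℂ) ≠ 0 := by exact_mod_cast hl.ne_zero
  obtain ⟨Y, rfl⟩ : ∃ Y, X = c • Y :=
    ⟨c⁻¹ • X, by rw [smul_smul, mul_inv_cancel₀ hc, one_smul]⟩
  have hmono : ∀ U V : Submodule ℤ ℂ, c • U < c • V → U < V := by
    intro U V hUV
    refine lt_of_le_of_ne ?_ (by rintro rfl; exact hUV.ne rfl)
    have := smul_le_smul c⁻¹ hUV.le
    rwa [smul_smul, smul_smul, inv_mul_cancel₀ hc, one_smul, one_smul] at this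
  rw [smul_comm] at hX1
  rw [h.jL_smul _ hc] at hjL hjX ⊢
  rw [h.jL_smul _ hc]
  rw [h.jL_sp] at hjL ⊢
  refine h.kron l hl A P hP h1 h2 h3 h4 τ _ hjL hjX ?_
  rcases h.lat.2.2.2.2.2.2.2.1 l τ Y hl (hmono _ _ hX1) (hmono _ _ hX2) with e | ⟨i, hi, e⟩
  · exact Or.inl (by rw [e, h.jL_sp])
  · exact Or.inr ⟨i, hi, by rw [e, h.jL_smul _ hl0, h.jL_sp]⟩

theorem acts_of_eq (hω : ω ^ 2 = t * ω - n) (him : ω.im ≠ 0) {σ : ℂ ≃+* ℂ} (hσ : σ ω = ω)
    {X : Submodule ℤ ℂ} (hX : IsLat X) (e : σ (jL (sp 1 ω)) = jL X) :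
    ∀ L, IsLat L → sp 1 ω * L = L → IsLat (X * L) ∧ σ (jL L) = jL (X * L) := by
  obtain ⟨A, B, -, hA, -, hA', hact⟩ := h.cm_of_aut hω him σ hσ
  have e1 := (hact _ (isLat_ord him) (ord_mul_ord hω)).2
  rw [mul_comm, hA', e] at e1
  obtain ⟨c, hc, rfl⟩ := h.eq_smul_of_jL_eq hA hX e1.symm
  intro L hL hL'
  rw [smul_mul_left, h.jL_smul _ hc]
  exact ⟨h.isLat_smul (hact L hL hL').1 hc, (hact L hL hL').2⟩

/-- Every invertible module over the order is realised by an automorphism fixing `ω`. -/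
theorem cm_surj (hω : ω ^ 2 = t * ω - n) (him : ω.im ≠ 0) (A B : Submodule ℤ ℂ)
    (hAB : A * B = sp 1 ω) (hA : sp 1 ω * A = A) : ∃ σ : ℂ ≃+* ℂ, σ ω = ω ∧
      ∀ L, IsLat L → sp 1 ω * L = L → IsLat (A * L) ∧ σ (jL L) = jL (A * L) := by
  have hne : ω ≠ t - ω := by
    intro e
    have := congrArg Complex.im e
    simp at this
    exact him (by linarith)
  have halg : IsAlgebraic ℚ ω := by
    refine IsIntegral.isAlgebraic (IsIntegral.tower_top (R := ℤ) ?_)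
    refine ⟨Polynomial.X ^ 2 - Polynomial.C t * Polynomial.X + Polynomial.C n, by monicity!, ?_⟩
    rw [Polynomial.eval₂_add, Polynomial.eval₂_sub, Polynomial.eval₂_mul, Polynomial.eval₂_pow,
      Polynomial.eval₂_X, Polynomial.eval₂_C, Polynomial.eval₂_C]
    simp [hω]
  obtain ⟨M, hM0, hM⟩ := h.frob (insert ω (insert (t - ω) (Jset ω)))
    (((h.finite_Jset him).insert _).insert _) (by
      rintro x (rfl | rfl | hx)
      · exact halg
      · exact (isAlgebraic_intCast t).sub halg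
      · exact h.isAlgebraic_of_mem_Jset hω him hx)
  refine h.ideal ω t n hω him M hM0 (fun A => ∃ σ : ℂ ≃+* ℂ, σ ω = ω ∧
      ∀ L, IsLat L → sp 1 ω * L = L → IsLat (A * L) ∧ σ (jL L) = jL (A * L)) ?_ ?_ ?_ ?_ A B hAB hA
  · exact ⟨RingEquiv.refl ℂ, rfl, fun L hL hL' => by rw [hL']; exact ⟨hL, rfl⟩⟩
  · rintro A B ⟨σ, hσ, hA⟩ ⟨τ, hτ, hB⟩
    refine ⟨τ.trans σ, by simp [hσ, hτ], fun L hL hL' => ?_⟩
    have hBL : sp 1 ω * (B * L) = B * L := by rw [mul_left_comm, hL']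
    rw [mul_assoc]
    refine ⟨(hA _ (hB L hL hL').1 hBL).1, ?_⟩
    rw [← (hA _ (hB L hL hL').1 hBL).2, ← (hB L hL hL').2]
    rfl
  · rintro c A hc ⟨σ, hσ, hA⟩
    refine ⟨σ, hσ, fun L hL hL' => ?_⟩
    rw [smul_mul_left, h.jL_smul _ hc]
    exact ⟨h.isLat_smul (hA L hL hL').1 hc, (hA L hL hL').2⟩
  · intro l r hl hlM hr
    have hl0 : (l : ℂ) ≠ 0 := by exact_mod_cast hl.ne_zero
    obtain ⟨σ, R, P, hP, hprime, hJ, hζ, h6, hlP, h1ζ, hfrob, hinj⟩ :=
      hM l hl hlM (Complex.exp (2 * Real.pi * Complex.I / l))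
        (Complex.isPrimitiveRoot_exp l hl.ne_zero).pow_eq_one
    have m1 : ω ∈ insert ω (insert (t - ω) (Jset ω)) := Or.inl rfl
    have m2 : (t : ℂ) - ω ∈ insert ω (insert (t - ω) (Jset ω)) := Or.inr (Or.inl rfl)
    have m3 : ∀ x ∈ Jset ω, x ∈ insert ω (insert (t - ω) (Jset ω)) :=
      fun x hx => Or.inr (Or.inr hx)
    -- the Frobenius fixes `ω`
    have hfix : ∀ x ∈ insert ω (insert (t - ω) (Jset ω)), x - r ∈ P → σ x - x ∈ P := by
      intro x hx hxr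
      have a1 : x ^ l - (r : ℂ) ^ l ∈ P := by
        rw [← Commute.geom_sum₂_mul (Commute.all x (r : ℂ))]
        refine hP _ (R.sum_mem fun i _ => R.mul_mem (R.pow_mem (hJ x hx) _)
          (R.pow_mem (intCast_mem R r) _)) _ hxr
      have a2 : (r : ℂ) ^ l - r ∈ P := by
        have := Fact.mk hl
        have : (l : ℤ) ∣ r ^ l - r := by
          rw [← ZMod.intCast_zmod_eq_zero_iff_dvd]
          push_cast
          rw [ZMod.pow_card, sub_self]
        obtain ⟨k, hk⟩ := this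
        have hk' : (r : ℂ) ^ l - r = k * l := by exact_mod_cast hk.trans (mul_comm _ _)
        rw [hk']
        exact hP _ (intCast_mem R k) _ hlP
      have := P.sub_mem (P.add_mem (P.add_mem (hfrob x hx) a1) a2) hxr
      rwa [show σ x - x ^ l + (x ^ l - (r : ℂ) ^ l) + ((r : ℂ) ^ l - r) - (x - r) = σ x - x by
        ring] at this
    have hσ : σ ω = ω := by
      rcases map_omega hω (σ : ℂ →+* ℂ) with e | e
      · exact e
      exfalso
      have e' : σ ω = t - ω := e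
      have e'' : σ (t - ω) = ω := by rw [map_sub, map_intCast, e']; ring
      have hprod : (ω - r) * ((t - ω) - r) ∈ P := by
        obtain ⟨k, hk⟩ := hr
        have hk' : (r : ℂ) ^ 2 - t * r + n = l * k := by exact_mod_cast hk
        rw [show (ω - r) * ((t - ω) - r) = k * l by linear_combination hk' - hω]
        exact hP _ (intCast_mem R k) _ hlP
      rcases hprime _ (R.sub_mem (hJ _ m1) (intCast_mem R r)) _
        (R.sub_mem (hJ _ m2) (intCast_mem R r)) hprod with a | a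
      · have := hfix _ m1 a
        rw [e'] at this
        exact hne (hinj _ m2 _ m1 this).symm
      · have := hfix _ m2 a
        rw [e''] at this
        exact hne (hinj _ m1 _ m2 this)
    obtain ⟨hlt1, hlt2⟩ := prime_lt him hl r
    have hX : IsLat (sp l (ω - r)) :=
      h.isLat_between (h.isLat_smul (isLat_ord him) hl0) (isLat_ord him) hlt1.le hlt2.le
    have j0 : jL (sp 1 ω) ∈ Jset ω := ⟨_, isLat_ord him, smul_ord_le hω, rfl⟩
    have j1 : jL (sp l (ω - r)) ∈ Jset ω := ⟨_, hX, smul_prime_le hω hr, rfl⟩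
    have hk := h.kron_lat hl R P hP hζ h6 hlP h1ζ (isLat_ord him) hlt1 hlt2 (hJ _ (m3 _ j0))
      (hJ _ (m3 _ j1))
    rcases hprime _ (R.sub_mem (hJ _ (m3 _ j1)) (R.pow_mem (hJ _ (m3 _ j0)) _)) _
      (R.sub_mem (R.pow_mem (hJ _ (m3 _ j1)) _) (hJ _ (m3 _ j0))) hk with a | a
    · have b := P.sub_mem (hfrob _ (m3 _ j0)) a
      rw [show ∀ u v w : ℂ, u - v - (w - v) = u - w from fun u v w => by ring] at b
      have e := hinj _ (m3 _ (h.map_mem_Jset hω him (σ : ℂ →+* ℂ) j0)) _ (m3 _ j1) b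
      exact ⟨σ, hσ, h.acts_of_eq hω him hσ hX e⟩
    · have b := P.add_mem (hfrob _ (m3 _ j1)) a
      rw [show ∀ u v w : ℂ, u - v + (v - w) = u - w from fun u v w => by ring] at b
      have e := hinj _ (m3 _ (h.map_mem_Jset hω him (σ : ℂ →+* ℂ) j1)) _ (m3 _ j0) b
      have hσ' : σ.symm ω = ω := by rw [RingEquiv.symm_apply_eq, hσ]
      refine ⟨σ.symm, hσ', h.acts_of_eq hω him hσ' hX ?_⟩
      rw [RingEquiv.symm_apply_eq]
      exact e.symm

end Hyp

end Pool.Agent.Lib.MP_9177b7_ag.CM
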