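import Pool.Agent.Lib.MP_9177b7_ag.CM.Main3

/-!
Complex multiplication: automorphisms that conjugate `ω`, and pairs of different fields.
-/

open UpperHalfPlane Pointwise
open scoped MatrixGroups

noncomputable section

namespace Pool.Agent.Lib.MP_9177b7_ag.CM

/-- The complex conjugate of a subgroup of `ℂ`. -/
def bar (L : Submodule ℤ ℂ) : Submodule ℤ ℂ :=
  L.map (starRingEnd ℂ).toIntAlgHom.toLinearMap

/-- Complex conjugation as a ring automorphism. -/
def cj : ℂ ≃+* ℂ := starRingAut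

@[simp] theorem cj_apply (z : ℂ) : cj z = starRingEnd ℂ z := rfl

theorem mem_bar {L : Submodule ℤ ℂ} {z : ℂ} : z ∈ bar L ↔ starRingEnd ℂ z ∈ L := by
  constructor
  · rintro ⟨y, hy, rfl⟩
    simpa using hy
  · intro hz
    exact ⟨_, hz, by simp⟩

theorem bar_bar (L : Submodule ℤ ℂ) : bar (bar L) = L := by
  ext z; simp [mem_bar]

theorem bar_mul (A B : Submodule ℤ ℂ) : bar (A * B) = bar A * bar B :=
  Submodule.map_mul _ _ _

theorem bar_smul (c : ℂ) (A : Submodule ℤ ℂ) : bar (c • A) = starRingEnd ℂ c • bar A := by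
  ext z
  simp only [mem_bar, mem_smul_iff]
  constructor
  · rintro ⟨y, hy, e⟩
    exact ⟨starRingEnd ℂ y, by simpa using hy, by rw [← map_mul, e]; simp⟩
  · rintro ⟨y, hy, rfl⟩
    exact ⟨_, hy, by simp⟩

theorem bar_sp (x y : ℂ) : bar (sp x y) = sp (starRingEnd ℂ x) (starRingEnd ℂ y) := by
  ext z
  simp only [mem_bar, mem_sp]
  constructor
  · rintro ⟨a, b, e⟩
    exact ⟨a, b, by simpa using congrArg (starRingEnd ℂ) e⟩
  · rintro ⟨a, b, rfl⟩
    exact ⟨a, b, by simp⟩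

variable {ω : ℂ} {t n : ℤ}

theorem conj_omega (hω : ω ^ 2 = t * ω - n) (him : ω.im ≠ 0) : starRingEnd ℂ ω = t - ω := by
  rcases map_omega hω (starRingEnd ℂ) with e | e
  · have := congrArg Complex.im e
    simp at this
    exact absurd (by linarith) him
  · exact e

theorem bar_ord (hω : ω ^ 2 = t * ω - n) (him : ω.im ≠ 0) : bar (sp 1 ω) = sp 1 ω := by
  rw [bar_sp, map_one, conj_omega hω him]
  apply le_antisymm <;> rw [sp_le]
  · exact ⟨left_mem_sp _ _, mem_sp.2 ⟨t, -1, by push_cast; ring⟩⟩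
  · exact ⟨left_mem_sp _ _, mem_sp.2 ⟨t, -1, by push_cast; ring⟩⟩

theorem disc_ne_zero (hω : ω ^ 2 = t * ω - n) (him : ω.im ≠ 0) : t ^ 2 - 4 * n ≠ 0 := by
  intro e
  have e' : (t : ℂ) ^ 2 - 4 * n = 0 := by exact_mod_cast e
  have : (2 * ω - t) ^ 2 = 0 := by linear_combination 4 * hω + e'
  have := congrArg Complex.im (pow_eq_zero_iff two_ne_zero |>.1 this)
  simp at this
  exact him this

theorem prime_mul_bar (hω : ω ^ 2 = t * ω - n) (him : ω.im ≠ 0) {l : ℕ} (hl : l.Prime) {r : ℤ}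
    (hr : (l : ℤ) ∣ r ^ 2 - t * r + n) (hD : ¬ (l : ℤ) ∣ t ^ 2 - 4 * n) :
    sp l (ω - r) * bar (sp l (ω - r)) = (l : ℂ) • sp 1 ω := by
  obtain ⟨k, hk⟩ := hr
  have hk' : (r : ℂ) ^ 2 - t * r + n = l * k := by exact_mod_cast hk
  have hX : sp 1 ω * (sp l (ω - r) * bar (sp l (ω - r))) = sp l (ω - r) * bar (sp l (ω - r)) := by
    rw [← mul_assoc, ord_mul_eq_iff.2 (smul_prime_le hω ⟨k, hk⟩)]
  have hb : bar (sp l (ω - r)) = sp l (t - ω - r) := by
    rw [bar_sp, map_sub, conj_omega hω him]; simp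
  apply le_antisymm
  · rw [hb, sp_mul, smul_sp, smul_sp, smul_sp, sup_le_iff, sp_le, sp_le]
    refine ⟨⟨mem_sp.2 ⟨l, 0, by simp⟩, mem_sp.2 ⟨t - r, -1, by push_cast; ring⟩⟩,
      mem_sp.2 ⟨-r, 1, by push_cast; ring⟩, mem_sp.2 ⟨k, 0, ?_⟩⟩
    push_cast
    linear_combination hω - hk'
  · rw [hb] at hX ⊢
    set X := sp l (ω - r) * sp l (t - ω - r) with hXd
    have hO : ∀ u ∈ sp 1 ω, ∀ x ∈ X, u * x ∈ X := fun u hu x hx =>
      hX ▸ Submodule.mul_mem_mul hu hx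
    have a1 : (l : ℂ) * l ∈ X := Submodule.mul_mem_mul (left_mem_sp _ _) (left_mem_sp _ _)
    have a2 : (ω - r) * l ∈ X := Submodule.mul_mem_mul (right_mem_sp _ _) (left_mem_sp _ _)
    have a3 : (l : ℂ) * (t - ω - r) ∈ X :=
      Submodule.mul_mem_mul (left_mem_sp _ _) (right_mem_sp _ _)
    have a4 := hO (2 * ω - t) (mem_sp.2 ⟨-t, 2, by push_cast; ring⟩) _ (X.sub_mem a2 a3)
    have hc : IsCoprime (l : ℤ) (t ^ 2 - 4 * n) :=
      (Nat.prime_iff_prime_int.1 hl).irreducible.coprime_iff_not_dvd.2 hD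
    obtain ⟨a, b, hab⟩ := hc
    have hab' : (a : ℂ) * l + b * (t ^ 2 - 4 * n) = 1 := by exact_mod_cast hab
    have a5 : (l : ℂ) ∈ X := by
      have := X.add_mem (X.smul_mem a a1) (X.smul_mem b a4)
      simp only [zsmul_eq_mul] at this
      rwa [show (a : ℂ) * (l * l) + b * ((2 * ω - t) * ((ω - r) * l - l * (t - ω - r))) = l by
        linear_combination (l : ℂ) * hab' + 4 * b * l * hω] at this
    rw [smul_sp, sp_le]
    exact ⟨by simpa using a5, by rw [mul_comm]; exact hO _ (right_mem_sp _ _) _ a5⟩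

namespace Hyp

variable (h : Hyp)
include h

theorem isLat_bar {L : Submodule ℤ ℂ} (hL : IsLat L) : IsLat (bar L) :=
  (h.lat.2.2.2.2.2.1 L hL).1

theorem conj_bar {L : Submodule ℤ ℂ} (hL : IsLat L) : Conj (starRingEnd ℂ) L (bar L) := by
  have := (h.lat.2.2.2.2.2.1 L hL).2
  refine ⟨hL, h.isLat_bar hL, ?_, ?_⟩
  · simp only [g2, bar, this, map_mul, map_ofNat]
  · simp only [g3, bar, this, map_mul, map_ofNat]

theorem jL_bar {L : Submodule ℤ ℂ} (hL : IsLat L) : jL (bar L) = starRingEnd ℂ (jL L) :=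
  (h.conj_bar hL).jL.symm

/-- An invertible module times its conjugate is principal. -/
theorem mul_bar (hω : ω ^ 2 = t * ω - n) (him : ω.im ≠ 0) {A B : Submodule ℤ ℂ}
    (hAB : A * B = sp 1 ω) (hA : sp 1 ω * A = A) :
    ∃ c : ℂ, c ≠ 0 ∧ A * bar A = c • sp 1 ω := by
  refine h.ideal ω t n hω him (t ^ 2 - 4 * n).natAbs
    (Int.natAbs_ne_zero.2 (disc_ne_zero hω him))
    (fun A => ∃ c : ℂ, c ≠ 0 ∧ A * bar A = c • sp 1 ω) ?_ ?_ ?_ ?_ A B hAB hA
  · exact ⟨1, one_ne_zero, by rw [bar_ord hω him, ord_mul_ord hω, one_smul]⟩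
  · rintro A B ⟨c, hc, hA⟩ ⟨d, hd, hB⟩
    refine ⟨c * d, mul_ne_zero hc hd, ?_⟩
    rw [bar_mul, mul_mul_mul_comm, hA, hB, smul_mul_left, smul_mul_right, smul_smul,
      ord_mul_ord hω]
  · rintro c A hc ⟨d, hd, hA⟩
    refine ⟨c * (starRingEnd ℂ c * d), mul_ne_zero hc (mul_ne_zero (by simpa using hc) hd), ?_⟩
    rw [bar_smul, smul_mul_left, smul_mul_right, hA, smul_smul, smul_smul, mul_assoc]
  · intro l r hl hlM hr
    exact ⟨l, by exact_mod_cast hl.ne_zero, prime_mul_bar hω him hl hr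
      fun hd => hlM (Int.natCast_dvd.1 hd)⟩

/-- An automorphism that conjugates `ω` acts as conjugation followed by an invertible ideal. -/
theorem cm_of_aut' (hω : ω ^ 2 = t * ω - n) (him : ω.im ≠ 0) (σ : ℂ ≃+* ℂ)
    (hσ : σ ω = t - ω) :
    ∃ A B : Submodule ℤ ℂ, A ≤ sp 1 ω ∧ IsLat A ∧ A * B = sp 1 ω ∧ sp 1 ω * A = A ∧
      ∀ L, IsLat L → sp 1 ω * L = L → IsLat (A * bar L) ∧ σ (jL L) = jL (A * bar L) := by
  have hfix : (cj.trans σ) ω = ω := by
    simp [conj_omega hω him, hσ]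
  obtain ⟨A, B, h1, h2, h3, h4, h5⟩ := h.cm_of_aut hω him _ hfix
  refine ⟨A, B, h1, h2, h3, h4, fun L hL hL' => ?_⟩
  have hb : sp 1 ω * bar L = bar L := by rw [← bar_ord hω him, ← bar_mul, hL']
  refine ⟨(h5 _ (h.isLat_bar hL) hb).1, ?_⟩
  rw [← (h5 _ (h.isLat_bar hL) hb).2, h.jL_bar hL]
  simp

/-- The square of an automorphism that conjugates `ω` fixes all invariants. -/
theorem sq_fix (hω : ω ^ 2 = t * ω - n) (him : ω.im ≠ 0) (σ : ℂ ≃+* ℂ) (hσ : σ ω = t - ω)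
    {L : Submodule ℤ ℂ} (hL : IsLat L) (hL' : sp 1 ω * L = L) : σ (σ (jL L)) = jL L := by
  obtain ⟨A, B, -, -, h3, h4, h5⟩ := h.cm_of_aut' hω him σ hσ
  obtain ⟨c, hc, e⟩ := h.mul_bar hω him h3 h4
  have hb : sp 1 ω * (A * bar L) = A * bar L := by rw [← mul_assoc, h4]
  rw [(h5 L hL hL').2, (h5 _ (h5 L hL hL').1 hb).2, bar_mul, bar_bar, ← mul_assoc, e,
    smul_mul_left, hL', h.jL_smul _ hc]

/-- Different fields: an automorphism fixing `ω` and conjugating `ω'`. -/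
theorem exists_fix_conj {ω' : ℂ} {t' n' : ℤ} (hω : ω ^ 2 = t * ω - n) (him : ω.im ≠ 0)
    (hω' : ω' ^ 2 = t' * ω' - n')
    (hne : ∀ a b : ℚ, ω' ≠ a + b * ω) : ∃ σ : ℂ ≃+* ℂ, σ ω = ω ∧ σ ω' = t' - ω' := by
  let S : Subring ℂ :=
    { carrier := {x | ∃ a b : ℚ, x = a + b * ω}
      mul_mem' := by
        rintro _ _ ⟨a, b, rfl⟩ ⟨c, d, rfl⟩
        exact ⟨a * c - b * d * n, a * d + b * c + b * d * t, by
          push_cast; linear_combination (b : ℂ) * d * hω⟩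
      one_mem' := ⟨1, 0, by simp⟩
      add_mem' := by
        rintro _ _ ⟨a, b, rfl⟩ ⟨c, d, rfl⟩
        exact ⟨a + c, b + d, by push_cast; ring⟩
      zero_mem' := ⟨0, 0, by simp⟩
      neg_mem' := by
        rintro _ ⟨a, b, rfl⟩
        exact ⟨-a, -b, by push_cast; ring⟩ }
  have hinv : ∀ y ∈ S, y⁻¹ ∈ S := by
    rintro _ ⟨c, d, rfl⟩
    by_cases hy : (c : ℂ) + d * ω = 0
    · rw [hy, inv_zero]; exact S.zero_mem
    have hy' : (c : ℂ) + d * (t - ω) ≠ 0 := by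
      intro e
      apply hy
      have := congrArg (starRingEnd ℂ) e
      simpa [conj_omega hω him] using this
    have hN : ((c : ℂ) + d * ω) * (c + d * (t - ω)) = ((c ^ 2 + c * d * t + d ^ 2 * n : ℚ) : ℂ) := by
      push_cast; linear_combination (-(d : ℂ) ^ 2) * hω
    have hN0 : ((c ^ 2 + c * d * t + d ^ 2 * n : ℚ) : ℂ) ≠ 0 := hN ▸ mul_ne_zero hy hy'
    refine ⟨(c + d * t) / (c ^ 2 + c * d * t + d ^ 2 * n), -d / (c ^ 2 + c * d * t + d ^ 2 * n), ?_⟩
    rw [Rat.cast_div, Rat.cast_div]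
    generalize ((c ^ 2 + c * d * t + d ^ 2 * n : ℚ) : ℂ) = N at hN hN0
    push_cast
    field_simp
    linear_combination -hN
  have hω'S : ω' ∉ S := fun ⟨a, b, e⟩ => hne a b e
  have : Countable S := by
    refine Set.Countable.to_subtype (s := (S : Set ℂ)) ?_
    refine (Set.countable_range fun p : ℚ × ℚ => (p.1 : ℂ) + p.2 * ω).mono ?_
    rintro _ ⟨a, b, rfl⟩
    exact ⟨(a, b), rfl⟩
  have : Countable (QuadraticAlgebra S (-n') t') :=
    (QuadraticAlgebra.equivProd _ _).injective.countable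
  have inj : ∀ (u : ℂ) (hu : u * u = (-n' : S) • (1 : ℂ) + (t' : S) • u), u ∉ S →
      Function.Injective (QuadraticAlgebra.lift ⟨u, hu⟩).toRingHom := by
    intro u hu huS
    rw [injective_iff_map_eq_zero]
    rintro ⟨x, y⟩ e
    have e' : (x : ℂ) + y * u = 0 := by
      simpa [QuadraticAlgebra.lift, Subring.smul_def] using e
    have hy : (y : ℂ) = 0 := by
      by_contra hy
      apply huS
      have : u = -(x * (y : ℂ)⁻¹) := by field_simp; linear_combination e'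
      rw [this]
      exact S.neg_mem (S.mul_mem x.2 (hinv _ y.2))
    have hx : (x : ℂ) = 0 := by simpa [hy] using e'
    ext
    · exact hx
    · exact hy
  have u1 : ω' * ω' = (-n' : S) • (1 : ℂ) + (t' : S) • ω' := by
    simp only [Subring.smul_def, smul_eq_mul]
    push_cast
    linear_combination hω'
  have u2 : (t' - ω') * (t' - ω') = (-n' : S) • (1 : ℂ) + (t' : S) • (t' - ω') := by
    simp only [Subring.smul_def, smul_eq_mul]
    push_cast
    linear_combination hω'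
  obtain ⟨σ, hσ⟩ := h.ext _ _ _ (inj _ u1 hω'S) (inj _ u2 fun hm => hω'S (by
    have := S.sub_mem (intCast_mem S t') hm
    simpa using this))
  refine ⟨σ, ?_, ?_⟩
  · simpa [QuadraticAlgebra.lift, Subring.smul_def] using hσ ⟨⟨ω, 0, 1, by simp⟩, 0⟩
  · simpa [QuadraticAlgebra.lift, Subring.smul_def] using hσ ⟨0, 1⟩

/-- Different fields: the square of every invertible ideal of the first order is realised by an
automorphism acting trivially on the invariants of the second order. -/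
theorem cm_surj_two {ω' : ℂ} {t' n' : ℤ} (hω : ω ^ 2 = t * ω - n) (him : ω.im ≠ 0)
    (hω' : ω' ^ 2 = t' * ω' - n') (him' : ω'.im ≠ 0) (hne : ∀ a b : ℚ, ω' ≠ a + b * ω)
    (A B : Submodule ℤ ℂ) (hAB : A * B = sp 1 ω) (hA : sp 1 ω * A = A) : ∃ σ : ℂ ≃+* ℂ,
      (∀ L, IsLat L → sp 1 ω * L = L → IsLat (A * A * L) ∧ σ (jL L) = jL (A * A * L)) ∧
      ∀ L, IsLat L → sp 1 ω' * L = L → σ (jL L) = jL L := by
  obtain ⟨σ, hσ, hact⟩ := h.cm_surj hω him A B hAB hA
  have hmul : ∀ X L : Submodule ℤ ℂ, sp 1 ω * L = L → sp 1 ω * (X * L) = X * L :=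
    fun X L hL => by rw [mul_left_comm, hL]
  rcases map_omega hω' (σ : ℂ →+* ℂ) with e | e
  · obtain ⟨τ, hτ, hτ'⟩ := h.exists_fix_conj hω him hω' hne
    have e' : σ ω' = ω' := e
    obtain ⟨T, T', -, -, -, -, hT⟩ := h.cm_of_aut hω him τ hτ
    refine ⟨τ.symm.trans (τ.symm.trans ((τ.trans σ).trans (τ.trans σ))), fun L hL hL' => ?_,
      fun L hL hL' => ?_⟩
    · have b1 := hact L hL hL'
      have b2 := hact _ b1.1 (hmul _ _ hL')
      rw [mul_assoc]
      refine ⟨b2.1, ?_⟩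
      -- `τ` commutes with `σ` on these invariants
      have comm : ∀ L, IsLat L → sp 1 ω * L = L → σ (τ (jL L)) = τ (σ (jL L)) := by
        intro L hL hL'
        rw [(hT L hL hL').2, (hact _ (hT L hL hL').1 (hmul _ _ hL')).2, (hact L hL hL').2,
          (hT _ (hact L hL hL').1 (hmul _ _ hL')).2, mul_left_comm]
      have hτs : τ.symm ω = ω := by rw [RingEquiv.symm_apply_eq, hτ]
      obtain ⟨S, S', -, -, -, -, hS⟩ := h.cm_of_aut hω him τ.symm hτs
      have c1 := hS L hL hL'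
      simp only [RingEquiv.trans_apply, RingEquiv.apply_symm_apply]
      rw [c1.2, ← comm _ c1.1 (hmul _ _ hL'), ← c1.2, RingEquiv.apply_symm_apply, b1.2, b2.2]
    · have d1 : (τ.trans σ) ω' = t' - ω' := by simp [hτ', e']
      have d2 : τ.symm ω' = t' - ω' := by
        rw [RingEquiv.symm_apply_eq, map_sub, map_intCast, hτ']; ring
      show (τ.trans σ) ((τ.trans σ) (τ.symm (τ.symm (jL L)))) = jL L
      rw [h.sq_fix hω' him' _ d2 hL hL', h.sq_fix hω' him' _ d1 hL hL']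
  · refine ⟨σ.trans σ, fun L hL hL' => ?_, fun L hL hL' => h.sq_fix hω' him' σ e hL hL'⟩
    have b1 := hact L hL hL'
    have b2 := hact _ b1.1 (hmul _ _ hL')
    rw [mul_assoc]
    exact ⟨b2.1, by rw [← b2.2, ← b1.2]; rfl⟩

end Hyp

end Pool.Agent.Lib.MP_9177b7_ag.CM
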